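import Mathlib

/-! The extremal functions of Beurling and Selberg: the basic function and its functional
equation. -/

set_option autoImplicit false

open Complex Filter Topology Set MeasureTheory
open scoped BigOperators ComplexConjugate FourierTransform

namespace Pool.Agent.W2helper69.BS

noncomputable def Pf (t : ℝ) : ℝ := Real.sinc (Real.pi * t) + Real.sinc (Real.pi * (1 - t))

lemma mul_sinc (x : ℝ) : x * Real.sinc x = Real.sin x := by
  rcases eq_or_ne x 0 with h | h
  · rw [h]; simp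
  · rw [Real.sinc_of_ne_zero h]; field_simp

lemma Pf_cont : Continuous Pf := by
  unfold Pf
  have := Real.continuous_sinc
  fun_prop

lemma sin_Pf (t : ℝ) : Real.sin (Real.pi * t) = Real.pi * t * (1 - t) * Pf t := by
  have h1 := mul_sinc (Real.pi * t)
  have h2 := mul_sinc (Real.pi * (1 - t))
  have h3 : Real.sin (Real.pi * (1 - t)) = Real.sin (Real.pi * t) := by
    rw [show Real.pi * (1 - t) = Real.pi - Real.pi * t by ring, Real.sin_pi_sub]
  rw [h3] at h2
  unfold Pf
  linear_combination (-(1 - t)) * h1 + (-t) * h2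

lemma sinc_nonneg' {x : ℝ} (h0 : 0 ≤ x) (h1 : x ≤ Real.pi) : 0 ≤ Real.sinc x := by
  rcases h0.eq_or_lt with h | h
  · rw [← h, Real.sinc_zero]; norm_num
  · rw [Real.sinc_of_ne_zero h.ne']
    exact div_nonneg (Real.sin_nonneg_of_nonneg_of_le_pi h0 h1) h0

lemma sinc_pos' {x : ℝ} (h0 : 0 ≤ x) (h1 : x < Real.pi) : 0 < Real.sinc x := by
  rcases h0.eq_or_lt with h | h
  · rw [← h, Real.sinc_zero]; norm_num
  · rw [Real.sinc_of_ne_zero h.ne']
    exact div_pos (Real.sin_pos_of_pos_of_lt_pi h h1) h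

lemma Pf_pos {t : ℝ} (h0 : 0 ≤ t) (h1 : t ≤ 1) : 0 < Pf t := by
  have hpi := Real.pi_pos
  unfold Pf
  rcases h1.eq_or_lt with h | h
  · have a1 : 0 ≤ Real.sinc (Real.pi * t) := sinc_nonneg' (by positivity) (by nlinarith)
    have a2 : 0 < Real.sinc (Real.pi * (1 - t)) := by rw [h]; simp
    linarith
  · have a1 : 0 < Real.sinc (Real.pi * t) := sinc_pos' (by positivity) (by nlinarith)
    have a2 : 0 ≤ Real.sinc (Real.pi * (1 - t)) :=
      sinc_nonneg' (mul_nonneg hpi.le (by linarith)) (by nlinarith)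
    linarith

lemma Pf_zero : Pf 0 = 1 := by
  unfold Pf
  simp [Real.sinc_of_ne_zero Real.pi_ne_zero]

lemma Pf_one : Pf 1 = 1 := by
  unfold Pf
  simp [Real.sinc_of_ne_zero Real.pi_ne_zero]

/-- the integrand -/
noncomputable def hh (y t : ℝ) : ℝ :=
  (2 * y + 1) * Real.sinc (Real.pi * (2 * y + 1) * t) / Pf t +
    Real.sin (2 * Real.pi * y * t) / Real.pi

/-- half of Beurling's function -/
noncomputable def Gy (y : ℝ) : ℝ := ∫ t in (0 : ℝ)..1, hh y t

lemma hh_cont (y : ℝ) : ContinuousOn (hh y) (Set.uIcc 0 1) := by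
  unfold hh
  have h1 := Real.continuous_sinc
  apply ContinuousOn.add
  · apply ContinuousOn.div
    · fun_prop
    · exact Pf_cont.continuousOn
    · intro t ht
      rw [Set.uIcc_of_le zero_le_one] at ht
      exact (Pf_pos ht.1 ht.2).ne'
  · fun_prop

lemma hh_int (y : ℝ) : IntervalIntegrable (hh y) volume 0 1 := (hh_cont y).intervalIntegrable

lemma hh_eq {y t : ℝ} (h0 : 0 < t) (h1 : t ≤ 1) : hh y t * (Real.pi * t * Pf t) =
    Real.sin (Real.pi * (2 * y + 1) * t) + t * Pf t * Real.sin (2 * Real.pi * y * t) := by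
  have hP := Pf_pos h0.le h1
  have h2 := mul_sinc (Real.pi * (2 * y + 1) * t)
  have hpi := Real.pi_pos
  unfold hh
  rw [← h2]
  field_simp

lemma hh_diff {y t : ℝ} (h0 : 0 < t) (h1 : t ≤ 1) : hh y t - hh (y - 1) t =
    2 * (1 - t) * Real.cos (2 * Real.pi * y * t) +
      (Real.sin (2 * Real.pi * y * t) - Real.sin (2 * Real.pi * (y - 1) * t)) / Real.pi := by
  have hP := Pf_pos h0.le h1
  have hpi := Real.pi_pos
  have hne : Real.pi * t * Pf t ≠ 0 := by positivity
  apply mul_right_cancel₀ hne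
  rw [sub_mul, hh_eq h0 h1, hh_eq h0 h1]
  have h2 : Real.sin (Real.pi * (2 * y + 1) * t) - Real.sin (Real.pi * (2 * (y - 1) + 1) * t) =
      2 * Real.cos (2 * Real.pi * y * t) * Real.sin (Real.pi * t) := by
    rw [show Real.pi * (2 * y + 1) * t = 2 * Real.pi * y * t + Real.pi * t by ring,
      show Real.pi * (2 * (y - 1) + 1) * t = 2 * Real.pi * y * t - Real.pi * t by ring,
      Real.sin_add, Real.sin_sub]
    ring
  have h3 := sin_Pf t
  have e : (2 * (1 - t) * Real.cos (2 * Real.pi * y * t) +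
      (Real.sin (2 * Real.pi * y * t) - Real.sin (2 * Real.pi * (y - 1) * t)) / Real.pi) *
      (Real.pi * t * Pf t) = 2 * Real.cos (2 * Real.pi * y * t) * (Real.pi * t * (1 - t) * Pf t) +
      t * Pf t * (Real.sin (2 * Real.pi * y * t) - Real.sin (2 * Real.pi * (y - 1) * t)) := by
    field_simp
  rw [e, ← h3]
  linear_combination h2

lemma int_sin_lin {k : ℝ} (hk : k ≠ 0) :
    ∫ t in (0 : ℝ)..1, Real.sin (k * t) = (1 - Real.cos k) / k := by
  rw [intervalIntegral.integral_comp_mul_left (fun x => Real.sin x) hk, integral_sin]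
  simp
  field_simp

lemma int_sin_y {y : ℝ} (hy : y ≠ 0) : ∫ t in (0 : ℝ)..1, Real.sin (2 * Real.pi * y * t) =
    Real.sin (Real.pi * y) ^ 2 / (Real.pi * y) := by
  have hpi := Real.pi_pos
  rw [int_sin_lin (by positivity)]
  rw [show 2 * Real.pi * y = 2 * (Real.pi * y) by ring, Real.cos_two_mul, Real.cos_sq']
  field_simp
  ring

lemma int_fejer {y : ℝ} (hy : y ≠ 0) :
    ∫ t in (0 : ℝ)..1, 2 * (1 - t) * Real.cos (2 * Real.pi * y * t) =
      (Real.sin (Real.pi * y) / (Real.pi * y)) ^ 2 := by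
  have hpi := Real.pi_pos
  set k := 2 * Real.pi * y with hkdef
  have hk : k ≠ 0 := by positivity
  have h2 : ∀ β ∈ Set.uIcc (0 : ℝ) 1, HasDerivAt (fun β : ℝ => 2 * ((1 - β) * Real.sin (k * β) / k -
      Real.cos (k * β) / k ^ 2)) (2 * (1 - β) * Real.cos (k * β)) β := by
    intro β _
    have h3 : HasDerivAt (fun β : ℝ => k * β) k β := by
      simpa using (hasDerivAt_id β).const_mul k
    have h4 := h3.sin
    have h5 := h3.cos
    have h6 : HasDerivAt (fun β : ℝ => 1 - β) (-1) β := by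
      simpa using (hasDerivAt_id β).const_sub 1
    have h7 := (((h6.mul h4).div_const k).sub (h5.div_const (k ^ 2))).const_mul 2
    refine h7.congr_deriv ?_
    field_simp
    ring
  rw [intervalIntegral.integral_eq_sub_of_hasDerivAt h2
    ((by fun_prop : Continuous fun β : ℝ => 2 * (1 - β) * Real.cos (k * β)).intervalIntegrable _ _)]
  have h8 : Real.cos (k * 1) = 1 - 2 * Real.sin (Real.pi * y) ^ 2 := by
    have : k * 1 = 2 * (Real.pi * y) := by rw [hkdef]; ring
    rw [this, Real.cos_two_mul, Real.cos_sq']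
    ring
  rw [h8]
  simp only [mul_zero, Real.sin_zero, Real.cos_zero, sub_self, zero_mul, zero_div, sub_zero, mul_one]
  rw [hkdef]
  field_simp
  ring

lemma Gy_diff_int (y : ℝ) : Gy y - Gy (y - 1) =
    (∫ t in (0 : ℝ)..1, 2 * (1 - t) * Real.cos (2 * Real.pi * y * t)) +
    ((∫ t in (0 : ℝ)..1, Real.sin (2 * Real.pi * y * t)) -
      (∫ t in (0 : ℝ)..1, Real.sin (2 * Real.pi * (y - 1) * t))) / Real.pi := by
  unfold Gy
  have c1 : Continuous fun t : ℝ => 2 * (1 - t) * Real.cos (2 * Real.pi * y * t) := by fun_prop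
  have c2 : Continuous fun t : ℝ => Real.sin (2 * Real.pi * y * t) := by fun_prop
  have c3 : Continuous fun t : ℝ => Real.sin (2 * Real.pi * (y - 1) * t) := by fun_prop
  have c4 : Continuous fun t : ℝ =>
      (Real.sin (2 * Real.pi * y * t) - Real.sin (2 * Real.pi * (y - 1) * t)) / Real.pi := by
    fun_prop
  rw [← intervalIntegral.integral_sub (hh_int y) (hh_int (y - 1)),
    ← intervalIntegral.integral_sub (c2.intervalIntegrable _ _) (c3.intervalIntegrable _ _),
    ← intervalIntegral.integral_div, ← intervalIntegral.integral_add (c1.intervalIntegrable _ _)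
      (c4.intervalIntegrable _ _)]
  apply intervalIntegral.integral_congr_ae
  refine Filter.Eventually.of_forall fun t ht => ?_
  rw [Set.uIoc_of_le zero_le_one] at ht
  exact hh_diff ht.1 ht.2

lemma Gy_diff {y : ℝ} (h0 : y ≠ 0) (h1 : y ≠ 1) : Gy y - Gy (y - 1) =
    -(Real.sin (Real.pi * y) ^ 2 / (Real.pi ^ 2 * y ^ 2 * (y - 1))) := by
  have hpi := Real.pi_pos
  have h1' : y - 1 ≠ 0 := sub_ne_zero.2 h1
  have hs : Real.sin (Real.pi * (y - 1)) ^ 2 = Real.sin (Real.pi * y) ^ 2 := by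
    rw [show Real.pi * (y - 1) = Real.pi * y - Real.pi by ring, Real.sin_sub_pi]
    ring
  rw [Gy_diff_int, int_fejer h0, int_sin_y h0, int_sin_y h1', hs]
  field_simp
  ring

lemma Gy_zero : Gy 0 = 1 / 2 := by
  have hpi := Real.pi_pos
  have h1 : Gy 0 = ∫ t in (0 : ℝ)..1, (1 - t) := by
    unfold Gy
    apply intervalIntegral.integral_congr_ae
    refine Filter.Eventually.of_forall fun t ht => ?_
    rw [Set.uIoc_of_le zero_le_one] at ht
    have hP := Pf_pos ht.1.le ht.2
    have hne : Real.pi * t * Pf t ≠ 0 := by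
      have := ht.1
      positivity
    apply mul_right_cancel₀ hne
    rw [hh_eq ht.1 ht.2]
    have h3 := sin_Pf t
    simp only [mul_zero, zero_add, zero_mul, Real.sin_zero, add_zero, mul_one]
    rw [h3]
    ring
  rw [h1, intervalIntegral.integral_sub (by simp) (by simp)]
  simp
  norm_num

lemma Gy_one : Gy 1 = 1 / 2 := by
  have hpi := Real.pi_pos
  have h1 := Gy_diff_int 1
  have h2 : ∫ t in (0 : ℝ)..1, Real.sin (2 * Real.pi * (1 - 1) * t) = 0 := by simp
  rw [sub_self, Gy_zero, int_fejer one_ne_zero, int_sin_y one_ne_zero] at h1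
  have h3 : ∫ t in (0 : ℝ)..1, Real.sin (2 * Real.pi * 0 * t) = 0 := by simp
  rw [h3] at h1
  simp at h1
  linarith

lemma Gy_neg_one : Gy (-1) = -(1 / 2) := by
  have hpi := Real.pi_pos
  have h1 := Gy_diff_int 0
  rw [Gy_zero] at h1
  have h3 : ∫ t in (0 : ℝ)..1, Real.sin (2 * Real.pi * 0 * t) = 0 := by simp
  have h4 : ∫ t in (0 : ℝ)..1, Real.sin (2 * Real.pi * (0 - 1) * t) = 0 := by
    rw [int_sin_y (by norm_num)]
    simp
  have h5 : ∫ t in (0 : ℝ)..1, 2 * (1 - t) * Real.cos (2 * Real.pi * 0 * t) = 1 := by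
    simp only [mul_zero, zero_mul, Real.cos_zero, mul_one]
    rw [intervalIntegral.integral_const_mul, intervalIntegral.integral_sub (by simp) (by simp)]
    simp
    norm_num
  rw [h3, h4, h5, zero_sub] at h1
  simp at h1
  linarith

lemma sin_pi_int_sq (n : ℤ) : Real.sin (Real.pi * n) = 0 := by
  rw [mul_comm]
  exact Real.sin_int_mul_pi n

lemma Gy_nat (n : ℕ) : Gy n = 1 / 2 := by
  induction n with
  | zero => simpa using Gy_zero
  | succ m ih =>
    rcases Nat.eq_zero_or_pos m with h | h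
    · subst h
      simpa using Gy_one
    · have hm : (1 : ℝ) ≤ m := by exact_mod_cast h
      have h1 := Gy_diff (y := ((m + 1 : ℕ) : ℝ)) (by push_cast; linarith) (by push_cast; linarith)
      have h2 : Real.sin (Real.pi * ((m + 1 : ℕ) : ℝ)) = 0 := by
        have := sin_pi_int_sq ((m + 1 : ℕ) : ℤ)
        exact_mod_cast this
      rw [h2] at h1
      have h3 : ((m + 1 : ℕ) : ℝ) - 1 = m := by push_cast; ring
      rw [h3, ih] at h1
      simp at h1
      push_cast at h1 ⊢
      linarith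

lemma Gy_neg_nat (n : ℕ) : Gy (-((n : ℝ) + 1)) = -(1 / 2) := by
  induction n with
  | zero => simpa using Gy_neg_one
  | succ m ih =>
    have hm : (0 : ℝ) ≤ m := Nat.cast_nonneg m
    have h1 := Gy_diff (y := -((m : ℝ) + 1)) (by linarith) (by linarith)
    have h2 : Real.sin (Real.pi * (-((m : ℝ) + 1))) = 0 := by
      have := sin_pi_int_sq (-((m : ℤ) + 1))
      push_cast at this
      exact this
    rw [h2, ih] at h1
    have h3 : -((m : ℝ) + 1) - 1 = -(((m + 1 : ℕ) : ℝ) + 1) := by push_cast; ring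
    rw [h3] at h1
    have h4 : -(1 / 2) - Gy (-(((m + 1 : ℕ) : ℝ) + 1)) = 0 := by
      rw [h1]; norm_num
    linarith

/-! ### The limit -/

lemma RL {g : ℝ → ℝ} (hg : ContinuousOn g (Set.uIcc 0 1)) (b : ℝ) :
    Tendsto (fun w : ℝ => ∫ t in (0 : ℝ)..1, Real.cos (2 * Real.pi * w * t + b * t) * g t)
      (cocompact ℝ) (𝓝 0) := by
  set f : ℝ → ℂ := (Set.Ioc (0 : ℝ) 1).indicator fun t => cexp (-((b * t : ℝ) : ℂ) * I) * (g t : ℂ)
    with hf
  have h1 := Real.tendsto_integral_exp_smul_cocompact f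
  have h2 : Tendsto (fun w : ℝ => (∫ v : ℝ, 𝐞 (-(v * w)) • f v).re) (cocompact ℝ) (𝓝 (0 : ℂ).re) :=
    (Complex.continuous_re.tendsto 0).comp h1
  rw [Complex.zero_re] at h2
  refine h2.congr fun w => ?_
  have h3 : ∀ v : ℝ, 𝐞 (-(v * w)) • f v = (Set.Ioc (0 : ℝ) 1).indicator
      (fun t => cexp (-((2 * Real.pi * w * t + b * t : ℝ) : ℂ) * I) * (g t : ℂ)) v := by
    intro v
    by_cases hv : v ∈ Set.Ioc (0 : ℝ) 1
    · rw [hf, Set.indicator_of_mem hv, Set.indicator_of_mem hv, Circle.smul_def,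
        Real.fourierChar_apply, smul_eq_mul, ← mul_assoc, ← Complex.exp_add]
      congr 2
      push_cast
      ring
    · rw [hf, Set.indicator_of_notMem hv, Set.indicator_of_notMem hv, smul_zero]
  simp_rw [h3]
  rw [integral_indicator measurableSet_Ioc, ← intervalIntegral.integral_of_le zero_le_one]
  have h4 : ∀ t : ℝ, cexp (-((2 * Real.pi * w * t + b * t : ℝ) : ℂ) * I) * (g t : ℂ) =
      ((Real.cos (2 * Real.pi * w * t + b * t) * g t : ℝ) : ℂ) +
      ((-(Real.sin (2 * Real.pi * w * t + b * t) * g t) : ℝ) : ℂ) * I := by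
    intro t
    rw [← Complex.ofReal_neg, Complex.exp_mul_I, ← Complex.ofReal_cos, ← Complex.ofReal_sin,
      Real.cos_neg, Real.sin_neg]
    push_cast
    ring
  have c1 : ContinuousOn (fun t => Real.cos (2 * Real.pi * w * t + b * t) * g t)
      (Set.uIcc 0 1) := ContinuousOn.mul (by fun_prop) hg
  have c2 : ContinuousOn (fun t => -(Real.sin (2 * Real.pi * w * t + b * t) * g t))
      (Set.uIcc 0 1) := (ContinuousOn.mul (by fun_prop) hg).neg
  have i1 : IntervalIntegrable (fun t => ((Real.cos (2 * Real.pi * w * t + b * t) * g t : ℝ) : ℂ))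
      volume 0 1 := (Complex.continuous_ofReal.comp_continuousOn c1).intervalIntegrable
  have i2 : IntervalIntegrable (fun t => ((-(Real.sin (2 * Real.pi * w * t + b * t) * g t) : ℝ) : ℂ))
      volume 0 1 := (Complex.continuous_ofReal.comp_continuousOn c2).intervalIntegrable
  simp_rw [h4]
  rw [intervalIntegral.integral_add i1 (i2.mul_const _),
    intervalIntegral.integral_mul_const, intervalIntegral.integral_ofReal,
    intervalIntegral.integral_ofReal]
  simp

lemma hh_shift {y h t : ℝ} (h0 : 0 < t) (h1 : t ≤ 1) : hh (y + h) t - hh y t =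
    Real.cos (2 * Real.pi * y * t + Real.pi * (h + 1) * t) *
      (2 * h * Real.sinc (Real.pi * h * t) / Pf t) +
    Real.cos (2 * Real.pi * y * t + Real.pi * h * t) * (2 * Real.sin (Real.pi * h * t) / Real.pi) := by
  have hP := Pf_pos h0.le h1
  have hpi := Real.pi_pos
  have hne : Real.pi * t * Pf t ≠ 0 := by positivity
  apply mul_right_cancel₀ hne
  rw [sub_mul, hh_eq h0 h1, hh_eq h0 h1]
  have h2 := mul_sinc (Real.pi * h * t)
  have e : (Real.cos (2 * Real.pi * y * t + Real.pi * (h + 1) * t) *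
      (2 * h * Real.sinc (Real.pi * h * t) / Pf t) +
    Real.cos (2 * Real.pi * y * t + Real.pi * h * t) *
      (2 * Real.sin (Real.pi * h * t) / Real.pi)) * (Real.pi * t * Pf t) =
    2 * Real.cos (2 * Real.pi * y * t + Real.pi * (h + 1) * t) *
      (Real.pi * h * t * Real.sinc (Real.pi * h * t)) +
    t * Pf t * (2 * Real.cos (2 * Real.pi * y * t + Real.pi * h * t) *
      Real.sin (Real.pi * h * t)) := by
    field_simp
  rw [e, h2]
  have h3 : Real.sin (Real.pi * (2 * (y + h) + 1) * t) - Real.sin (Real.pi * (2 * y + 1) * t) =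
      2 * Real.cos (2 * Real.pi * y * t + Real.pi * (h + 1) * t) * Real.sin (Real.pi * h * t) := by
    rw [show Real.pi * (2 * (y + h) + 1) * t = (2 * Real.pi * y * t + Real.pi * (h + 1) * t) +
      Real.pi * h * t by ring,
      show Real.pi * (2 * y + 1) * t = (2 * Real.pi * y * t + Real.pi * (h + 1) * t) -
      Real.pi * h * t by ring, Real.sin_add, Real.sin_sub]
    ring
  have h4 : Real.sin (2 * Real.pi * (y + h) * t) - Real.sin (2 * Real.pi * y * t) =
      2 * Real.cos (2 * Real.pi * y * t + Real.pi * h * t) * Real.sin (Real.pi * h * t) := by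
    rw [show 2 * Real.pi * (y + h) * t = (2 * Real.pi * y * t + Real.pi * h * t) +
      Real.pi * h * t by ring,
      show 2 * Real.pi * y * t = (2 * Real.pi * y * t + Real.pi * h * t) -
      Real.pi * h * t by ring, Real.sin_add, Real.sin_sub,
      show (2 * Real.pi * y * t + Real.pi * h * t) - Real.pi * h * t + Real.pi * h * t =
        2 * Real.pi * y * t + Real.pi * h * t by ring]
    ring
  linear_combination h3 + t * Pf t * h4

lemma Gy_shift (y h : ℝ) : Gy (y + h) - Gy y =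
    (∫ t in (0 : ℝ)..1, Real.cos (2 * Real.pi * y * t + Real.pi * (h + 1) * t) *
      (2 * h * Real.sinc (Real.pi * h * t) / Pf t)) +
    ∫ t in (0 : ℝ)..1, Real.cos (2 * Real.pi * y * t + Real.pi * h * t) *
      (2 * Real.sin (Real.pi * h * t) / Real.pi) := by
  have hs := Real.continuous_sinc
  unfold Gy
  rw [← intervalIntegral.integral_sub (hh_int _) (hh_int _), ← intervalIntegral.integral_add]
  · apply intervalIntegral.integral_congr_ae
    refine Filter.Eventually.of_forall fun t ht => ?_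
    rw [Set.uIoc_of_le zero_le_one] at ht
    exact hh_shift ht.1 ht.2
  · apply ContinuousOn.intervalIntegrable
    apply ContinuousOn.mul (by fun_prop)
    apply ContinuousOn.div (by fun_prop) Pf_cont.continuousOn
    intro t ht
    rw [Set.uIcc_of_le zero_le_one] at ht
    exact (Pf_pos ht.1 ht.2).ne'
  · exact (by fun_prop : Continuous fun t : ℝ => Real.cos (2 * Real.pi * y * t + Real.pi * h * t) *
      (2 * Real.sin (Real.pi * h * t) / Real.pi)).intervalIntegrable _ _

lemma Gy_shift_lim (h : ℝ) : Tendsto (fun y : ℝ => Gy (y + h) - Gy y) (cocompact ℝ) (𝓝 0) := by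
  have hs := Real.continuous_sinc
  simp_rw [Gy_shift]
  have h0 : (𝓝 (0 : ℝ)) = 𝓝 (0 + 0) := by rw [add_zero]
  rw [h0]
  apply Tendsto.add
  · apply RL
    apply ContinuousOn.div (by fun_prop) Pf_cont.continuousOn
    intro t ht
    rw [Set.uIcc_of_le zero_le_one] at ht
    exact (Pf_pos ht.1 ht.2).ne'
  · apply RL
    fun_prop

lemma Gy_lim_pos (y : ℝ) : Tendsto (fun n : ℕ => Gy (n + y)) atTop (𝓝 (1 / 2)) := by
  have h1 : Tendsto (fun n : ℕ => Gy ((n : ℝ) + y) - Gy (n : ℝ)) atTop (𝓝 0) :=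
    (Gy_shift_lim y).comp (tendsto_natCast_atTop_atTop.mono_right atTop_le_cocompact)
  have h2 := h1.add_const (1 / 2)
  rw [zero_add] at h2
  refine h2.congr fun n => ?_
  rw [Gy_nat]; ring

lemma Gy_lim_neg (y : ℝ) : Tendsto (fun n : ℕ => Gy (y - n)) atTop (𝓝 (-(1 / 2))) := by
  have h0 : Tendsto (fun n : ℕ => -((n : ℝ) + 1)) atTop (cocompact ℝ) :=
    (tendsto_neg_atTop_atBot.comp
      (tendsto_natCast_atTop_atTop.atTop_add tendsto_const_nhds)).mono_right atBot_le_cocompact
  have h1 : Tendsto (fun n : ℕ => Gy (-((n : ℝ) + 1) + (y + 1)) - Gy (-((n : ℝ) + 1))) atTop (𝓝 0) :=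
    (Gy_shift_lim (y + 1)).comp h0
  have h2 := h1.add_const (-(1 / 2))
  rw [zero_add] at h2
  refine h2.congr fun n => ?_
  rw [Gy_neg_nat, show -((n : ℝ) + 1) + (y + 1) = y - n by ring]; ring

lemma sin_sq_le (x : ℝ) : Real.sin x ^ 2 ≤ 1 := by
  rw [sq_le_one_iff_abs_le_one]; exact Real.abs_sin_le_one x

lemma step_pos {a : ℝ} (ha : 0 < a) : Gy (a + 1) ≤ Gy a ∧
    Gy a ≤ Gy (a + 1) + 1 / (Real.pi ^ 2 * (a + 1) ^ 2 * a) := by
  have hpi := Real.pi_pos
  have h1 := Gy_diff (y := a + 1) (by linarith) (by linarith)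
  rw [show a + 1 - 1 = a by ring] at h1
  have h2 : 0 ≤ Real.sin (Real.pi * (a + 1)) ^ 2 / (Real.pi ^ 2 * (a + 1) ^ 2 * a) := by positivity
  have h3 : Real.sin (Real.pi * (a + 1)) ^ 2 / (Real.pi ^ 2 * (a + 1) ^ 2 * a) ≤
      1 / (Real.pi ^ 2 * (a + 1) ^ 2 * a) := by
    gcongr
    exact sin_sq_le _
  constructor <;> linarith

lemma step_neg {a : ℝ} (ha : 0 < a) : Gy (-a - 1) ≤ Gy (-a) ∧
    Gy (-a) ≤ Gy (-a - 1) + 1 / (Real.pi ^ 2 * a ^ 2 * (a + 1)) := by
  have hpi := Real.pi_pos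
  have h1 := Gy_diff (y := -a) (by linarith) (by linarith)
  have e : -(Real.sin (Real.pi * -a) ^ 2 / (Real.pi ^ 2 * (-a) ^ 2 * (-a - 1))) =
      Real.sin (Real.pi * a) ^ 2 / (Real.pi ^ 2 * a ^ 2 * (a + 1)) := by
    rw [mul_neg, Real.sin_neg, neg_sq, neg_sq, show -a - 1 = -(a + 1) by ring, mul_neg, div_neg,
      neg_neg]
  rw [e] at h1
  have h2 : 0 ≤ Real.sin (Real.pi * a) ^ 2 / (Real.pi ^ 2 * a ^ 2 * (a + 1)) := by positivity
  have h3 : Real.sin (Real.pi * a) ^ 2 / (Real.pi ^ 2 * a ^ 2 * (a + 1)) ≤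
      1 / (Real.pi ^ 2 * a ^ 2 * (a + 1)) := by
    gcongr
    exact sin_sq_le _
  constructor <;> linarith

lemma Gy_ge_pos {y : ℝ} (hy : 0 < y) : 1 / 2 ≤ Gy y := by
  have hanti : Antitone fun n : ℕ => Gy (n + y) := antitone_nat_of_succ_le fun n => by
    have hn : (0 : ℝ) ≤ n := Nat.cast_nonneg n
    have := (step_pos (a := (n : ℝ) + y) (by linarith)).1
    rw [show (((n + 1 : ℕ) : ℝ)) + y = (n : ℝ) + y + 1 by push_cast; ring]
    exact this
  have := hanti.le_of_tendsto (Gy_lim_pos y) 0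
  simpa using this

lemma Gy_ge_neg {y : ℝ} (hy : y < 0) : -(1 / 2) ≤ Gy y := by
  have hanti : Antitone fun n : ℕ => Gy (y - n) := antitone_nat_of_succ_le fun n => by
    have hn : (0 : ℝ) ≤ n := Nat.cast_nonneg n
    have := (step_neg (a := (n : ℝ) - y) (by linarith)).1
    rw [show y - ((n + 1 : ℕ) : ℝ) = -((n : ℝ) - y) - 1 by push_cast; ring,
      show y - (n : ℝ) = -((n : ℝ) - y) by ring]
    exact this
  have := hanti.le_of_tendsto (Gy_lim_neg y) 0
  simpa using this

lemma inv_lim (y : ℝ) (c : ℝ) : Tendsto (fun n : ℕ => c / ((n : ℝ) + y)) atTop (𝓝 0) := by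
  apply Tendsto.div_atTop tendsto_const_nhds
  exact tendsto_natCast_atTop_atTop.atTop_add tendsto_const_nhds

lemma Gy_le_pos {y : ℝ} (hy : 0 < y) : Gy y ≤ 1 / 2 + 1 / (Real.pi ^ 2 * y ^ 2) := by
  have hpi := Real.pi_pos
  have hmono : Monotone fun n : ℕ => Gy (n + y) - 1 / (Real.pi ^ 2 * y) / ((n : ℝ) + y) :=
    monotone_nat_of_le_succ fun n => by
      have hn : (0 : ℝ) ≤ n := Nat.cast_nonneg n
      set a := (n : ℝ) + y with ha
      have ha0 : 0 < a := by positivity
      have hya : y ≤ a := by linarith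
      have h1 := (step_pos (a := a) ha0).2
      rw [show (((n + 1 : ℕ) : ℝ)) + y = a + 1 by rw [ha]; push_cast; ring]
      have h2 : 1 / (Real.pi ^ 2 * (a + 1) ^ 2 * a) ≤
          1 / (Real.pi ^ 2 * y) / a - 1 / (Real.pi ^ 2 * y) / (a + 1) := by
        have e : 1 / (Real.pi ^ 2 * y) / a - 1 / (Real.pi ^ 2 * y) / (a + 1) =
            1 / (Real.pi ^ 2 * y * a * (a + 1)) := by
          field_simp
          ring
        rw [e]
        apply one_div_le_one_div_of_le (by positivity)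
        calc Real.pi ^ 2 * y * a * (a + 1) ≤ Real.pi ^ 2 * (a + 1) * a * (a + 1) := by
              gcongr; linarith
          _ = _ := by ring
      show Gy a - 1 / (Real.pi ^ 2 * y) / a ≤ Gy (a + 1) - 1 / (Real.pi ^ 2 * y) / (a + 1)
      linarith
  have hl : Tendsto (fun n : ℕ => Gy (n + y) - 1 / (Real.pi ^ 2 * y) / ((n : ℝ) + y)) atTop
      (𝓝 (1 / 2 - 0)) := (Gy_lim_pos y).sub (inv_lim y _)
  have h3 := hmono.ge_of_tendsto hl 0
  have h4 : 1 / (Real.pi ^ 2 * y) / y = 1 / (Real.pi ^ 2 * y ^ 2) := by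
    field_simp
  simp only [Nat.cast_zero, zero_add, sub_zero] at h3
  rw [h4] at h3
  linarith

lemma Gy_le_neg {y : ℝ} (hy : y < 0) : Gy y ≤ -(1 / 2) + 1 / (Real.pi ^ 2 * y ^ 2) := by
  have hpi := Real.pi_pos
  set b := -y with hb
  have hb0 : 0 < b := by linarith
  have hmono : Monotone fun n : ℕ => Gy (y - n) - 1 / (Real.pi ^ 2 * b) / ((n : ℝ) + b) :=
    monotone_nat_of_le_succ fun n => by
      have hn : (0 : ℝ) ≤ n := Nat.cast_nonneg n
      set a := (n : ℝ) + b with ha
      have ha0 : 0 < a := by positivity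
      have h1 := (step_neg (a := a) ha0).2
      rw [show y - ((n + 1 : ℕ) : ℝ) = -a - 1 by rw [ha, hb]; push_cast; ring,
        show y - (n : ℝ) = -a by rw [ha, hb]; ring,
        show ((n + 1 : ℕ) : ℝ) + b = a + 1 by rw [ha]; push_cast; ring]
      have h2 : 1 / (Real.pi ^ 2 * a ^ 2 * (a + 1)) ≤
          1 / (Real.pi ^ 2 * b) / a - 1 / (Real.pi ^ 2 * b) / (a + 1) := by
        have e : 1 / (Real.pi ^ 2 * b) / a - 1 / (Real.pi ^ 2 * b) / (a + 1) =
            1 / (Real.pi ^ 2 * b * a * (a + 1)) := by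
          field_simp
          ring
        rw [e]
        apply one_div_le_one_div_of_le (by positivity)
        calc Real.pi ^ 2 * b * a * (a + 1) ≤ Real.pi ^ 2 * a * a * (a + 1) := by
              gcongr; linarith
          _ = _ := by ring
      linarith
  have hl : Tendsto (fun n : ℕ => Gy (y - n) - 1 / (Real.pi ^ 2 * b) / ((n : ℝ) + b)) atTop
      (𝓝 (-(1 / 2) - 0)) := (Gy_lim_neg y).sub (inv_lim b _)
  have h3 := hmono.ge_of_tendsto hl 0
  have h4 : 1 / (Real.pi ^ 2 * b) / b = 1 / (Real.pi ^ 2 * y ^ 2) := by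
    rw [hb]
    field_simp
  simp only [Nat.cast_zero, zero_add, sub_zero] at h3
  rw [h4] at h3
  linarith

lemma Gy_ge (y : ℝ) : -(1 / 2) ≤ Gy y := by
  rcases lt_trichotomy y 0 with h | h | h
  · exact Gy_ge_neg h
  · rw [h, Gy_zero]; norm_num
  · have := Gy_ge_pos h
    linarith

lemma Gy_ge' {y : ℝ} (hy : 0 ≤ y) : 1 / 2 ≤ Gy y := by
  rcases hy.eq_or_lt with h | h
  · rw [← h, Gy_zero]
  · exact Gy_ge_pos h

end Pool.Agent.W2helper69.BS
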