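import Pool.Agent.W2helper69.PS.Qc
import Pool.Agent.H345R2.A2.Four

/-! The pair sum at distance `u` against a test function: reduction to the correlation sums. -/

set_option autoImplicit false

open Complex Filter Topology Set MeasureTheory
open scoped BigOperators ComplexConjugate

namespace Pool.Agent.W2helper69.PS

open H370 H370.A2

lemma RR_half {ψ : ℝ → ℝ} (hψ : Continuous ψ) (μ y : ℝ) :
    RR ψ μ y = ∫ α in (0 : ℝ)..μ, 2 * (evp ψ α * Real.cos (2 * Real.pi * α * y)) := by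
  unfold RR
  have hc : Continuous fun α : ℝ => Real.cos (2 * Real.pi * α * y) := by fun_prop
  have hce : ∀ x : ℝ, Real.cos (2 * Real.pi * -x * y) = Real.cos (2 * Real.pi * x * y) := by
    intro x
    have : 2 * Real.pi * (-x) * y = -(2 * Real.pi * x * y) := by ring
    rw [this, Real.cos_neg]
  rw [evp_int hψ hc hce, int_sym (fun α => evp ψ α * Real.cos (2 * Real.pi * α * y))
    ((evp_cont hψ).mul hc) μ]
  refine intervalIntegral.integral_congr fun α _ => ?_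
  simp only [hce, evp_even]
  ring

/-- the pair sum at distance `u`, with Gaussian weight -/
noncomputable def SG (F : ℂ → ℂ) (ψ : ℝ → ℝ) (μ Λ T t1 t2 u : ℝ) : ℝ :=
  ∑ s ∈ Zf F t1 t2, ∑ s' ∈ Zf F (T + 1) (16 * T - 1), (mult F s : ℝ) * (mult F s' : ℝ) *
    (RR ψ μ ((s'.im - s.im - u) * Λ / (2 * Real.pi)) * Real.exp (-(s'.im - s.im - u) ^ 2 / 4))

lemma cc_re (F : ℂ → ℂ) (A B A' B' x u : ℝ) : (cc F A B A' B' x u).re =
    ∑ s ∈ Zf F A B, ∑ s' ∈ Zf F A' B', (mult F s : ℝ) * (mult F s' : ℝ) *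
      (Real.cos (x * (s'.im - s.im - u)) * Real.exp (-(s'.im - s.im - u) ^ 2 / 4)) := by
  unfold cc
  rw [Complex.re_sum]
  refine Finset.sum_congr rfl fun s _ => ?_
  rw [Complex.re_sum]
  refine Finset.sum_congr rfl fun s' _ => ?_
  have e2 : (mult F s : ℂ) * (mult F s' : ℂ) =
      (((mult F s : ℝ) * (mult F s' : ℝ) : ℝ) : ℂ) := by push_cast; ring
  rw [e2, Complex.re_ofReal_mul, exp_re_aux]

lemma SG_eq (F : ℂ → ℂ) {ψ : ℝ → ℝ} (hψ : Continuous ψ) (μ Λ T t1 t2 u : ℝ) :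
    SG F ψ μ Λ T t1 t2 u =
      ∫ α in (0 : ℝ)..μ, 2 * (evp ψ α * (cc F t1 t2 (T + 1) (16 * T - 1) (α * Λ) u).re) := by
  simp_rw [cc_re, Finset.mul_sum]
  have hev : Continuous (evp ψ) := evp_cont hψ
  have hc : ∀ s s' : ℂ, Continuous fun α : ℝ => 2 * (evp ψ α * ((mult F s : ℝ) * (mult F s' : ℝ) *
      (Real.cos (α * Λ * (s'.im - s.im - u)) * Real.exp (-(s'.im - s.im - u) ^ 2 / 4)))) := by
    intro s s'
    fun_prop
  rw [intervalIntegral.integral_finsetSum]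
  swap
  · intro s _
    exact (continuous_finsetSum _ fun s' _ => hc s s').intervalIntegrable _ _
  unfold SG
  refine Finset.sum_congr rfl fun s _ => ?_
  rw [intervalIntegral.integral_finsetSum]
  swap
  · intro s' _
    exact (hc s s').intervalIntegrable _ _
  refine Finset.sum_congr rfl fun s' _ => ?_
  rw [RR_half hψ, ← intervalIntegral.integral_mul_const, ← intervalIntegral.integral_const_mul]
  refine intervalIntegral.integral_congr fun α _ => ?_
  have e : 2 * Real.pi * α * ((s'.im - s.im - u) * Λ / (2 * Real.pi)) =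
      α * Λ * (s'.im - s.im - u) := by
    have := Real.pi_pos
    field_simp
  show _ * (2 * (evp ψ α * Real.cos (2 * Real.pi * α * ((s'.im - s.im - u) * Λ / (2 * Real.pi)))) *
    _) = _
  rw [e]
  ring

lemma cc_Qf (F : ℂ → ℂ) (T t1 t2 x u : ℝ) :
    |Real.sqrt Real.pi * (cc F t1 t2 (T + 1) (16 * T - 1) x u).re -
      Real.log T * NN F t1 t2 * Real.exp (-x ^ 2)| ≤ ‖Qf F T t1 t2 x u‖ := by
  have h1 : (Real.sqrt Real.pi : ℂ) * cc F t1 t2 (T + 1) (16 * T - 1) x u -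
      ((Real.log T * NN F t1 t2 * Real.exp (-x ^ 2) : ℝ) : ℂ) =
      cexp (-(I * x * u)) * Qf F T t1 t2 x u := by
    unfold Qf
    have h2 : cexp (-(I * x * u)) * cexp (I * x * u) = 1 := by
      rw [← Complex.exp_add, neg_add_cancel, Complex.exp_zero]
    linear_combination (-(Real.sqrt Real.pi : ℂ) * cc F t1 t2 (T + 1) (16 * T - 1) x u +
      ((Real.log T * NN F t1 t2 * Real.exp (-x ^ 2) : ℝ) : ℂ)) * h2
  have h3 : ‖cexp (-(I * x * u)) * Qf F T t1 t2 x u‖ = ‖Qf F T t1 t2 x u‖ := by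
    rw [norm_mul, Complex.norm_exp]
    have : (-(I * (x : ℂ) * (u : ℂ))).re = 0 := by simp
    rw [this, Real.exp_zero, one_mul]
  rw [← h3, ← h1]
  have h4 : Real.sqrt Real.pi * (cc F t1 t2 (T + 1) (16 * T - 1) x u).re -
      Real.log T * NN F t1 t2 * Real.exp (-x ^ 2) =
      ((Real.sqrt Real.pi : ℂ) * cc F t1 t2 (T + 1) (16 * T - 1) x u -
      ((Real.log T * NN F t1 t2 * Real.exp (-x ^ 2) : ℝ) : ℂ)).re := by
    rw [Complex.sub_re, Complex.re_ofReal_mul, Complex.ofReal_re]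
  rw [h4]
  exact Complex.abs_re_le_norm _

/-! ### The main term -/

lemma evp_abs_le {ψ : ℝ → ℝ} {M : ℝ} (hM : ∀ x, |ψ x| ≤ M) (x : ℝ) : |evp ψ x| ≤ M := by
  unfold evp
  rw [abs_div, abs_two]
  have := abs_add_le (ψ x) (ψ (-x))
  have h1 := hM x
  have h2 := hM (-x)
  rw [div_le_iff₀ (by norm_num)]
  linarith

lemma cont_dev {ψ : ℝ → ℝ} {M : ℝ} (hψ : Continuous ψ) (hM : ∀ x, |ψ x| ≤ M) (e : ℝ) (he : 0 < e) :
    ∃ K : ℝ, 0 ≤ K ∧ ∀ x, |evp ψ x - ψ 0| ≤ e + K * |x| := by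
  have hM0 : 0 ≤ M := (abs_nonneg _).trans (hM 0)
  have hev := evp_cont hψ
  have h0 : evp ψ 0 = ψ 0 := by unfold evp; simp
  obtain ⟨ρ, hρ, h⟩ := Metric.continuous_iff.1 hev 0 e he
  refine ⟨2 * M / ρ, by positivity, fun x => ?_⟩
  rcases lt_or_ge |x| ρ with hx | hx
  · have h1 := h x (by rw [Real.dist_eq, sub_zero]; exact hx)
    rw [Real.dist_eq, h0] at h1
    have : 0 ≤ 2 * M / ρ * |x| := by positivity
    linarith
  · have h1 : |evp ψ x - ψ 0| ≤ 2 * M := by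
      have h2 := abs_sub_le_add (evp ψ x) (ψ 0)
      have h3 := evp_abs_le hM x
      have h4 := hM 0
      linarith
    have h2 : 2 * M ≤ 2 * M / ρ * |x| := by
      rw [div_mul_eq_mul_div, le_div_iff₀ hρ]
      gcongr
    linarith

lemma gauss_main {ψ : ℝ → ℝ} {K μ e : ℝ} (hψ : Continuous ψ) (hK : 0 ≤ K)
    (hlip : ∀ x, |evp ψ x - ψ 0| ≤ e + K * |x|) (hz : ∀ x, μ ≤ |x| → ψ x = 0) (hμ : 0 < μ)
    {Λ : ℝ} (hΛ : 0 < Λ) :
    |(∫ α in (0 : ℝ)..μ, evp ψ α * Real.exp (-(α * Λ) ^ 2)) -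
      ψ 0 * (Real.sqrt Real.pi / (2 * Λ))| ≤ e * (Real.sqrt Real.pi / (2 * Λ)) + 2 * K / Λ ^ 2 := by
  have hev := evp_cont hψ
  -- extend to the half line
  have h1 : ∫ α in (0 : ℝ)..μ, evp ψ α * Real.exp (-(α * Λ) ^ 2) =
      ∫ α in Set.Ioi (0 : ℝ), evp ψ α * Real.exp (-(α * Λ) ^ 2) := by
    rw [intervalIntegral.integral_of_le hμ.le]
    symm
    apply setIntegral_eq_of_subset_of_forall_sdiff_eq_zero measurableSet_Ioi
      (Set.Ioc_subset_Ioi_self)
    intro x hx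
    have h2 : μ ≤ |x| := by
      have h3 : 0 < x := hx.1
      rw [abs_of_pos h3]
      by_contra hcon
      push Not at hcon
      exact hx.2 ⟨h3, hcon.le⟩
    rw [evp_zero hz h2, zero_mul]
  have hg : ∀ α : ℝ, Real.exp (-(α * Λ) ^ 2) = Real.exp (-(Λ ^ 2) * α ^ 2) := by
    intro α; congr 1; ring
  have hgi : IntegrableOn (fun α : ℝ => Real.exp (-(Λ ^ 2) * α ^ 2)) (Set.Ioi 0) :=
    (integrable_exp_neg_mul_sq (by positivity)).integrableOn
  have h2 : ∫ α in Set.Ioi (0 : ℝ), Real.exp (-(Λ ^ 2) * α ^ 2) = Real.sqrt Real.pi / (2 * Λ) := by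
    rw [integral_gaussian_Ioi, Real.sqrt_div' _ (by positivity), Real.sqrt_sq hΛ.le]
    field_simp
  have hfi : IntegrableOn (fun α : ℝ => evp ψ α * Real.exp (-(Λ ^ 2) * α ^ 2)) (Set.Ioi 0) := by
    have h3 : Integrable fun α : ℝ => evp ψ α * Real.exp (-(Λ ^ 2) * α ^ 2) := by
      apply Continuous.integrable_of_hasCompactSupport (by fun_prop)
      apply HasCompactSupport.intro (isCompact_Icc (a := -μ) (b := μ))
      intro x hx
      have : μ ≤ |x| := by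
        by_contra h
        push Not at h
        obtain ⟨h3, h4⟩ := abs_lt.1 h
        exact hx ⟨h3.le, h4.le⟩
      rw [evp_zero hz this, zero_mul]
    exact h3.integrableOn
  rw [h1]
  simp_rw [hg]
  rw [← h2, ← integral_const_mul, ← integral_const_mul, ← integral_sub hfi (hgi.const_mul _)]
  have h4 : ∀ α ∈ Set.Ioi (0 : ℝ), ‖evp ψ α * Real.exp (-(Λ ^ 2) * α ^ 2) -
      ψ 0 * Real.exp (-(Λ ^ 2) * α ^ 2)‖ ≤ e * Real.exp (-(Λ ^ 2) * α ^ 2) +
        K / Λ * Real.exp (-(Λ ^ 2 / 2) * α ^ 2) := by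
    intro α hα
    have hα0 : 0 < α := hα
    rw [← sub_mul, norm_mul, Real.norm_eq_abs, Real.norm_of_nonneg (Real.exp_pos _).le]
    have h5 := hlip α
    rw [abs_of_pos hα0] at h5
    have h6 : Real.exp (-(Λ ^ 2) * α ^ 2) = Real.exp (-(Λ ^ 2 / 2) * α ^ 2) *
        Real.exp (-(Λ * α) ^ 2 / 2) := by
      rw [← Real.exp_add]; congr 1; ring
    have h7 : Λ * α * Real.exp (-(Λ * α) ^ 2 / 2) ≤ 1 := by
      have h8 : Real.exp (-(Λ * α) ^ 2 / 2) = (Real.exp ((Λ * α) ^ 2 / 2))⁻¹ := by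
        rw [← Real.exp_neg]; congr 1; ring
      rw [h8, ← div_eq_mul_inv, div_le_one (Real.exp_pos _)]
      have := Real.add_one_le_exp ((Λ * α) ^ 2 / 2)
      nlinarith [sq_nonneg (Λ * α - 1)]
    have h9 : (K * α) * Real.exp (-(Λ ^ 2) * α ^ 2) ≤ K / Λ * Real.exp (-(Λ ^ 2 / 2) * α ^ 2) := by
      calc (K * α) * Real.exp (-(Λ ^ 2) * α ^ 2) =
          K / Λ * Real.exp (-(Λ ^ 2 / 2) * α ^ 2) * (Λ * α * Real.exp (-(Λ * α) ^ 2 / 2)) := by
            rw [h6]; field_simp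
        _ ≤ K / Λ * Real.exp (-(Λ ^ 2 / 2) * α ^ 2) * 1 := by gcongr
        _ = _ := by ring
    calc |evp ψ α - ψ 0| * Real.exp (-(Λ ^ 2) * α ^ 2) ≤
        (e + K * α) * Real.exp (-(Λ ^ 2) * α ^ 2) := by gcongr
      _ = e * Real.exp (-(Λ ^ 2) * α ^ 2) + (K * α) * Real.exp (-(Λ ^ 2) * α ^ 2) := by ring
      _ ≤ _ := by linarith
  have hgi2 : IntegrableOn (fun α : ℝ => Real.exp (-(Λ ^ 2 / 2) * α ^ 2)) (Set.Ioi 0) :=
    (integrable_exp_neg_mul_sq (by positivity)).integrableOn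
  rw [← Real.norm_eq_abs]
  refine (norm_integral_le_integral_norm _).trans ?_
  refine (setIntegral_mono_on (hfi.sub (hgi.const_mul _)).norm
    ((hgi.const_mul _).add (hgi2.const_mul _)) measurableSet_Ioi h4).trans ?_
  simp only [Pi.add_apply]
  rw [integral_add (hgi.const_mul _) (hgi2.const_mul _), integral_const_mul (K / Λ),
    integral_gaussian_Ioi (Λ ^ 2 / 2)]
  have h9 : Real.sqrt (Real.pi / (Λ ^ 2 / 2)) / 2 ≤ 2 / Λ := by
    rw [div_le_iff₀ (by norm_num), Real.sqrt_le_left (by positivity)]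
    have := Real.pi_lt_four
    rw [div_mul_eq_mul_div, div_pow, div_le_div_iff₀ (by positivity) (by positivity)]
    nlinarith [sq_nonneg Λ]
  have h10 : K / Λ * (Real.sqrt (Real.pi / (Λ ^ 2 / 2)) / 2) ≤ 2 * K / Λ ^ 2 := by
    calc K / Λ * (Real.sqrt (Real.pi / (Λ ^ 2 / 2)) / 2) ≤ K / Λ * (2 / Λ) := by gcongr
      _ = _ := by field_simp
  linarith

/-! ### The sum `VV` on average -/

lemma Rf_half_pos : 0 < Rf (1 / 2) := by
  unfold Rf
  have h0 : |(1 / 2 : ℝ)| = 1 / 2 := abs_of_pos (by norm_num)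
  rw [h0, if_pos (by norm_num)]
  have hs2 : Real.sqrt 2 ≤ 1.5 := by
    rw [Real.sqrt_le_left (by norm_num)]; norm_num
  have hs0 : 0 < Real.sqrt 2 := by positivity
  have hpi := Real.pi_gt_three
  have hc : 0 < Real.cos (Real.sqrt 2 * (1 / 2)) :=
    Real.cos_pos_of_mem_Ioo ⟨by nlinarith, by nlinarith⟩
  have hsn : 0 < Real.sin (Real.sqrt 2 * (1 - 1 / 2)) :=
    Real.sin_pos_of_pos_of_lt_pi (by nlinarith) (by nlinarith)
  have hsn2 : 0 < Real.sin (1 / Real.sqrt 2) := by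
    apply Real.sin_pos_of_pos_of_lt_pi (by positivity)
    have h1 : 1 ≤ Real.sqrt 2 := by
      rw [Real.le_sqrt (by norm_num) (by norm_num)]; norm_num
    have : 1 / Real.sqrt 2 ≤ 1 := by rw [div_le_one hs0]; exact h1
    linarith
  apply div_pos _ (by positivity)
  have : 0 < Real.sin (Real.sqrt 2 * (1 - 1 / 2)) / Real.sqrt 2 := div_pos hsn hs0
  have h2 : 0 < (1 - 1 / 2 : ℝ) * Real.cos (Real.sqrt 2 * (1 / 2)) := by positivity
  linarith

lemma VV_int : ∃ C : ℝ, 0 < C ∧ ∀ Λ : ℝ, 1 ≤ Λ → ∫ x in (0 : ℝ)..Λ, VV x ≤ C * Λ ^ 2 := by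
  obtain ⟨C, hC, h⟩ := lam_sq_smooth
  have hR := Rf_half_pos
  set J := ∫ α in (0 : ℝ)..1, α * Rf α with hJ
  have hJ0 : 0 ≤ J := intervalIntegral.integral_nonneg zero_le_one fun α hα =>
    mul_nonneg hα.1 (Rf_nonneg α)
  refine ⟨(4 * Real.sqrt Real.pi * J + 2 * C) / Rf (1 / 2), by positivity, fun Λ hΛ => ?_⟩
  have hΛ0 : 0 < Λ := by linarith
  have h1 := h (2 * Λ) (by linarith)
  have hVc : ContinuousOn VV (Set.Iic (2 * Λ)) := VV_cont (2 * Λ)
  have hint2 : IntervalIntegrable (fun u => Rf (u / (2 * Λ)) * VV u) volume 0 (2 * Λ) := by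
    apply ContinuousOn.intervalIntegrable
    apply (Rf_cont.comp (continuous_id.div_const _)).continuousOn.mul
    apply hVc.mono
    rw [Set.uIcc_of_le (by linarith)]
    exact fun x hx => hx.2
  have hintV : IntervalIntegrable VV volume 0 Λ := by
    apply ContinuousOn.intervalIntegrable
    apply hVc.mono
    rw [Set.uIcc_of_le hΛ0.le]
    intro x hx
    simp only [Set.mem_Iic]
    linarith [hx.2]
  have h2 : Rf (1 / 2) * ∫ x in (0 : ℝ)..Λ, VV x ≤ ∫ u in (0 : ℝ)..(2 * Λ), Rf (u / (2 * Λ)) * VV u := by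
    have hsub : Set.uIcc (0 : ℝ) Λ ⊆ Set.uIcc 0 (2 * Λ) := by
      rw [Set.uIcc_of_le hΛ0.le, Set.uIcc_of_le (by linarith)]
      exact Set.Icc_subset_Icc le_rfl (by linarith)
    rw [← intervalIntegral.integral_const_mul]
    have hi1 : IntervalIntegrable (fun u => Rf (u / (2 * Λ)) * VV u) volume 0 Λ :=
      hint2.mono_set hsub
    have hi2 : IntervalIntegrable (fun u => Rf (u / (2 * Λ)) * VV u) volume Λ (2 * Λ) := by
      apply hint2.mono_set
      rw [Set.uIcc_of_le (by linarith), Set.uIcc_of_le (by linarith)]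
      exact Set.Icc_subset_Icc hΛ0.le le_rfl
    rw [← intervalIntegral.integral_add_adjacent_intervals hi1 hi2]
    have h3 : ∫ u in (0 : ℝ)..Λ, Rf (1 / 2) * VV u ≤ ∫ u in (0 : ℝ)..Λ, Rf (u / (2 * Λ)) * VV u := by
      refine intervalIntegral.integral_mono_on hΛ0.le (hintV.const_mul _) hi1 fun u hu => ?_
      apply mul_le_mul_of_nonneg_right _ (VV_nonneg u)
      apply Rf_antitone (Set.mem_Ici.2 (by have := hu.1; positivity)) (Set.mem_Ici.2 (by norm_num))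
      rw [div_le_iff₀ (by positivity)]
      linarith [hu.2]
    have h4 : 0 ≤ ∫ u in Λ..(2 * Λ), Rf (u / (2 * Λ)) * VV u :=
      intervalIntegral.integral_nonneg (by linarith) fun u _ => mul_nonneg (Rf_nonneg _) (VV_nonneg _)
    linarith
  have h5 : ∫ u in (0 : ℝ)..(2 * Λ), Rf (u / (2 * Λ)) * VV u ≤
      Real.sqrt Real.pi * (2 * Λ) ^ 2 * J + C * (2 * Λ) := h1
  rw [div_mul_eq_mul_div, le_div_iff₀ hR]
  have h6 : C * (2 * Λ) ≤ 2 * C * Λ ^ 2 := by
    have h7 : Λ ≤ Λ ^ 2 := by nlinarith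
    have := mul_le_mul_of_nonneg_left h7 hC.le
    linarith
  calc (∫ x in (0 : ℝ)..Λ, VV x) * Rf (1 / 2) = Rf (1 / 2) * ∫ x in (0 : ℝ)..Λ, VV x := mul_comm _ _
    _ ≤ _ := h2
    _ ≤ _ := h5
    _ ≤ Real.sqrt Real.pi * (2 * Λ) ^ 2 * J + 2 * C * Λ ^ 2 := by linarith
    _ = _ := by ring

lemma e_int (B : ℝ) (hB : 0 ≤ B) : ∫ x in (0 : ℝ)..B, Real.exp (x - x ^ 2 / 2) ≤ 8 := by
  have hi : Integrable fun x : ℝ => 2 * Real.exp (-(1 / 2) * (x - 1) ^ 2) :=
    ((integrable_exp_neg_mul_sq (by norm_num : (0 : ℝ) < 1 / 2)).comp_sub_right 1).const_mul 2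
  have h1 : ∀ x : ℝ, Real.exp (x - x ^ 2 / 2) ≤ 2 * Real.exp (-(1 / 2) * (x - 1) ^ 2) := by
    intro x
    have h2 : x - x ^ 2 / 2 = 1 / 2 + -(1 / 2) * (x - 1) ^ 2 := by ring
    rw [h2, Real.exp_add]
    have h3 : Real.exp (1 / 2) ≤ 2 := by
      have h4 : Real.exp (1 / 2) ^ 2 ≤ 2 ^ 2 := by
        rw [← Real.exp_nat_mul]
        have := Real.exp_one_lt_d9
        norm_num
        linarith
      exact le_of_sq_le_sq h4 (by norm_num)
    gcongr
  calc ∫ x in (0 : ℝ)..B, Real.exp (x - x ^ 2 / 2) ≤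
      ∫ x in (0 : ℝ)..B, 2 * Real.exp (-(1 / 2) * (x - 1) ^ 2) := by
        refine intervalIntegral.integral_mono_on hB
          ((by fun_prop : Continuous fun x : ℝ => Real.exp (x - x ^ 2 / 2)).intervalIntegrable _ _)
          (hi.intervalIntegrable) fun x _ => h1 x
    _ ≤ ∫ x : ℝ, 2 * Real.exp (-(1 / 2) * (x - 1) ^ 2) := by
        rw [intervalIntegral.integral_of_le hB]
        exact setIntegral_le_integral hi (Filter.Eventually.of_forall fun x => by positivity)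
    _ = 2 * Real.sqrt (Real.pi / (1 / 2)) := by
        rw [integral_const_mul, integral_sub_right_eq_self
          (fun x : ℝ => Real.exp (-(1 / 2) * x ^ 2)) 1, integral_gaussian]
    _ ≤ 8 := by
        have h5 : Real.sqrt (Real.pi / (1 / 2)) ≤ 4 := by
          rw [Real.sqrt_le_left (by norm_num)]
          have := Real.pi_lt_four
          linarith
        linarith

end Pool.Agent.W2helper69.PS
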