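import Pool.Agent.W2helper69.PS.BS1
import Pool.Agent.W2helper69.PS.Main1

/-! The extremal majorant and minorant of an interval, as test functions. -/

set_option autoImplicit false

open Complex Filter Topology Set MeasureTheory
open scoped BigOperators ComplexConjugate FourierTransform

namespace Pool.Agent.W2helper69.BS

open H370.A2

noncomputable def qS (B s m : ℝ) : ℝ :=
  (B + s) * Real.sinc (Real.pi * (B + s) * m) / Pf m + Real.sin (Real.pi * B * m) / Real.pi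

noncomputable def psiS (B s t : ℝ) : ℝ := qS B s (min |t| 1)

lemma qS_cont (B s : ℝ) : ContinuousOn (qS B s) (Set.Icc 0 1) := by
  unfold qS
  have h1 := Real.continuous_sinc
  apply ContinuousOn.add
  · apply ContinuousOn.div
    · fun_prop
    · exact Pf_cont.continuousOn
    · intro t ht
      exact (Pf_pos ht.1 ht.2).ne'
  · fun_prop

lemma psiS_cont (B s : ℝ) : Continuous (psiS B s) := by
  unfold psiS
  apply (qS_cont B s).comp_continuous (by fun_prop)
  intro t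
  exact ⟨le_min (abs_nonneg t) zero_le_one, min_le_right _ _⟩

lemma psiS_even (B s t : ℝ) : psiS B s (-t) = psiS B s t := by
  unfold psiS
  rw [abs_neg]

lemma psiS_zero {B s : ℝ} (hs : s = 1 ∨ s = -1) {t : ℝ} (ht : 1 ≤ |t|) : psiS B s t = 0 := by
  unfold psiS qS
  rw [min_eq_right ht, Pf_one]
  have hpi := Real.pi_pos
  have h1 := mul_sinc (Real.pi * (B + s) * 1)
  have h2 : Real.sin (Real.pi * (B + s) * 1) = -Real.sin (Real.pi * B * 1) := by
    rcases hs with h | h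
    · rw [h, show Real.pi * (B + 1) * 1 = Real.pi * B * 1 + Real.pi by ring, Real.sin_add_pi]
    · rw [h, show Real.pi * (B + -1) * 1 = Real.pi * B * 1 - Real.pi by ring, Real.sin_sub_pi]
  rw [h2] at h1
  have h3 : (B + s) * Real.sinc (Real.pi * (B + s) * 1) = -Real.sin (Real.pi * B * 1) / Real.pi := by
    rw [eq_div_iff hpi.ne']
    linear_combination h1
  rw [div_one, h3]
  ring

lemma psiS_at (B s : ℝ) : psiS B s 0 = B + s := by
  unfold psiS qS
  rw [abs_zero, min_eq_left zero_le_one, Pf_zero]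
  simp

lemma psiS_evp (B s : ℝ) : evp (psiS B s) = psiS B s := by
  funext t
  unfold evp
  rw [psiS_even]
  ring

lemma qS_eq {B s t : ℝ} (h0 : 0 < t) (h1 : t ≤ 1) : qS B s t * (Real.pi * t * Pf t) =
    Real.sin (Real.pi * (B + s) * t) + t * Pf t * Real.sin (Real.pi * B * t) := by
  have hP := Pf_pos h0.le h1
  have h2 := mul_sinc (Real.pi * (B + s) * t)
  have hpi := Real.pi_pos
  unfold qS
  rw [← h2]
  field_simp

lemma psiS_eq {B s t : ℝ} (h0 : 0 < t) (h1 : t ≤ 1) : psiS B s t = qS B s t := by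
  unfold psiS
  rw [abs_of_pos h0, min_eq_left h1]

lemma two_sin_cos (a b : ℝ) : 2 * (Real.sin a * Real.cos b) = Real.sin (a + b) + Real.sin (a - b) := by
  rw [Real.sin_add, Real.sin_sub]; ring

lemma RR_plus (B x : ℝ) : RR (psiS B 1) 1 x = Gy (B / 2 + x) + Gy (B / 2 - x) := by
  rw [PS.RR_half (psiS_cont B 1), psiS_evp]
  unfold Gy
  rw [← intervalIntegral.integral_add (hh_int _) (hh_int _)]
  apply intervalIntegral.integral_congr_ae
  refine Filter.Eventually.of_forall fun t ht => ?_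
  rw [Set.uIoc_of_le zero_le_one] at ht
  have hP := Pf_pos ht.1.le ht.2
  have hpi := Real.pi_pos
  have hne : Real.pi * t * Pf t ≠ 0 := by
    have := ht.1
    positivity
  rw [psiS_eq ht.1 ht.2]
  apply mul_right_cancel₀ hne
  have e : 2 * (qS B 1 t * Real.cos (2 * Real.pi * t * x)) * (Real.pi * t * Pf t) =
      2 * ((qS B 1 t * (Real.pi * t * Pf t)) * Real.cos (2 * Real.pi * t * x)) := by ring
  rw [e, qS_eq ht.1 ht.2, add_mul (hh _ _), hh_eq ht.1 ht.2, hh_eq ht.1 ht.2]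
  have h1 := two_sin_cos (Real.pi * (B + 1) * t) (2 * Real.pi * t * x)
  have h2 := two_sin_cos (Real.pi * B * t) (2 * Real.pi * t * x)
  have a1 : Real.pi * (2 * (B / 2 + x) + 1) * t = Real.pi * (B + 1) * t + 2 * Real.pi * t * x := by
    ring
  have a2 : Real.pi * (2 * (B / 2 - x) + 1) * t = Real.pi * (B + 1) * t - 2 * Real.pi * t * x := by
    ring
  have a3 : 2 * Real.pi * (B / 2 + x) * t = Real.pi * B * t + 2 * Real.pi * t * x := by ring
  have a4 : 2 * Real.pi * (B / 2 - x) * t = Real.pi * B * t - 2 * Real.pi * t * x := by ring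
  rw [a1, a2, a3, a4]
  linear_combination h1 + t * Pf t * h2

lemma RR_minus (B x : ℝ) : RR (psiS B (-1)) 1 x = -(Gy (-(B / 2 + x)) + Gy (-(B / 2 - x))) := by
  rw [PS.RR_half (psiS_cont B (-1)), psiS_evp]
  unfold Gy
  rw [← intervalIntegral.integral_add (hh_int _) (hh_int _), ← intervalIntegral.integral_neg]
  apply intervalIntegral.integral_congr_ae
  refine Filter.Eventually.of_forall fun t ht => ?_
  rw [Set.uIoc_of_le zero_le_one] at ht
  have hP := Pf_pos ht.1.le ht.2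
  have hpi := Real.pi_pos
  have hne : Real.pi * t * Pf t ≠ 0 := by
    have := ht.1
    positivity
  rw [psiS_eq ht.1 ht.2]
  apply mul_right_cancel₀ hne
  have e : 2 * (qS B (-1) t * Real.cos (2 * Real.pi * t * x)) * (Real.pi * t * Pf t) =
      2 * ((qS B (-1) t * (Real.pi * t * Pf t)) * Real.cos (2 * Real.pi * t * x)) := by ring
  rw [e, qS_eq ht.1 ht.2, neg_mul, add_mul (hh _ _), hh_eq ht.1 ht.2, hh_eq ht.1 ht.2]
  have h1 := two_sin_cos (Real.pi * (B - 1) * t) (2 * Real.pi * t * x)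
  have h2 := two_sin_cos (Real.pi * B * t) (2 * Real.pi * t * x)
  have a0 : Real.pi * (B + -1) * t = Real.pi * (B - 1) * t := by ring
  have a1 : Real.pi * (2 * (-(B / 2 + x)) + 1) * t =
      -(Real.pi * (B - 1) * t + 2 * Real.pi * t * x) := by ring
  have a2 : Real.pi * (2 * (-(B / 2 - x)) + 1) * t =
      -(Real.pi * (B - 1) * t - 2 * Real.pi * t * x) := by ring
  have a3 : 2 * Real.pi * (-(B / 2 + x)) * t = -(Real.pi * B * t + 2 * Real.pi * t * x) := by ring
  have a4 : 2 * Real.pi * (-(B / 2 - x)) * t = -(Real.pi * B * t - 2 * Real.pi * t * x) := by ring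
  rw [a0, a1, a2, a3, a4, Real.sin_neg, Real.sin_neg, Real.sin_neg, Real.sin_neg]
  linear_combination h1 + t * Pf t * h2

/-- the extremal test function of bandwidth `μ` for an interval of length `l` -/
noncomputable def psiB (μ l s α : ℝ) : ℝ := 1 / μ * psiS (μ * l) s (α / μ)

lemma psiB_cont (μ l s : ℝ) : Continuous (psiB μ l s) := by
  unfold psiB
  exact continuous_const.mul ((psiS_cont _ _).comp (by fun_prop))

lemma psiB_zero {μ l s : ℝ} (hμ : 0 < μ) (hs : s = 1 ∨ s = -1) {t : ℝ} (ht : μ ≤ |t|) :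
    psiB μ l s t = 0 := by
  unfold psiB
  rw [psiS_zero hs, mul_zero]
  rw [abs_div, abs_of_pos hμ, le_div_iff₀ hμ, one_mul]
  exact ht

lemma psiB_at {μ l s : ℝ} (hμ : 0 < μ) : psiB μ l s 0 = l + s / μ := by
  unfold psiB
  rw [zero_div, psiS_at]
  field_simp

lemma RR_psiB {μ l s : ℝ} (hμ : 0 < μ) (x : ℝ) :
    RR (psiB μ l s) μ x = RR (psiS (μ * l) s) 1 (μ * x) := by
  unfold RR
  have h1 := intervalIntegral.mul_integral_comp_mul_left (a := (-1 : ℝ)) (b := 1)
    (f := fun α => psiB μ l s α * Real.cos (2 * Real.pi * α * x)) μ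
  rw [mul_neg, mul_one] at h1
  rw [← h1, ← intervalIntegral.integral_const_mul]
  refine intervalIntegral.integral_congr fun t _ => ?_
  show μ * (psiB μ l s (μ * t) * Real.cos (2 * Real.pi * (μ * t) * x)) =
    psiS (μ * l) s t * Real.cos (2 * Real.pi * t * (μ * x))
  unfold psiB
  rw [mul_div_cancel_left₀ t hμ.ne', show 2 * Real.pi * (μ * t) * x = 2 * Real.pi * t * (μ * x) by ring]
  field_simp

lemma RR_psiB_plus {μ l : ℝ} (hμ : 0 < μ) (x : ℝ) :
    RR (psiB μ l 1) μ x = Gy (μ * (l / 2 + x)) + Gy (μ * (l / 2 - x)) := by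
  rw [RR_psiB hμ, RR_plus]
  congr 2 <;> ring

lemma RR_psiB_minus {μ l : ℝ} (hμ : 0 < μ) (x : ℝ) :
    RR (psiB μ l (-1)) μ x = -(Gy (-(μ * (l / 2 + x))) + Gy (-(μ * (l / 2 - x)))) := by
  rw [RR_psiB hμ, RR_minus]
  congr 3 <;> ring

lemma maj_nonneg {μ l : ℝ} (hμ : 0 < μ) (hl : 0 < l) (x : ℝ) : 0 ≤ RR (psiB μ l 1) μ x := by
  rw [RR_psiB_plus hμ]
  rcases le_or_gt 0 x with h | h
  · have h1 : 1 / 2 ≤ Gy (μ * (l / 2 + x)) := Gy_ge' (by positivity)
    have h2 := Gy_ge (μ * (l / 2 - x))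
    linarith
  · have h1 : 1 / 2 ≤ Gy (μ * (l / 2 - x)) := Gy_ge' (mul_nonneg hμ.le (by linarith))
    have h2 := Gy_ge (μ * (l / 2 + x))
    linarith

lemma maj_one {μ l : ℝ} (hμ : 0 < μ) {x : ℝ} (hx : |x| ≤ l / 2) : 1 ≤ RR (psiB μ l 1) μ x := by
  rw [RR_psiB_plus hμ]
  obtain ⟨h1, h2⟩ := abs_le.1 hx
  have h3 : 1 / 2 ≤ Gy (μ * (l / 2 + x)) := Gy_ge' (mul_nonneg hμ.le (by linarith))
  have h4 : 1 / 2 ≤ Gy (μ * (l / 2 - x)) := Gy_ge' (mul_nonneg hμ.le (by linarith))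
  linarith

lemma min_one {μ l : ℝ} (hμ : 0 < μ) (x : ℝ) : RR (psiB μ l (-1)) μ x ≤ 1 := by
  rw [RR_psiB_minus hμ]
  have h3 := Gy_ge (-(μ * (l / 2 + x)))
  have h4 := Gy_ge (-(μ * (l / 2 - x)))
  linarith

lemma min_zero {μ l : ℝ} (hμ : 0 < μ) {x : ℝ} (hx : l / 2 < |x|) :
    RR (psiB μ l (-1)) μ x ≤ 0 := by
  rw [RR_psiB_minus hμ]
  rcases lt_abs.1 hx with h | h
  · have h3 : 1 / 2 ≤ Gy (-(μ * (l / 2 - x))) := Gy_ge' (by nlinarith)
    have h4 := Gy_ge (-(μ * (l / 2 + x)))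
    linarith
  · have h3 : 1 / 2 ≤ Gy (-(μ * (l / 2 + x))) := Gy_ge' (by nlinarith)
    have h4 := Gy_ge (-(μ * (l / 2 - x)))
    linarith

lemma Gy_abs_pos {y : ℝ} (hy : 0 < y) : |Gy y - 1 / 2| ≤ 1 / (Real.pi ^ 2 * y ^ 2) := by
  rw [abs_le]
  have h1 := Gy_ge_pos hy
  have h2 := Gy_le_pos hy
  have : 0 ≤ 1 / (Real.pi ^ 2 * y ^ 2) := by positivity
  constructor <;> linarith

lemma Gy_abs_neg {y : ℝ} (hy : y < 0) : |Gy y + 1 / 2| ≤ 1 / (Real.pi ^ 2 * y ^ 2) := by
  rw [abs_le]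
  have h1 := Gy_ge_neg hy
  have h2 := Gy_le_neg hy
  have : 0 ≤ 1 / (Real.pi ^ 2 * y ^ 2) := by positivity
  constructor <;> linarith

lemma Gy_pair {a b : ℝ} (ha : 0 < a) (hb : b < 0) :
    |Gy a + Gy b| ≤ 1 / (Real.pi ^ 2 * a ^ 2) + 1 / (Real.pi ^ 2 * b ^ 2) := by
  have e : Gy a + Gy b = (Gy a - 1 / 2) + (Gy b + 1 / 2) := by ring
  rw [e]
  exact (abs_add_le _ _).trans (add_le_add (Gy_abs_pos ha) (Gy_abs_neg hb))

lemma inv_bound {μ x y : ℝ} (hμ : 0 < μ) (hx : 0 < x) (hy : μ * x / 2 ≤ |y|) :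
    1 / (Real.pi ^ 2 * y ^ 2) ≤ 4 / (Real.pi ^ 2 * μ ^ 2 * x ^ 2) := by
  have hpi := Real.pi_pos
  have h1 : (μ * x / 2) ^ 2 ≤ y ^ 2 := by
    rw [← sq_abs y]
    gcongr
  have h2 : 0 < (μ * x / 2) ^ 2 := by positivity
  calc 1 / (Real.pi ^ 2 * y ^ 2) ≤ 1 / (Real.pi ^ 2 * (μ * x / 2) ^ 2) := by gcongr
    _ = _ := by field_simp; norm_num

lemma decay {μ l s : ℝ} (hμ : 0 < μ) (hl : 0 < l) (hs : s = 1 ∨ s = -1) :
    ∃ C : ℝ, ∀ x, |RR (psiB μ l s) μ x| * x ^ 2 ≤ C := by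
  have hpi := Real.pi_pos
  have hb := RR_bound (psiB_cont μ l s) (fun x hx => psiB_zero (l := l) hμ hs hx)
  set M := ∫ α, |evp (psiB μ l s) α| with hM
  have hM0 : 0 ≤ M := (abs_nonneg _).trans (hb 0)
  refine ⟨M * l ^ 2 + 8 / (Real.pi ^ 2 * μ ^ 2), fun x => ?_⟩
  have h8 : 0 ≤ 8 / (Real.pi ^ 2 * μ ^ 2) := by positivity
  rcases le_or_gt |x| l with h | h
  · have h1 : x ^ 2 ≤ l ^ 2 := by rw [← sq_abs x]; gcongr
    calc |RR (psiB μ l s) μ x| * x ^ 2 ≤ M * l ^ 2 := by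
          gcongr
          exact hb x
      _ ≤ _ := by linarith
  · have hx0 : 0 < |x| := by linarith
    have key : |RR (psiB μ l s) μ x| ≤ 8 / (Real.pi ^ 2 * μ ^ 2 * |x| ^ 2) := by
      have e8 : 8 / (Real.pi ^ 2 * μ ^ 2 * |x| ^ 2) = 4 / (Real.pi ^ 2 * μ ^ 2 * |x| ^ 2) +
        4 / (Real.pi ^ 2 * μ ^ 2 * |x| ^ 2) := by ring
      rw [e8]
      have gen : ∀ a b : ℝ, 0 < a → b < 0 → μ * |x| / 2 ≤ |a| → μ * |x| / 2 ≤ |b| →
          |Gy a + Gy b| ≤ 4 / (Real.pi ^ 2 * μ ^ 2 * |x| ^ 2) +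
          4 / (Real.pi ^ 2 * μ ^ 2 * |x| ^ 2) := fun a b ha hb' h1 h2 =>
        (Gy_pair ha hb').trans (add_le_add (inv_bound hμ hx0 h1) (inv_bound hμ hx0 h2))
      rcases hs with hs1 | hs1
      · rw [hs1, RR_psiB_plus hμ]
        rcases lt_abs.1 h with h1 | h1
        · have hx : |x| = x := abs_of_pos (by linarith)
          rw [hx] at gen ⊢
          have b1 : 0 < μ * (l / 2 + x) := by nlinarith
          have b2 : μ * (l / 2 - x) < 0 := by nlinarith
          apply gen _ _ b1 b2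
          · rw [abs_of_pos b1]; nlinarith
          · rw [abs_of_neg b2]; nlinarith
        · have hx : |x| = -x := abs_of_neg (by linarith)
          rw [hx] at gen ⊢
          have b1 : 0 < μ * (l / 2 - x) := by nlinarith
          have b2 : μ * (l / 2 + x) < 0 := by nlinarith
          rw [add_comm (Gy _)]
          apply gen _ _ b1 b2
          · rw [abs_of_pos b1]; nlinarith
          · rw [abs_of_neg b2]; nlinarith
      · rw [hs1, RR_psiB_minus hμ, abs_neg]
        rcases lt_abs.1 h with h1 | h1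
        · have hx : |x| = x := abs_of_pos (by linarith)
          rw [hx] at gen ⊢
          have b1 : -(μ * (l / 2 + x)) < 0 := by nlinarith
          have b2 : 0 < -(μ * (l / 2 - x)) := by nlinarith
          rw [add_comm (Gy _)]
          apply gen _ _ b2 b1
          · rw [abs_of_pos b2]; nlinarith
          · rw [abs_of_neg b1]; nlinarith
        · have hx : |x| = -x := abs_of_neg (by linarith)
          rw [hx] at gen ⊢
          have b1 : -(μ * (l / 2 - x)) < 0 := by nlinarith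
          have b2 : 0 < -(μ * (l / 2 + x)) := by nlinarith
          apply gen _ _ b2 b1
          · rw [abs_of_pos b2]; nlinarith
          · rw [abs_of_neg b1]; nlinarith
    calc |RR (psiB μ l s) μ x| * x ^ 2 ≤ 8 / (Real.pi ^ 2 * μ ^ 2 * |x| ^ 2) * x ^ 2 := by gcongr
      _ = 8 / (Real.pi ^ 2 * μ ^ 2) := by
          rw [← sq_abs x]
          field_simp
      _ ≤ _ := by
          have : 0 ≤ M * l ^ 2 := by positivity
          linarith

end Pool.Agent.W2helper69.BS
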