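import Pool.Agent.W2helper69.PS.EF4

/-! Counting lemmas in the window `[T, 16 T]` and the explicit formula for its subintervals. -/

set_option autoImplicit false

open Complex Filter Topology Set MeasureTheory
open scoped BigOperators ComplexConjugate

namespace Pool.Agent.W2helper69.PS

open H370 H370.A2

/-- all zeros in the open strip in the upper half plane are on the line -/
def Line (F : ℂ → ℂ) : Prop :=
  ∀ s : ℂ, F s = 0 → 0 < s.re → s.re < 1 → 1 ≤ s.im → s.re = 1 / 2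

lemma sum_Zf_le {F : ℂ → ℂ} (hF : GoodL F) {A B A' B' : ℝ} (hA : 1 ≤ A) (hA' : 1 ≤ A')
    (h1 : A' ≤ A) (h2 : B ≤ B') (f : ℂ → ℝ) (hf : ∀ s, 0 ≤ f s) :
    ∑ s ∈ Zf F A B, f s ≤ ∑ s ∈ Zf F A' B', f s := by
  refine Finset.sum_le_sum_of_subset_of_nonneg ?_ fun _ _ _ => hf _
  intro s hs
  rw [mem_Zf hF hA] at hs
  rw [mem_Zf hF hA']
  exact ⟨hs.1, hs.2.1, by linarith [hs.2.2.1], by linarith [hs.2.2.2.1], hs.2.2.2.2⟩

lemma sum_Zf_split {F : ℂ → ℂ} (hF : GoodL F) {A B C : ℝ} (hA : 1 ≤ A) (hB : 1 ≤ B)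
    (f : ℂ → ℝ) (hf : ∀ s, 0 ≤ f s) :
    ∑ s ∈ Zf F A C, f s ≤ ∑ s ∈ Zf F A B, f s + ∑ s ∈ Zf F B C, f s := by
  classical
  have hsub : Zf F A C ⊆ Zf F A B ∪ Zf F B C := by
    intro s hs
    rw [mem_Zf hF hA] at hs
    rw [Finset.mem_union, mem_Zf hF hA, mem_Zf hF hB]
    rcases le_or_gt s.im B with h | h
    · exact Or.inl ⟨hs.1, hs.2.1, hs.2.2.1, h, hs.2.2.2.2⟩
    · exact Or.inr ⟨hs.1, hs.2.1, h, hs.2.2.2.1, hs.2.2.2.2⟩
  refine (Finset.sum_le_sum_of_subset_of_nonneg hsub fun _ _ _ => hf _).trans ?_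
  have := Finset.sum_union_inter (s₁ := Zf F A B) (s₂ := Zf F B C) (f := f)
  have h0 : 0 ≤ ∑ s ∈ Zf F A B ∩ Zf F B C, f s := Finset.sum_nonneg fun _ _ => hf _
  linarith

lemma NN_crude16 {F : ℂ → ℂ} (hF : GoodL F) : ∃ C : ℝ, 0 < C ∧ ∀ T : ℝ, 4 ≤ T → ∀ U1 U2 : ℝ,
    T ≤ U1 → U2 ≤ 16 * T → (NN F U1 U2 : ℝ) ≤ C * (T * Real.log T) := by
  obtain ⟨C, hC, h⟩ := NN_crude hF
  refine ⟨60 * C, by positivity, fun T hT U1 U2 h1 h2 => ?_⟩
  have hT0 : 0 < T := by linarith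
  have hL : 1 ≤ Real.log T := by
    rw [Real.le_log_iff_exp_le hT0]
    linarith [Real.exp_one_lt_d9]
  have hl : ∀ j : ℕ, j ≤ 3 → Real.log (2 ^ j * T) ≤ 4 * Real.log T := by
    intro j hj
    have e1 : (2 : ℝ) ^ j ≤ 2 ^ 3 := pow_le_pow_right₀ (by norm_num) hj
    have e2 : (2 : ℝ) ^ j * T ≤ T ^ 4 := by
      have e3 : (8 : ℝ) ≤ T ^ 3 := by
        have : (4 : ℝ) ^ 3 ≤ T ^ 3 := pow_le_pow_left₀ (by norm_num) hT 3
        linarith
      calc (2 : ℝ) ^ j * T ≤ 8 * T := by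
            apply mul_le_mul_of_nonneg_right _ hT0.le
            linarith
        _ ≤ T ^ 3 * T := mul_le_mul_of_nonneg_right e3 hT0.le
        _ = T ^ 4 := by ring
    have e4 := Real.log_le_log (by positivity) e2
    rw [Real.log_pow] at e4
    exact_mod_cast e4
  have hs := sum_Zf_le hF (A := U1) (B := U2) (A' := T) (B' := 16 * T) (by linarith) (by linarith)
    h1 h2 (fun s => (mult F s : ℝ)) (fun _ => Nat.cast_nonneg _)
  have s1 := sum_Zf_split hF (A := T) (B := 2 * T) (C := 16 * T) (by linarith) (by linarith)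
    (fun s => (mult F s : ℝ)) (fun _ => Nat.cast_nonneg _)
  have s2 := sum_Zf_split hF (A := 2 * T) (B := 4 * T) (C := 16 * T) (by linarith) (by linarith)
    (fun s => (mult F s : ℝ)) (fun _ => Nat.cast_nonneg _)
  have s3 := sum_Zf_split hF (A := 4 * T) (B := 8 * T) (C := 16 * T) (by linarith) (by linarith)
    (fun s => (mult F s : ℝ)) (fun _ => Nat.cast_nonneg _)
  have hcast : ∀ a b : ℝ, 1 ≤ a → (NN F a b : ℝ) = ∑ s ∈ Zf F a b, (mult F s : ℝ) := by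
    intro a b ha
    rw [NN_eq hF ha]
    push_cast
    rfl
  have b1 := h T hT T (2 * T) le_rfl le_rfl
  have b2 := h (2 * T) (by linarith) (2 * T) (4 * T) le_rfl (by linarith)
  have b3 := h (4 * T) (by linarith) (4 * T) (8 * T) le_rfl (by linarith)
  have b4 := h (8 * T) (by linarith) (8 * T) (16 * T) le_rfl (by linarith)
  rw [hcast _ _ (by linarith)] at b1 b2 b3 b4
  rw [hcast _ _ (by linarith)]
  have l2 := hl 1 (by norm_num)
  have l3 := hl 2 (by norm_num)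
  have l4 := hl 3 (by norm_num)
  norm_num at l2 l3 l4
  have c2 : C * (2 * T * Real.log (2 * T)) ≤ C * (2 * T * (4 * Real.log T)) := by gcongr
  have c3 : C * (4 * T * Real.log (4 * T)) ≤ C * (4 * T * (4 * Real.log T)) := by gcongr
  have c4 : C * (8 * T * Real.log (8 * T)) ≤ C * (8 * T * (4 * Real.log T)) := by gcongr
  have hp : 0 ≤ C * (T * Real.log T) := by positivity
  nlinarith

lemma weight_sum16 {F : ℂ → ℂ} (hF : GoodL F) : ∃ C : ℝ, 0 < C ∧ ∀ T : ℝ, 10 ≤ T →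
    ∀ A B : ℝ, T ≤ A → B ≤ 16 * T → ∀ x : ℝ,
    ∑ s ∈ Zf F A B, (mult F s : ℝ) * (1 / (1 + (s.im - x) ^ 2)) ≤ C * Real.log T := by
  obtain ⟨C, hC, h⟩ := weight_sum hF
  refine ⟨3 * C, by positivity, fun T hT A B h1 h2 x => ?_⟩
  have hT0 : 0 < T := by linarith
  have hf : ∀ s : ℂ, 0 ≤ (mult F s : ℝ) * (1 / (1 + (s.im - x) ^ 2)) := fun s => by positivity
  have hs := sum_Zf_le hF (A := A) (B := B) (A' := T) (B' := 16 * T) (by linarith) (by linarith)
    h1 h2 (fun s => (mult F s : ℝ) * (1 / (1 + (s.im - x) ^ 2))) hf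
  have s1 := sum_Zf_split hF (A := T) (B := 4 * T) (C := 16 * T) (by linarith) (by linarith)
    (fun s => (mult F s : ℝ) * (1 / (1 + (s.im - x) ^ 2))) hf
  have b1 := h T hT T (4 * T) le_rfl le_rfl x
  have b2 := h (4 * T) (by linarith) (4 * T) (16 * T) le_rfl (by linarith) x
  have l2 : Real.log (4 * T) ≤ 2 * Real.log T := by
    have e1 : Real.log (4 * T) ≤ Real.log (T ^ 2) := Real.log_le_log (by positivity) (by nlinarith)
    rw [Real.log_pow] at e1
    exact_mod_cast e1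
  have : C * Real.log (4 * T) ≤ C * (2 * Real.log T) := by gcongr
  linarith

end Pool.Agent.W2helper69.PS
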