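import Pool.Agent.W2helper69.PS.Main2
import Pool.Agent.H345R2.SI.Count

/-! Pairs of zeros at almost all distances: the smooth version. -/

set_option autoImplicit false

open Complex Filter Topology Set MeasureTheory
open scoped BigOperators ComplexConjugate

namespace Pool.Agent.W2helper69.PS

open H370 H370.A2

/-- the pair sum at distance `u` -/
noncomputable def SS (F : ℂ → ℂ) (ψ : ℝ → ℝ) (μ Λ T t1 t2 u : ℝ) : ℝ :=
  ∑ s ∈ Zf F t1 t2, ∑ s' ∈ Zf F (T + 1) (16 * T - 1), (mult F s : ℝ) * (mult F s' : ℝ) *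
    RR ψ μ ((s'.im - s.im - u) * Λ / (2 * Real.pi))

lemma SG_SS {F : ℂ → ℂ} (hF : GoodL F) : ∃ Cw : ℝ, 0 < Cw ∧ ∀ T : ℝ, 10 ≤ T →
    ∀ t1 t2 : ℝ, T ≤ t1 → ∀ (ψ : ℝ → ℝ) (μ C : ℝ), 0 ≤ C → (∀ x, |RR ψ μ x| * x ^ 2 ≤ C) →
    ∀ Λ : ℝ, 0 < Λ → ∀ u : ℝ,
    |SG F ψ μ Λ T t1 t2 u - SS F ψ μ Λ T t1 t2 u| ≤
      50 * C * Cw * (Real.log T * NN F t1 t2) / Λ ^ 2 := by
  obtain ⟨Cw, hCw, hw⟩ := weight_sum16 hF
  refine ⟨Cw, hCw, fun T hT t1 t2 ht1 ψ μ C hC0 hC Λ hΛ u => ?_⟩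
  have hNN : (NN F t1 t2 : ℝ) = ∑ s ∈ Zf F t1 t2, (mult F s : ℝ) := by
    rw [NN_eq hF (by linarith)]; push_cast; rfl
  unfold SG SS
  rw [← Finset.sum_sub_distrib]
  simp_rw [← Finset.sum_sub_distrib]
  calc _ ≤ ∑ s ∈ Zf F t1 t2, ∑ s' ∈ Zf F (T + 1) (16 * T - 1),
        |(mult F s : ℝ) * (mult F s' : ℝ) *
        (RR ψ μ ((s'.im - s.im - u) * Λ / (2 * Real.pi)) *
          Real.exp (-(s'.im - s.im - u) ^ 2 / 4)) -
        (mult F s : ℝ) * (mult F s' : ℝ) *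
        RR ψ μ ((s'.im - s.im - u) * Λ / (2 * Real.pi))| :=
          (Finset.abs_sum_le_sum_abs _ _).trans (Finset.sum_le_sum fun s _ =>
            Finset.abs_sum_le_sum_abs _ _)
    _ ≤ ∑ s ∈ Zf F t1 t2, (mult F s : ℝ) * (50 * C / Λ ^ 2 * (Cw * Real.log T)) := by
          refine Finset.sum_le_sum fun s _ => ?_
          have h1 := hw T hT (T + 1) (16 * T - 1) (by linarith) (by linarith) (s.im + u)
          calc _ ≤ ∑ s' ∈ Zf F (T + 1) (16 * T - 1), (mult F s : ℝ) * (50 * C / Λ ^ 2 *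
                ((mult F s' : ℝ) * (1 / (1 + (s'.im - (s.im + u)) ^ 2)))) := by
                refine Finset.sum_le_sum fun s' _ => ?_
                rw [← mul_sub, abs_mul, abs_of_nonneg (by positivity : (0 : ℝ) ≤
                  (mult F s : ℝ) * (mult F s' : ℝ))]
                have h2 := weight_free Λ (s'.im - s.im - u) C _ hΛ hC0
                  (hC ((s'.im - s.im - u) * Λ / (2 * Real.pi)))
                have h3 : s'.im - (s.im + u) = s'.im - s.im - u := by ring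
                rw [h3]
                calc _ ≤ (mult F s : ℝ) * (mult F s' : ℝ) *
                    (50 * C / Λ ^ 2 * (1 / (1 + (s'.im - s.im - u) ^ 2))) := by gcongr
                  _ = _ := by ring
            _ = (mult F s : ℝ) * (50 * C / Λ ^ 2 * ∑ s' ∈ Zf F (T + 1) (16 * T - 1),
                ((mult F s' : ℝ) * (1 / (1 + (s'.im - (s.im + u)) ^ 2)))) := by
                rw [Finset.mul_sum, Finset.mul_sum]
            _ ≤ _ := by gcongr
    _ = _ := by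
          rw [← Finset.sum_mul, ← hNN]
          ring

lemma S_alg {U H L α0 η c μ' κ δ0 : ℝ} (hL : 0 < L) (hκ : 0 ≤ κ) (hη0 : 0 ≤ η)
    (hc0 : 0 ≤ c) (hη : Real.exp (η * L) ≤ H) (hc : Real.exp (c * L) ≤ U) (h1 : δ0 ≤ η)
    (h2 : δ0 ≤ c) (h3 : δ0 ≤ α0) (h4 : δ0 ≤ η + c - μ') :
    Real.exp (10 * (κ * L)) * (U * H ^ 2 * Real.exp (-(α0 * L)) + U * H + H ^ 2 +
      H * Real.exp (μ' * L)) + 4 * U ≤
      H ^ 2 * (U * (8 * (Real.exp (10 * (κ * L)) * Real.exp (-(δ0 * L))))) := by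
  have hH1 : 1 ≤ H := le_trans (Real.one_le_exp (by positivity)) hη
  have hU1 : 1 ≤ U := le_trans (Real.one_le_exp (by positivity)) hc
  have hH0 : 0 < H := by linarith
  have hU0 : 0 < U := by linarith
  set E := Real.exp (-(δ0 * L)) with hE
  have hE0 : 0 < E := Real.exp_pos _
  set k := Real.exp (10 * (κ * L)) with hk
  have hk1 : 1 ≤ k := Real.one_le_exp (by positivity)
  have a1 : Real.exp (-(α0 * L)) ≤ E := by
    apply Real.exp_le_exp.2
    have : δ0 * L ≤ α0 * L := by gcongr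
    linarith
  have a2 : 1 ≤ H * E := by
    calc (1 : ℝ) ≤ Real.exp ((η - δ0) * L) := Real.one_le_exp (mul_nonneg (by linarith) hL.le)
      _ = Real.exp (η * L) * E := by rw [hE, ← Real.exp_add]; congr 1; ring
      _ ≤ H * E := by gcongr
  have a3 : 1 ≤ U * E := by
    calc (1 : ℝ) ≤ Real.exp ((c - δ0) * L) := Real.one_le_exp (mul_nonneg (by linarith) hL.le)
      _ = Real.exp (c * L) * E := by rw [hE, ← Real.exp_add]; congr 1; ring
      _ ≤ U * E := by gcongr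
  have a4 : Real.exp (μ' * L) ≤ H * U * E := by
    calc Real.exp (μ' * L) ≤ Real.exp ((η + c - δ0) * L) := by
          apply Real.exp_le_exp.2
          apply mul_le_mul_of_nonneg_right _ hL.le
          linarith
      _ = Real.exp (η * L) * Real.exp (c * L) * E := by
          rw [hE, ← Real.exp_add, ← Real.exp_add]; congr 1; ring
      _ ≤ H * U * E := by gcongr
  have b1 : U * H ^ 2 * Real.exp (-(α0 * L)) ≤ H ^ 2 * (U * E) := by
    calc _ ≤ U * H ^ 2 * E := by gcongr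
      _ = _ := by ring
  have b2 : U * H ≤ H ^ 2 * (U * E) := by
    calc U * H = U * H * 1 := by ring
      _ ≤ U * H * (H * E) := by gcongr
      _ = _ := by ring
  have b3 : H ^ 2 ≤ H ^ 2 * (U * E) := by
    calc H ^ 2 = H ^ 2 * 1 := by ring
      _ ≤ H ^ 2 * (U * E) := by gcongr
  have b4 : H * Real.exp (μ' * L) ≤ H ^ 2 * (U * E) := by
    calc _ ≤ H * (H * U * E) := by gcongr
      _ = _ := by ring
  have b5 : 4 * U ≤ k * (4 * (H ^ 2 * (U * E))) := by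
    calc 4 * U = 1 * (4 * (U * 1 * 1)) := by ring
      _ ≤ k * (4 * (U * H * (H * E))) := by gcongr
      _ = _ := by ring
  calc _ ≤ k * (H ^ 2 * (U * E) + H ^ 2 * (U * E) + H ^ 2 * (U * E) + H ^ 2 * (U * E)) +
        k * (4 * (H ^ 2 * (U * E))) := by gcongr
    _ = _ := by ring

lemma x_alg {U H X x : ℝ} (hx : X = Real.exp x) :
    (U + X) * Real.exp (-x) * (H + X) * H = U * H ^ 2 * Real.exp (-x) + U * H + H ^ 2 + H * X := by
  have h : X * Real.exp (-x) = 1 := by rw [hx, ← Real.exp_add]; simp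
  have : (U + X) * Real.exp (-x) * (H + X) * H = U * H ^ 2 * Real.exp (-x) +
    U * H * (X * Real.exp (-x)) + (X * Real.exp (-x)) * (H ^ 2 + H * X) := by ring
  rw [this, h]
  ring

/-- the count in the window -/
lemma NN_win {F : ℂ → ℂ} (hF : GoodL F) (η : ℝ) (hη : 0 < η) (hη1 : η ≤ 1) :
    ∃ C T0 : ℝ, 0 < C ∧ 10 ≤ T0 ∧ ∀ T : ℝ, T0 ≤ T → ∀ t1 t2 : ℝ, 2 * T ≤ t1 →
      t2 ≤ 4 * T → Real.exp (η * Real.log T) ≤ t2 - t1 →
      |(NN F t1 t2 : ℝ) - (t2 - t1) * Real.log T / (2 * Real.pi)| ≤ C * (t2 - t1) := by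
  obtain ⟨C, hC, h⟩ := SI.nn_short hF
  obtain ⟨T3, hT3⟩ := (Real.tendsto_log_atTop.eventually_ge_atTop
    (max 40 (24 / η ^ 4))).exists_forall_of_atTop
  refine ⟨5 * C + 1, max 10 T3, by positivity, le_max_left _ _, fun T hT t1 t2 ht1 ht2 hH => ?_⟩
  have hT10 : 10 ≤ T := (le_max_left _ _).trans hT
  have hTT3 : T3 ≤ T := (le_max_right _ _).trans hT
  have hLbig := hT3 T hTT3
  set L := Real.log T with hL
  have hL40 : 40 ≤ L := (le_max_left _ _).trans hLbig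
  obtain ⟨hcube, -⟩ := cube_le_exp hη hη1 ((le_max_right _ _).trans hLbig)
  set H := t2 - t1 with hHd
  have hL3 : L ^ 3 ≤ H := hcube.trans hH
  have hL2 : L ^ 2 ≤ H := by nlinarith [sq_nonneg L]
  have hH3 : 3 ≤ H := by nlinarith
  have hlog2 : Real.log (2 * T) = Real.log 2 + L := by
    rw [Real.log_mul (by norm_num) (by linarith)]
  have hl2 : 0 ≤ Real.log 2 := Real.log_nonneg (by norm_num)
  have hl2' : Real.log 2 ≤ 1 := by
    have := Real.log_two_lt_d9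
    linarith
  have h1 := h (2 * T) (by linarith) t1 t2 ht1 (by linarith) (by linarith)
  rw [hlog2] at h1
  have hpi : 1 ≤ 2 * Real.pi := by linarith [Real.pi_gt_three]
  have h2 : |(t2 - t1) * (Real.log 2 + L) / (2 * Real.pi) - H * L / (2 * Real.pi)| ≤ H := by
    rw [← hHd]
    have e : H * (Real.log 2 + L) / (2 * Real.pi) - H * L / (2 * Real.pi) =
        H * Real.log 2 / (2 * Real.pi) := by ring
    rw [e, abs_of_nonneg (by positivity), div_le_iff₀ (by positivity)]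
    nlinarith
  have h3 : (Real.log 2 + L) ^ 2 ≤ 4 * L ^ 2 := by nlinarith
  have h4 := abs_sub_le (NN F t1 t2 : ℝ) ((t2 - t1) * (Real.log 2 + L) / (2 * Real.pi))
    (H * L / (2 * Real.pi))
  have h5 : C * ((t2 - t1) + (Real.log 2 + L) ^ 2) ≤ C * (5 * H) := by
    gcongr
    linarith
  linarith

lemma bdd_of_supp {ψ : ℝ → ℝ} {μ : ℝ} (hψ : Continuous ψ) (hz : ∀ x, μ ≤ |x| → ψ x = 0) :
    ∃ M : ℝ, 0 < M ∧ ∀ x, |ψ x| ≤ M := by
  obtain ⟨M, hM⟩ := (isCompact_Icc (a := -μ) (b := μ)).exists_bound_of_continuousOn hψ.continuousOn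
  refine ⟨|M| + 1, by positivity, fun x => ?_⟩
  rcases le_or_gt μ |x| with h | h
  · rw [hz x h, abs_zero]; positivity
  · obtain ⟨h3, h4⟩ := abs_lt.1 h
    have h5 := hM x ⟨h3.le, h4.le⟩
    rw [Real.norm_eq_abs] at h5
    have := le_abs_self M
    linarith

/-- the smooth pair sum at almost all distances -/
theorem core {F : ℂ → ℂ} (hF : GoodL F) (hl : Line F) {a : ℕ → ℂ}
    (ha : ∀ n, ‖a n‖ ≤ ArithmeticFunction.vonMangoldt n)
    (hld : ∀ s : ℂ, 1 < s.re → 1 ≤ s.im → deriv F s / F s = - ∑' n : ℕ, a n * (n : ℂ) ^ (-s))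
    (η c μ θ ε : ℝ) (hη : 0 < η) (hη1 : η ≤ 1) (hc : 0 < c) (hμ : 0 < μ)
    (hμ4 : μ * (1 + θ) ≤ 4) (hgap : μ * (1 + θ) < η + c) (hε : 0 < ε)
    (ψ : ℝ → ℝ) (hψ : Continuous ψ)
    (hz : ∀ x, μ ≤ |x| → ψ x = 0) (C : ℝ) (hC : ∀ x, |RR ψ μ x| * x ^ 2 ≤ C) :
    ∃ δ : ℝ, 0 < δ ∧ ∃ T0 : ℝ, 10 ≤ T0 ∧ ∀ T : ℝ, T0 ≤ T → ∀ Λ : ℝ, Real.log T ≤ Λ →
      Λ ≤ (1 + θ) * Real.log T → ∀ t1 t2 : ℝ, 2 * T ≤ t1 → t2 ≤ 4 * T →
      Real.exp (η * Real.log T) ≤ t2 - t1 → ∀ u0 u1 : ℝ, 0 ≤ u0 → u1 ≤ 4 * T →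
      Real.exp (c * Real.log T) ≤ u1 - u0 →
      volume {u : ℝ | u ∈ Set.Icc u0 u1 ∧
        ¬ (|SS F ψ μ Λ T t1 t2 u - (t2 - t1) * Real.log T / (2 * Real.pi) *
            (Real.log T / Λ * ψ 0)| ≤ ε * ((t2 - t1) * Real.log T))} ≤
        ENNReal.ofReal ((u1 - u0) * Real.exp (-(δ * Real.log T))) := by
  have hC0 : 0 ≤ C := by
    have := hC 0
    simp at this
    exact this
  obtain ⟨M, hM0, hMb⟩ := bdd_of_supp hψ hz
  obtain ⟨K, hK, hlip⟩ := cont_dev hψ hMb (ε / 8) (by positivity)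
  obtain ⟨Cq, hCq, hQs⟩ := Q_small_int hF hl ha hld η hη hη1
  obtain ⟨Cw, hCw, hSG⟩ := SG_SS hF
  obtain ⟨Cn, T5, hCn, hT5, hNN⟩ := NN_win hF η hη hη1
  set α0 : ℝ := min (min (η / 2) μ) (min 1 (ε / (16 * M * Cq))) with hα0d
  have hα0 : 0 < α0 := by
    rw [hα0d]
    exact lt_min (lt_min (by positivity) hμ) (lt_min one_pos (by positivity))
  have hα0η : α0 ≤ η / 2 := (min_le_left _ _).trans (min_le_left _ _)
  have hα0μ : α0 ≤ μ := (min_le_left _ _).trans (min_le_right _ _)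
  have hα01 : α0 ≤ 1 := (min_le_right _ _).trans (min_le_left _ _)
  have hα0ε : α0 ≤ ε / (16 * M * Cq) := (min_le_right _ _).trans (min_le_right _ _)
  have hα0sq : 2 * M * Cq * α0 ^ 2 ≤ ε / 8 := by
    have h1 : α0 ^ 2 ≤ α0 := by nlinarith
    calc 2 * M * Cq * α0 ^ 2 ≤ 2 * M * Cq * (ε / (16 * M * Cq)) := by
          gcongr
          exact h1.trans hα0ε
      _ = ε / 8 := by field_simp; norm_num
  obtain ⟨T6, hT6, hQs6⟩ := hQs α0 hα0 hα0η
  set μ' : ℝ := μ * (1 + θ) with hμ'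
  set δ0 : ℝ := min (min η c) (min α0 (η + c - μ')) with hδ0d
  have hδ0 : 0 < δ0 := by
    rw [hδ0d]
    exact lt_min (lt_min hη hc) (lt_min hα0 (by linarith))
  have d1 : δ0 ≤ η := (min_le_left _ _).trans (min_le_left _ _)
  have d2 : δ0 ≤ c := (min_le_left _ _).trans (min_le_right _ _)
  have d3 : δ0 ≤ α0 := (min_le_right _ _).trans (min_le_left _ _)
  have d4 : δ0 ≤ η + c - μ' := (min_le_right _ _).trans (min_le_right _ _)
  set κ : ℝ := δ0 / 40 with hκd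
  have hκ : 0 < κ := by positivity
  obtain ⟨T7, hT7, hQl⟩ := Q_large hF hl ha hld η κ hη hη1 hκ (by rw [hκd]; linarith)
  set Z : ℝ := 2 * M * Cq + 4 * K + 50 * C * Cw + M * Cn with hZ
  have hZ0 : 0 < Z := by positivity
  obtain ⟨T8, hT8⟩ := (Real.tendsto_log_atTop.eventually_ge_atTop
    (max (max 1 (2 * Z / ε)) (max (8 * M * μ / ε) (max (6 / δ0) (2 * Cn))))).exists_forall_of_atTop
  refine ⟨δ0 / 4, by positivity, max (max T5 T6) (max T7 T8),
    hT5.trans ((le_max_left _ _).trans (le_max_left _ _)),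
    fun T hT Λ hΛ1 hΛ2 t1 t2 ht1 ht2 hH u0 u1 hu0 hu1 hU => ?_⟩
  have hTT5 : T5 ≤ T := ((le_max_left _ _).trans (le_max_left _ _)).trans hT
  have hTT6 : T6 ≤ T := ((le_max_right _ _).trans (le_max_left _ _)).trans hT
  have hTT7 : T7 ≤ T := ((le_max_left _ _).trans (le_max_right _ _)).trans hT
  have hTT8 : T8 ≤ T := ((le_max_right _ _).trans (le_max_right _ _)).trans hT
  have hT10 : 10 ≤ T := hT5.trans hTT5
  have hLbig := hT8 T hTT8
  set L := Real.log T with hL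
  have hL1 : 1 ≤ L := ((le_max_left _ _).trans (le_max_left _ _)).trans hLbig
  have hLZ : 2 * Z / ε ≤ L := ((le_max_right _ _).trans (le_max_left _ _)).trans hLbig
  have hLM : 8 * M * μ / ε ≤ L := ((le_max_left _ _).trans (le_max_right _ _)).trans hLbig
  have hLδ : 6 / δ0 ≤ L :=
    (((le_max_left _ _).trans (le_max_right _ _)).trans (le_max_right _ _)).trans hLbig
  have hLn : 2 * Cn ≤ L :=
    (((le_max_right _ _).trans (le_max_right _ _)).trans (le_max_right _ _)).trans hLbig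
  have hL0 : 0 < L := by linarith
  have hΛ0 : 0 < Λ := by linarith
  set H := t2 - t1 with hHd
  set U := u1 - u0 with hUd
  have hH0 : 0 < H := lt_of_lt_of_le (Real.exp_pos _) hH
  have hU0 : 0 < U := lt_of_lt_of_le (Real.exp_pos _) hU
  have hu01 : u0 ≤ u1 := by linarith
  set A := α0 * L with hA
  set B := μ * Λ with hB
  have hA0 : 0 ≤ A := by positivity
  have hAB : A ≤ B := by
    rw [hA, hB]; gcongr
  have hBμ : B ≤ μ' * L := by
    rw [hB, hμ']
    calc μ * Λ ≤ μ * ((1 + θ) * L) := by gcongr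
      _ = _ := by ring
  have hB4 : B ≤ 4 * L := hBμ.trans (by gcongr)
  -- the mean square
  set S : ℝ := Real.exp (10 * (κ * L)) * (U * H ^ 2 * Real.exp (-(α0 * L)) + U * H + H ^ 2 +
      H * Real.exp (μ' * L)) + 4 * U with hS
  have hSx : ∀ x ∈ Set.Icc A B, ∫ u in u0..u1, ‖Qf F T t1 t2 x u‖ ^ 2 ≤ S := by
    intro x hx
    have h1 := hQl T hTT7 t1 t2 ht1 (by linarith) hH x (hA0.trans hx.1) (hx.2.trans hB4) u0 u1
      hu0 hu01 hu1
    rw [← hUd, ← hHd, x_alg rfl] at h1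
    refine h1.trans ?_
    rw [hS]
    have e1 : Real.exp (-x) ≤ Real.exp (-(α0 * L)) := by
      apply Real.exp_le_exp.2
      have := hx.1
      linarith
    have e2 : Real.exp x ≤ Real.exp (μ' * L) := Real.exp_le_exp.2 (hx.2.trans hBμ)
    gcongr
  have hGint := GG_int F T t1 t2 hAB hSx
  have hSalg := S_alg hL0 hκ.le hη.le hc.le hH hU d1 d2 d3 d4
  rw [← hS] at hSalg
  set y : ℝ := (ε * H * L / (8 * M)) ^ 2 * (Λ / μ) with hy
  have hy0 : 0 < y := by positivity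
  have hmk := markov_Icc (GG_cont F T t1 t2 A B) (GG_nonneg F T t1 t2 hAB) hu01 hy0
  have hsub : {u : ℝ | u ∈ Set.Icc u0 u1 ∧
        ¬ (|SS F ψ μ Λ T t1 t2 u - H * L / (2 * Real.pi) * (L / Λ * ψ 0)| ≤ ε * (H * L))} ⊆
      {u : ℝ | u ∈ Set.Icc u0 u1 ∧ y ≤ GG F T t1 t2 A B u} := by
    rintro u ⟨hu, hbad⟩
    refine ⟨hu, ?_⟩
    by_contra hcon
    push Not at hcon
    apply hbad
    have hu0' : 0 ≤ u := hu0.trans hu.1
    have hu4 : u ≤ 4 * T := hu.2.trans hu1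
    have m1 := SG_main (F := F) hψ hK hlip hz hμ hMb hΛ0 (by linarith : 1 ≤ T) t1 t2 u
    rw [← hL] at m1
    have m2 := hSG T hT10 t1 t2 (by linarith) ψ μ C hC0 hC Λ hΛ0 u
    rw [← hL] at m2
    have m3 := hNN T hTT5 t1 t2 ht1 ht2 hH
    rw [← hL, ← hHd] at m3
    have m4 := hQs6 T hTT6 t1 t2 ht1 (by linarith) hH u hu0' hu4
    rw [← hL, ← hHd, ← hA] at m4
    have m5 := Q_split F T t1 t2 u hAB
    set N : ℝ := (NN F t1 t2 : ℝ) with hN
    have hN0 : 0 ≤ N := Nat.cast_nonneg _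
    have hpi := Real.pi_gt_three
    have hNle : N ≤ H * L := by
      have h1 := (abs_le.1 m3).2
      have h2 : H * L / (2 * Real.pi) ≤ H * L / 2 := by
        apply div_le_div_of_nonneg_left (by positivity) (by norm_num) (by linarith)
      have h3 : Cn * H ≤ H * L / 2 := by
        calc Cn * H = H * (2 * Cn) / 2 := by ring
          _ ≤ H * L / 2 := by gcongr
      linarith
    have hLN : L * N / Λ ^ 2 ≤ H := by
      rw [div_le_iff₀ (by positivity)]
      calc L * N ≤ L * (H * L) := by gcongr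
        _ = H * L ^ 2 := by ring
        _ ≤ H * Λ ^ 2 := by gcongr
    have hsq : Real.sqrt ((B - A) * GG F T t1 t2 A B u) ≤ ε * H * L / (8 * M) * Λ := by
      rw [Real.sqrt_le_left (by positivity)]
      have h1 : (B - A) * GG F T t1 t2 A B u ≤ B * y := by
        have h2 := GG_nonneg F T t1 t2 hAB u
        have h3 : B - A ≤ B := by linarith
        have h4 : 0 ≤ B := by linarith
        calc _ ≤ B * GG F T t1 t2 A B u := by gcongr
          _ ≤ B * y := by gcongr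
      refine h1.trans (le_of_eq ?_)
      rw [hB, hy]
      field_simp
    have hI : 2 * M / Λ * (∫ x in (0 : ℝ)..B, ‖Qf F T t1 t2 x u‖) ≤
        2 * M * Cq * H + ε / 8 * (H * L) + ε / 4 * (H * L) := by
      have h1 : (∫ x in (0 : ℝ)..B, ‖Qf F T t1 t2 x u‖) ≤
          Cq * (H * (L + α0 ^ 2 * L ^ 2)) + ε * H * L / (8 * M) * Λ := by linarith
      calc 2 * M / Λ * (∫ x in (0 : ℝ)..B, ‖Qf F T t1 t2 x u‖) ≤
          2 * M / Λ * (Cq * (H * (L + α0 ^ 2 * L ^ 2)) + ε * H * L / (8 * M) * Λ) := by gcongr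
        _ = L / Λ * (2 * M * Cq * H) + L / Λ * ((2 * M * Cq * α0 ^ 2) * (H * L)) +
            ε / 4 * (H * L) := by
            field_simp
            ring
        _ ≤ 1 * (2 * M * Cq * H) + 1 * (ε / 8 * (H * L)) + ε / 4 * (H * L) := by
            have h2 : L / Λ ≤ 1 := by rw [div_le_one hΛ0]; exact hΛ1
            gcongr
        _ = _ := by ring
    have m6 : |L * N * (ψ 0 / Λ) - H * L / (2 * Real.pi) * (L / Λ * ψ 0)| ≤ M * Cn * H := by
      have e : L * N * (ψ 0 / Λ) - H * L / (2 * Real.pi) * (L / Λ * ψ 0) =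
          (L / Λ) * (ψ 0 * (N - H * L / (2 * Real.pi))) := by ring
      rw [e, abs_mul, abs_mul, abs_of_pos (by positivity : 0 < L / Λ)]
      have h2 : L / Λ ≤ 1 := by rw [div_le_one hΛ0]; exact hΛ1
      calc L / Λ * (|ψ 0| * |N - H * L / (2 * Real.pi)|) ≤ 1 * (M * (Cn * H)) := by
            gcongr
            exact hMb 0
        _ = _ := by ring
    have m10 : ε / 8 * (L * N) / Λ ≤ ε / 8 * (H * L) := by
      have h2 : L / Λ ≤ 1 := by rw [div_le_one hΛ0]; exact hΛ1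
      calc ε / 8 * (L * N) / Λ = ε / 8 * ((L / Λ) * N) := by ring
        _ ≤ ε / 8 * (1 * (H * L)) := by gcongr
        _ = _ := by ring
    have m7 : 4 * K * (L * N) / Λ ^ 2 ≤ 4 * K * H := by
      calc 4 * K * (L * N) / Λ ^ 2 = 4 * K * (L * N / Λ ^ 2) := by ring
        _ ≤ _ := by gcongr
    have m8 : 50 * C * Cw * (L * N) / Λ ^ 2 ≤ 50 * C * Cw * H := by
      calc 50 * C * Cw * (L * N) / Λ ^ 2 = 50 * C * Cw * (L * N / Λ ^ 2) := by ring
        _ ≤ _ := by gcongr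
    have m9 : Z * H ≤ ε / 2 * (H * L) := by
      rw [div_le_iff₀ hε] at hLZ
      calc Z * H = H * (2 * Z) / 2 := by ring
        _ ≤ H * (L * ε) / 2 := by gcongr
        _ = _ := by ring
    have e1 : SS F ψ μ Λ T t1 t2 u - H * L / (2 * Real.pi) * (L / Λ * ψ 0) =
        -(SG F ψ μ Λ T t1 t2 u - SS F ψ μ Λ T t1 t2 u) +
        ((SG F ψ μ Λ T t1 t2 u - L * N * (ψ 0 / Λ)) +
        (L * N * (ψ 0 / Λ) - H * L / (2 * Real.pi) * (L / Λ * ψ 0))) := by ring
    rw [e1]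
    refine (abs_add_le _ _).trans ?_
    rw [abs_neg]
    have h12 := abs_add_le (SG F ψ μ Λ T t1 t2 u - L * N * (ψ 0 / Λ))
      (L * N * (ψ 0 / Λ) - H * L / (2 * Real.pi) * (L / Λ * ψ 0))
    have hHL : 0 < H * L := by positivity
    have hεHL : 0 < ε * (H * L) := by positivity
    have hZH : Z * H = 2 * M * Cq * H + 4 * K * H + 50 * C * Cw * H + M * Cn * H := by
      rw [hZ]; ring
    linarith
  refine (measure_mono hsub).trans (hmk.trans (ENNReal.ofReal_le_ofReal ?_))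
  rw [div_le_iff₀ hy0]
  have f1 : (∫ u in u0..u1, GG F T t1 t2 A B u) ≤
      B * (H ^ 2 * (U * (8 * (Real.exp (10 * (κ * L)) * Real.exp (-(δ0 * L)))))) := by
    refine hGint.trans ?_
    have h1 : 0 ≤ B - A := by linarith
    have h2 : B - A ≤ B := by linarith
    have h3 : 0 ≤ S := by rw [hS]; positivity
    calc (B - A) * S ≤ B * S := by gcongr
      _ ≤ _ := by
        have : 0 ≤ B := by linarith
        gcongr
  refine f1.trans ?_
  have f2 : 8 * (Real.exp (10 * (κ * L)) * Real.exp (-(δ0 * L))) ≤ Real.exp (-(δ0 / 4 * L)) := by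
    have h1 : (8 : ℝ) ≤ Real.exp (δ0 / 2 * L) := by
      have h2 : (3 : ℝ) ≤ δ0 / 2 * L := by
        rw [div_le_iff₀ hδ0] at hLδ
        linarith
      have h3 : (8 : ℝ) ≤ Real.exp 3 := by
        have h4 : Real.exp 3 = Real.exp 1 ^ 3 := by rw [← Real.exp_nat_mul]; norm_num
        have h5 : (2 : ℝ) ≤ Real.exp 1 := by
          have := Real.add_one_le_exp (1 : ℝ)
          linarith
        rw [h4]
        calc (8 : ℝ) = 2 ^ 3 := by norm_num
          _ ≤ _ := by gcongr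
      exact h3.trans (Real.exp_le_exp.2 h2)
    calc 8 * (Real.exp (10 * (κ * L)) * Real.exp (-(δ0 * L))) ≤
        Real.exp (δ0 / 2 * L) * (Real.exp (10 * (κ * L)) * Real.exp (-(δ0 * L))) := by gcongr
      _ = Real.exp (-(δ0 / 4 * L)) := by
          rw [← Real.exp_add, ← Real.exp_add, hκd]; congr 1; ring
  have f3 : B * H ^ 2 ≤ y := by
    rw [hB, hy]
    have h1 : μ ≤ ε * L / (8 * M) := by
      rw [div_le_iff₀ hε] at hLM
      rw [le_div_iff₀ (by positivity)]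
      linarith
    have h2 : μ * μ ≤ (ε * L / (8 * M)) ^ 2 := by
      rw [sq]
      gcongr
    have h3 : (ε * H * L / (8 * M)) ^ 2 * (Λ / μ) = (ε * L / (8 * M)) ^ 2 * (H ^ 2 * (Λ / μ)) := by
      ring
    rw [h3]
    calc μ * Λ * H ^ 2 = μ * μ * (H ^ 2 * (Λ / μ)) := by field_simp
      _ ≤ _ := by gcongr
  calc B * (H ^ 2 * (U * (8 * (Real.exp (10 * (κ * L)) * Real.exp (-(δ0 * L)))))) =
      (B * H ^ 2) * (U * (8 * (Real.exp (10 * (κ * L)) * Real.exp (-(δ0 * L))))) := by ring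
    _ ≤ y * (U * Real.exp (-(δ0 / 4 * L))) := by gcongr
    _ = _ := by ring

end Pool.Agent.W2helper69.PS
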