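import Pool.Agent.H370R2.PC3

/-! The mean square in `u` of the correlation of a function with a shifted prime sum. -/

set_option autoImplicit false

open Complex Filter Topology Set MeasureTheory
open scoped BigOperators ComplexConjugate

namespace Pool.Agent.W2helper69.PS

open H370

lemma npow_cont (n : ℕ) (hn : 1 ≤ n) : Continuous fun v : ℝ => (n : ℂ) ^ (-(v : ℂ) * I) := by
  have hn0 : (n : ℂ) ≠ 0 := by exact_mod_cast (by omega : n ≠ 0)
  exact Continuous.const_cpow (by fun_prop) (Or.inl hn0)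

/-- the dual of the mean value theorem -/
theorem dual_mv {g : ℝ → ℂ} (hg : Continuous g) (X : ℕ) (hX : 1 ≤ X) (v1 v2 : ℝ) (hv : v1 ≤ v2) :
    ∑ n ∈ Finset.Icc 1 X, ‖∫ v in v1..v2, g v * (n : ℂ) ^ (-(v : ℂ) * I)‖ ^ 2 ≤
      (v2 - v1 + 8 * X * (1 + Real.log X)) * ∫ v in v1..v2, ‖g v‖ ^ 2 := by
  set c : ℕ → ℂ := fun n => ∫ v in v1..v2, g v * (n : ℂ) ^ (-(v : ℂ) * I) with hc
  set M : ℝ := v2 - v1 + 8 * X * (1 + Real.log X) with hM
  set G : ℝ := ∫ v in v1..v2, ‖g v‖ ^ 2 with hG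
  set S : ℝ := ∑ n ∈ Finset.Icc 1 X, ‖c n‖ ^ 2 with hS
  have hX1 : (1 : ℝ) ≤ X := by exact_mod_cast hX
  have hlog : 0 ≤ Real.log X := Real.log_nonneg hX1
  have hM0 : 0 < M := by
    have : 0 < 8 * (X : ℝ) * (1 + Real.log X) := by positivity
    rw [hM]; linarith
  have hG0 : 0 ≤ G := intervalIntegral.integral_nonneg hv fun v _ => by positivity
  have hS0 : 0 ≤ S := Finset.sum_nonneg fun _ _ => by positivity
  set P : ℝ → ℂ := fun v => ∑ n ∈ Finset.Icc 1 X, conj (c n) * (n : ℂ) ^ (-(v : ℂ) * I) with hP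
  have hPc : Continuous P := by
    simp only [hP]
    refine continuous_finsetSum _ fun n hn => ?_
    exact continuous_const.mul (npow_cont n (Finset.mem_Icc.1 hn).1)
  have hSeq : (S : ℂ) = ∫ v in v1..v2, g v * P v := by
    have e1 : ∀ v : ℝ, g v * P v = ∑ n ∈ Finset.Icc 1 X,
        conj (c n) * (g v * (n : ℂ) ^ (-(v : ℂ) * I)) := by
      intro v
      simp only [hP, Finset.mul_sum]
      refine Finset.sum_congr rfl fun n _ => ?_
      ring
    simp_rw [e1]
    rw [intervalIntegral.integral_finsetSum]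
    · rw [hS]
      push_cast
      refine Finset.sum_congr rfl fun n _ => ?_
      rw [intervalIntegral.integral_const_mul]
      rw [← Complex.conj_mul']
    · intro n hn
      apply Continuous.intervalIntegrable
      exact continuous_const.mul (hg.mul (npow_cont n (Finset.mem_Icc.1 hn).1))
  have hmv : ∫ v in v1..v2, ‖P v‖ ^ 2 ≤ M * S := by
    have h := mean_value (fun n => conj (c n)) X v1 v2 hv
    simp only [RCLike.norm_conj] at h
    exact h
  have h1 : S ≤ ∫ v in v1..v2, ‖g v‖ * ‖P v‖ := by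
    have h2 : ‖(S : ℂ)‖ ≤ ∫ v in v1..v2, ‖g v * P v‖ := by
      rw [hSeq]
      exact intervalIntegral.norm_integral_le_integral_norm hv
    rw [Complex.norm_real, Real.norm_of_nonneg hS0] at h2
    simpa only [norm_mul] using h2
  have h3 : ∫ v in v1..v2, ‖g v‖ * ‖P v‖ ≤
      ∫ v in v1..v2, (M / 2 * ‖g v‖ ^ 2 + 1 / (2 * M) * ‖P v‖ ^ 2) := by
    refine intervalIntegral.integral_mono_on hv ?_ ?_ fun v _ => ?_
    · exact (hg.norm.mul hPc.norm).intervalIntegrable _ _
    · exact ((continuous_const.mul (hg.norm.pow 2)).add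
        (continuous_const.mul (hPc.norm.pow 2))).intervalIntegrable _ _
    · have h4 : M / 2 * ‖g v‖ ^ 2 + 1 / (2 * M) * ‖P v‖ ^ 2 - ‖g v‖ * ‖P v‖ =
          1 / (2 * M) * (M * ‖g v‖ - ‖P v‖) ^ 2 := by
        field_simp; ring
      have h5 : 0 ≤ 1 / (2 * M) * (M * ‖g v‖ - ‖P v‖) ^ 2 := by positivity
      linarith
  have h4 : ∫ v in v1..v2, (M / 2 * ‖g v‖ ^ 2 + 1 / (2 * M) * ‖P v‖ ^ 2) =
      M / 2 * G + 1 / (2 * M) * ∫ v in v1..v2, ‖P v‖ ^ 2 := by
    rw [intervalIntegral.integral_add, intervalIntegral.integral_const_mul,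
      intervalIntegral.integral_const_mul]
    · exact (continuous_const.mul (hg.norm.pow 2)).intervalIntegrable _ _
    · exact (continuous_const.mul (hPc.norm.pow 2)).intervalIntegrable _ _
  have h5 : 1 / (2 * M) * ∫ v in v1..v2, ‖P v‖ ^ 2 ≤ 1 / (2 * M) * (M * S) := by gcongr
  have h6 : 1 / (2 * M) * (M * S) = S / 2 := by field_simp
  rw [h6] at h5
  linarith

section

variable {a : ℕ → ℂ} (ha : ∀ n, ‖a n‖ ≤ ArithmeticFunction.vonMangoldt n)

include ha in
/-- the mean square over `u` of the truncated correlation -/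
theorem ms_trunc {g : ℝ → ℂ} (hg : Continuous g) (x K : ℝ) (hK : 0 ≤ K) (X : ℕ) (hX : 1 ≤ X)
    (v1 v2 u0 u1 : ℝ) (hv : v1 ≤ v2) (hu : u0 ≤ u1) :
    ∫ u in u0..u1, ‖∫ v in v1..v2, g v * ∑ n ∈ Finset.Icc 1 X, pterm a x (v + u) n‖ ^ 2 ≤
      (u1 - u0 + 8 * X * (1 + Real.log X)) *
        (((Real.log X) ^ 2 * Real.exp (K - x) + 4 * Real.exp (-K ^ 2)) *
          ((v2 - v1 + 8 * X * (1 + Real.log X)) * ∫ v in v1..v2, ‖g v‖ ^ 2)) := by
  set g' : ℝ → ℂ := fun v => g v * cexp (I * v * x) with hg'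
  have hg'c : Continuous g' := by
    simp only [hg']
    fun_prop
  have hg'n : ∀ v, ‖g' v‖ = ‖g v‖ := by
    intro v
    simp only [hg']
    rw [norm_mul, show I * (v : ℂ) * x = ((v * x : ℝ) : ℂ) * I by push_cast; ring,
      Complex.norm_exp_ofReal_mul_I, mul_one]
  set c : ℕ → ℂ := fun n => ∫ v in v1..v2, g' v * (n : ℂ) ^ (-(v : ℂ) * I) with hc
  set β : ℕ → ℂ := fun n => a n * (Real.sqrt n : ℂ)⁻¹ * Real.exp (-(x - Real.log n) ^ 2 / 2) with hβ
  have hX1 : (1 : ℝ) ≤ X := by exact_mod_cast hX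
  have hlog : 0 ≤ Real.log X := Real.log_nonneg hX1
  -- the inner integral is a Dirichlet polynomial
  have h1 : ∀ u : ℝ, ‖∫ v in v1..v2, g v * ∑ n ∈ Finset.Icc 1 X, pterm a x (v + u) n‖ =
      ‖∑ n ∈ Finset.Icc 1 X, (β n * c n) * (n : ℂ) ^ (-(u : ℂ) * I)‖ := by
    intro u
    have e1 : ∀ v : ℝ, g v * ∑ n ∈ Finset.Icc 1 X, pterm a x (v + u) n =
        cexp (((u * x : ℝ) : ℂ) * I) * ∑ n ∈ Finset.Icc 1 X,
          (β n * (n : ℂ) ^ (-(u : ℂ) * I)) * (g' v * (n : ℂ) ^ (-(v : ℂ) * I)) := by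
      intro v
      rw [Finset.mul_sum, Finset.mul_sum]
      refine Finset.sum_congr rfl fun n hn => ?_
      have hn1 : 1 ≤ n := (Finset.mem_Icc.mp hn).1
      have hn0 : (n : ℂ) ≠ 0 := by exact_mod_cast (by omega : n ≠ 0)
      unfold pterm
      simp only [hβ, hg']
      have h3 : cexp (I * ((v + u : ℝ) : ℂ) * (x - Real.log n)) = cexp (((u * x : ℝ) : ℂ) * I) *
          ((n : ℂ) ^ (-(u : ℂ) * I) * (cexp (I * v * x) * (n : ℂ) ^ (-(v : ℂ) * I))) := by
        rw [Complex.cpow_def_of_ne_zero hn0, Complex.cpow_def_of_ne_zero hn0, ← Complex.exp_add,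
          ← Complex.exp_add, ← Complex.exp_add, ← Complex.natCast_log]
        congr 1
        push_cast
        ring
      push_cast at h3 ⊢
      rw [h3]; ring
    simp_rw [e1]
    rw [intervalIntegral.integral_const_mul, norm_mul, Complex.norm_exp_ofReal_mul_I, one_mul,
      intervalIntegral.integral_finsetSum]
    · congr 1
      refine Finset.sum_congr rfl fun n _ => ?_
      rw [intervalIntegral.integral_const_mul]
      simp only [hc]
      ring
    · intro n hn
      apply Continuous.intervalIntegrable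
      exact continuous_const.mul (hg'c.mul (npow_cont n (Finset.mem_Icc.1 hn).1))
  simp_rw [h1]
  refine (mean_value (fun n => β n * c n) X u0 u1 hu).trans ?_
  have hcoef : 0 ≤ u1 - u0 + 8 * X * (1 + Real.log X) := by
    have : 0 ≤ u1 - u0 := by linarith
    positivity
  apply mul_le_mul_of_nonneg_left _ hcoef
  have hw0 : 0 ≤ (Real.log X) ^ 2 * Real.exp (K - x) + 4 * Real.exp (-K ^ 2) := by positivity
  have h2 : ∀ n ∈ Finset.Icc 1 X, ‖β n * c n‖ ^ 2 ≤
      ((Real.log X) ^ 2 * Real.exp (K - x) + 4 * Real.exp (-K ^ 2)) * ‖c n‖ ^ 2 := by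
    intro n hn
    obtain ⟨hn1, hnX⟩ := Finset.mem_Icc.mp hn
    have hn0 : (0 : ℝ) < n := by exact_mod_cast hn1
    rw [norm_mul, mul_pow]
    apply mul_le_mul_of_nonneg_right _ (by positivity)
    have hb : ‖β n‖ ^ 2 ≤ (ArithmeticFunction.vonMangoldt n) ^ 2 / n *
        Real.exp (-(x - Real.log n) ^ 2) := by
      simp only [hβ]
      rw [norm_mul, norm_mul, norm_inv, Complex.norm_real, Complex.norm_real,
        Real.norm_of_nonneg (Real.sqrt_nonneg _), Real.norm_of_nonneg (Real.exp_pos _).le,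
        mul_pow, mul_pow, inv_pow, Real.sq_sqrt hn0.le, ← Real.exp_nat_mul, ← div_eq_mul_inv]
      have e1 : ((2 : ℕ) : ℝ) * (-(x - Real.log n) ^ 2 / 2) = -(x - Real.log n) ^ 2 := by
        push_cast; ring
      rw [e1]
      have := ha n
      gcongr
    refine hb.trans ?_
    rcases le_or_gt (x - K) (Real.log n) with h | h
    · have h3 : (ArithmeticFunction.vonMangoldt n) ^ 2 / n * Real.exp (-(x - Real.log n) ^ 2) ≤
          (Real.log X) ^ 2 * Real.exp (K - x) := by
        have h4 : ArithmeticFunction.vonMangoldt n ≤ Real.log X :=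
          ArithmeticFunction.vonMangoldt_le_log.trans
            (Real.log_le_log hn0 (by exact_mod_cast hnX))
        have h5 : Real.exp (-(x - Real.log n) ^ 2) ≤ 1 := by
          apply Real.exp_le_one_iff.2
          nlinarith [sq_nonneg (x - Real.log n)]
        have h6 : (1 : ℝ) / n ≤ Real.exp (K - x) := by
          rw [one_div, ← Real.exp_log hn0, ← Real.exp_neg]
          apply Real.exp_le_exp.2
          linarith
        calc (ArithmeticFunction.vonMangoldt n) ^ 2 / n * Real.exp (-(x - Real.log n) ^ 2)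
            ≤ (ArithmeticFunction.vonMangoldt n) ^ 2 / n * 1 := by gcongr
          _ = (ArithmeticFunction.vonMangoldt n) ^ 2 * (1 / n) := by ring
          _ ≤ (Real.log X) ^ 2 * Real.exp (K - x) := by
              have h7 : 0 ≤ ArithmeticFunction.vonMangoldt n :=
                ArithmeticFunction.vonMangoldt_nonneg
              gcongr
      have : 0 ≤ 4 * Real.exp (-K ^ 2) := by positivity
      linarith
    · have h3 : (ArithmeticFunction.vonMangoldt n) ^ 2 / n * Real.exp (-(x - Real.log n) ^ 2) ≤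
          4 * Real.exp (-K ^ 2) := by
        have h4 := vM_le n
        have h7 : 0 ≤ ArithmeticFunction.vonMangoldt n := ArithmeticFunction.vonMangoldt_nonneg
        have h5 : (ArithmeticFunction.vonMangoldt n) ^ 2 / n ≤ 4 := by
          rw [div_le_iff₀ hn0]
          calc (ArithmeticFunction.vonMangoldt n) ^ 2 ≤ (2 * Real.sqrt n) ^ 2 :=
                pow_le_pow_left₀ h7 h4 2
            _ = 4 * n := by rw [mul_pow, Real.sq_sqrt hn0.le]; norm_num
        have h6 : Real.exp (-(x - Real.log n) ^ 2) ≤ Real.exp (-K ^ 2) := by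
          apply Real.exp_le_exp.2
          nlinarith
        gcongr
      have : 0 ≤ (Real.log X) ^ 2 * Real.exp (K - x) := by positivity
      linarith
  refine (Finset.sum_le_sum h2).trans ?_
  rw [← Finset.mul_sum]
  apply mul_le_mul_of_nonneg_left _ hw0
  have h3 := dual_mv hg'c X hX v1 v2 hv
  simp_rw [hg'n] at h3
  exact h3

lemma ptX_cont (x : ℝ) (X : ℕ) : Continuous fun t : ℝ => ∑ n ∈ Finset.Icc 1 X, pterm a x t n := by
  unfold pterm; fun_prop

lemma int_sq_le {g : ℝ → ℂ} (hg : Continuous g) (v1 v2 : ℝ) (hv : v1 ≤ v2) :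
    (∫ v in v1..v2, ‖g v‖) ^ 2 ≤ (v2 - v1) * ∫ v in v1..v2, ‖g v‖ ^ 2 := by
  rcases hv.eq_or_lt with h | h
  · subst h; simp
  set I1 := ∫ v in v1..v2, ‖g v‖ with hI1
  set G := ∫ v in v1..v2, ‖g v‖ ^ 2 with hG
  have hV : 0 < v2 - v1 := by linarith
  have h0 : 0 ≤ ∫ v in v1..v2, (‖g v‖ - I1 / (v2 - v1)) ^ 2 :=
    intervalIntegral.integral_nonneg hv fun v _ => by positivity
  have h1 : ∫ v in v1..v2, (‖g v‖ - I1 / (v2 - v1)) ^ 2 = G - I1 ^ 2 / (v2 - v1) := by
    have e1 : ∀ v : ℝ, (‖g v‖ - I1 / (v2 - v1)) ^ 2 =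
        ‖g v‖ ^ 2 - (2 * (I1 / (v2 - v1)) * ‖g v‖ - (I1 / (v2 - v1)) ^ 2) := fun v => by ring
    simp_rw [e1]
    rw [intervalIntegral.integral_sub, intervalIntegral.integral_sub,
      intervalIntegral.integral_const_mul, intervalIntegral.integral_const, smul_eq_mul]
    · field_simp
      ring
    · exact (continuous_const.mul hg.norm).intervalIntegrable _ _
    · exact continuous_const.intervalIntegrable _ _
    · exact (hg.norm.pow 2).intervalIntegrable _ _
    · exact ((continuous_const.mul hg.norm).sub continuous_const).intervalIntegrable _ _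
  rw [h1] at h0
  have h2 : I1 ^ 2 / (v2 - v1) ≤ G := by linarith
  rw [div_le_iff₀ hV] at h2
  linarith

include ha in
/-- the mean square over `u` of the correlation -/
theorem ms_full {g : ℝ → ℂ} (hg : Continuous g) (x K D : ℝ) (hK : 0 ≤ K) (hD : 0 ≤ D) (X : ℕ)
    (hX : 1 ≤ X) (hXx : x + D ≤ Real.log (X + 1))
    (v1 v2 u0 u1 : ℝ) (hv : v1 ≤ v2) (hu : u0 ≤ u1) :
    ∫ u in u0..u1, ‖∫ v in v1..v2, g v * PP a x (v + u)‖ ^ 2 ≤
      2 * ((u1 - u0 + 8 * X * (1 + Real.log X)) *
        (((Real.log X) ^ 2 * Real.exp (K - x) + 4 * Real.exp (-K ^ 2)) *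
          ((v2 - v1 + 8 * X * (1 + Real.log X)) * ∫ v in v1..v2, ‖g v‖ ^ 2))) +
      2 * ((u1 - u0) * ((2 * (∑' n : ℕ, 1 / (n : ℝ) ^ 2) *
        (Real.exp (4 + 2 * x) * Real.exp (-D ^ 2 / 4))) ^ 2 *
          ((v2 - v1) * ∫ v in v1..v2, ‖g v‖ ^ 2))) := by
  set E := 2 * (∑' n : ℕ, 1 / (n : ℝ) ^ 2) *
        (Real.exp (4 + 2 * x) * Real.exp (-D ^ 2 / 4)) with hE
  have hE0 : 0 ≤ E := by
    have : 0 ≤ ∑' n : ℕ, 1 / (n : ℝ) ^ 2 := tsum_nonneg fun n => by positivity
    positivity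
  have hPPc := PP_cont ha x
  have hPXc := ptX_cont (a := a) x X
  set G := ∫ v in v1..v2, ‖g v‖ ^ 2 with hG
  have hGi := int_sq_le hg v1 v2 hv
  have hg1 : 0 ≤ ∫ v in v1..v2, ‖g v‖ := intervalIntegral.integral_nonneg hv fun v _ => norm_nonneg _
  -- pointwise comparison
  have hpt : ∀ u : ℝ, ‖∫ v in v1..v2, g v * PP a x (v + u)‖ ^ 2 ≤
      2 * ‖∫ v in v1..v2, g v * ∑ n ∈ Finset.Icc 1 X, pterm a x (v + u) n‖ ^ 2 +
        2 * (E ^ 2 * ((v2 - v1) * G)) := by
    intro u
    set A1 := ∫ v in v1..v2, g v * ∑ n ∈ Finset.Icc 1 X, pterm a x (v + u) n with hA1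
    have hi1 : IntervalIntegrable (fun v => g v * PP a x (v + u)) volume v1 v2 :=
      (hg.mul (hPPc.comp (by fun_prop : Continuous fun v : ℝ => v + u))).intervalIntegrable _ _
    have hi2 : IntervalIntegrable (fun v => g v * ∑ n ∈ Finset.Icc 1 X, pterm a x (v + u) n)
        volume v1 v2 :=
      (hg.mul (hPXc.comp (by fun_prop : Continuous fun v : ℝ => v + u))).intervalIntegrable _ _
    have e1 : (∫ v in v1..v2, g v * PP a x (v + u)) - A1 =
        ∫ v in v1..v2, g v * (PP a x (v + u) - ∑ n ∈ Finset.Icc 1 X, pterm a x (v + u) n) := by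
      rw [hA1, ← intervalIntegral.integral_sub hi1 hi2]
      refine intervalIntegral.integral_congr fun v _ => ?_
      ring
    have e2 : ‖(∫ v in v1..v2, g v * PP a x (v + u)) - A1‖ ≤ E * ∫ v in v1..v2, ‖g v‖ := by
      rw [e1, ← intervalIntegral.integral_const_mul]
      apply intervalIntegral.norm_integral_le_of_norm_le hv
      · refine Filter.Eventually.of_forall fun v _ => ?_
        rw [norm_mul, mul_comm]
        exact mul_le_mul_of_nonneg_right (PP_trunc ha x (v + u) D X hD hXx) (norm_nonneg _)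
      · exact (continuous_const.mul hg.norm).intervalIntegrable _ _
    have e3 : ‖∫ v in v1..v2, g v * PP a x (v + u)‖ ≤ ‖A1‖ + E * ∫ v in v1..v2, ‖g v‖ := by
      have := norm_add_le A1 ((∫ v in v1..v2, g v * PP a x (v + u)) - A1)
      rw [add_sub_cancel] at this
      linarith
    have e4 : ‖∫ v in v1..v2, g v * PP a x (v + u)‖ ^ 2 ≤
        (‖A1‖ + E * ∫ v in v1..v2, ‖g v‖) ^ 2 := pow_le_pow_left₀ (norm_nonneg _) e3 2
    have e5 : (‖A1‖ + E * ∫ v in v1..v2, ‖g v‖) ^ 2 ≤
        2 * ‖A1‖ ^ 2 + 2 * (E * ∫ v in v1..v2, ‖g v‖) ^ 2 := by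
      nlinarith [sq_nonneg (‖A1‖ - E * ∫ v in v1..v2, ‖g v‖)]
    have e6 : (E * ∫ v in v1..v2, ‖g v‖) ^ 2 ≤ E ^ 2 * ((v2 - v1) * G) := by
      rw [mul_pow]
      gcongr
    linarith
  have hc1 : Continuous fun u : ℝ => ∫ v in v1..v2, g v * PP a x (v + u) := by
    apply intervalIntegral.continuous_parametric_intervalIntegral_of_continuous'
    show Continuous (Function.uncurry fun u v => g v * PP a x (v + u))
    unfold Function.uncurry
    exact (hg.comp continuous_snd).mul (hPPc.comp (continuous_snd.add continuous_fst))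
  have hc2 : Continuous fun u : ℝ =>
      ∫ v in v1..v2, g v * ∑ n ∈ Finset.Icc 1 X, pterm a x (v + u) n := by
    apply intervalIntegral.continuous_parametric_intervalIntegral_of_continuous'
    show Continuous (Function.uncurry fun u v => g v * ∑ n ∈ Finset.Icc 1 X, pterm a x (v + u) n)
    unfold Function.uncurry
    exact (hg.comp continuous_snd).mul (hPXc.comp (continuous_snd.add continuous_fst))
  calc ∫ u in u0..u1, ‖∫ v in v1..v2, g v * PP a x (v + u)‖ ^ 2
      ≤ ∫ u in u0..u1, (2 * ‖∫ v in v1..v2, g v * ∑ n ∈ Finset.Icc 1 X, pterm a x (v + u) n‖ ^ 2 +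
        2 * (E ^ 2 * ((v2 - v1) * G))) := by
        refine intervalIntegral.integral_mono_on hu ?_ ?_ fun u _ => hpt u
        · exact (hc1.norm.pow 2).intervalIntegrable _ _
        · exact ((continuous_const.mul (hc2.norm.pow 2)).add continuous_const).intervalIntegrable _ _
    _ = 2 * (∫ u in u0..u1, ‖∫ v in v1..v2, g v * ∑ n ∈ Finset.Icc 1 X, pterm a x (v + u) n‖ ^ 2) +
        2 * ((u1 - u0) * (E ^ 2 * ((v2 - v1) * G))) := by
        rw [intervalIntegral.integral_add, intervalIntegral.integral_const_mul,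
          intervalIntegral.integral_const, smul_eq_mul]
        · ring
        · exact (continuous_const.mul (hc2.norm.pow 2)).intervalIntegrable _ _
        · exact continuous_const.intervalIntegrable _ _
    _ ≤ _ := by
        have := ms_trunc ha hg x K hK X hX v1 v2 u0 u1 hv hu
        linarith

end

end Pool.Agent.W2helper69.PS
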