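import Pool.Agent.W2helper69.PS.Basic
import Pool.Agent.W2helper69.PS.MSD

/-! The correlation identity: pairs of zeros at distance about `u` and prime sums. -/

set_option autoImplicit false

open Complex Filter Topology Set MeasureTheory
open scoped BigOperators ComplexConjugate

namespace Pool.Agent.W2helper69.PS

open H370 H370.A2

/-- the explicit formula for a subinterval of `(T, 16 T]` -/
theorem ef_sub4 {F : ℂ → ℂ} (hF : GoodL F) {a : ℕ → ℂ}
    (ha : ∀ n, ‖a n‖ ≤ ArithmeticFunction.vonMangoldt n)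
    (hld : ∀ s : ℂ, 1 < s.re → 1 ≤ s.im → deriv F s / F s = - ∑' n : ℕ, a n * (n : ℂ) ^ (-s)) :
    ∃ C T0 : ℝ, 0 < C ∧ 10 ≤ T0 ∧ ∀ T : ℝ, T0 ≤ T → ∀ A B : ℝ, T + 1 ≤ A → B ≤ 16 * T - 1 →
      ∀ u t : ℝ, 0 ≤ u → u ≤ 4 * Real.log T → A + Real.log T ≤ t → t ≤ B - Real.log T →
        ‖AA F A B u t -
          (1 / Real.sqrt (2 * Real.pi) : ℝ) * (Real.log T * cexp (I * u * t) *
              Real.exp (-u ^ 2 / 2) - PP a u t)‖ ≤ C * Real.exp (-u) := by
  classical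
  obtain ⟨C, T0, hC, hT0, hEF⟩ := ef_known4 hF ha hld
  obtain ⟨C2, hC2, hN⟩ := NN_crude16 hF
  refine ⟨C + 2 * C2, max T0 (Real.exp 20), by positivity, hT0.trans (le_max_left _ _),
    fun T hT A B hA hB u t hu huL ht1 ht2 => ?_⟩
  have hTT0 : T0 ≤ T := (le_max_left _ _).trans hT
  have hT10 : 10 ≤ T := hT0.trans hTT0
  have hTpos : 0 < T := by linarith
  obtain ⟨U1, U2, hU1, hU1', hU2', hU2, hmain⟩ := hEF T hTT0
  have hU : 1 ≤ U1 := by linarith
  have hUA : 1 ≤ A := by linarith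
  set L := Real.log T with hL
  have hL4 : 20 ≤ L := by
    rw [hL, Real.le_log_iff_exp_le hTpos]
    exact (le_max_right _ _).trans hT
  have h1 := hmain u t hu huL (by linarith) (by linarith)
  -- the zeros outside
  have hsub : Zf F A B ⊆ Zf F U1 U2 := by
    intro s hs
    rw [mem_Zf hF hUA] at hs
    rw [mem_Zf hF hU]
    exact ⟨hs.1, hs.2.1, by linarith [hs.2.2.1], by linarith [hs.2.2.2.1], hs.2.2.2.2⟩
  have hdiff : AA F U1 U2 u t - AA F A B u t =
      ∑ s ∈ Zf F U1 U2 \ Zf F A B, (mult F s : ℂ) * hh u t s := by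
    rw [AA_eq hF hU, AA_eq hF hUA, ← Finset.sum_sdiff hsub]
    ring
  have hnorm : ‖AA F U1 U2 u t - AA F A B u t‖ ≤ 2 * C2 * Real.exp (-u) := by
    rw [hdiff]
    have h2 : ∀ s ∈ Zf F U1 U2 \ Zf F A B, ‖(mult F s : ℂ) * hh u t s‖ ≤
        (mult F s : ℝ) * (2 * Real.exp (u / 2) * Real.exp (-L ^ 2 / 2)) := by
      intro s hs
      rw [Finset.mem_sdiff, mem_Zf hF hU, mem_Zf hF hUA] at hs
      obtain ⟨hs1, hs2⟩ := hs
      rw [norm_mul, Complex.norm_natCast]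
      apply mul_le_mul_of_nonneg_left _ (Nat.cast_nonneg _)
      refine (norm_hh_le hs1 u t hu).trans ?_
      have h3 : L ^ 2 ≤ (s.im - t) ^ 2 := by
        have h4 : s.im ≤ A ∨ B < s.im := by
          by_contra hcon
          push Not at hcon
          exact hs2 ⟨hs1.1, hs1.2.1, hcon.1, hcon.2, hs1.2.2.2.2⟩
        rcases h4 with h4 | h4
        · nlinarith
        · nlinarith
      apply mul_le_mul_of_nonneg_left _ (by positivity)
      apply Real.exp_le_exp.mpr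
      linarith
    refine (norm_sum_le _ _).trans ((Finset.sum_le_sum h2).trans ?_)
    rw [← Finset.sum_mul]
    have h3 : ∑ s ∈ Zf F U1 U2 \ Zf F A B, (mult F s : ℝ) ≤ C2 * (T * L) := by
      refine le_trans ?_ (hN T (by linarith) U1 U2 hU1 hU2)
      rw [NN_eq hF hU, Nat.cast_sum]
      exact Finset.sum_le_sum_of_subset_of_nonneg Finset.sdiff_subset fun _ _ _ => by positivity
    have h6 : L ≤ Real.exp L := by
      have := Real.add_one_le_exp L
      linarith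
    have h7 : T = Real.exp L := by rw [hL, Real.exp_log hTpos]
    calc (∑ s ∈ Zf F U1 U2 \ Zf F A B, (mult F s : ℝ)) *
          (2 * Real.exp (u / 2) * Real.exp (-L ^ 2 / 2))
        ≤ (C2 * (Real.exp L * Real.exp L)) *
          (2 * Real.exp (u / 2) * Real.exp (-L ^ 2 / 2)) := by
          apply mul_le_mul_of_nonneg_right _ (by positivity)
          refine h3.trans ?_
          rw [h7]
          have : 0 < Real.exp L := Real.exp_pos _
          gcongr
      _ = 2 * C2 * Real.exp (L + L + u / 2 + -L ^ 2 / 2) := by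
          rw [Real.exp_add, Real.exp_add, Real.exp_add]; ring
      _ ≤ 2 * C2 * Real.exp (-u) := by
          gcongr
          nlinarith
  calc ‖AA F A B u t - (1 / Real.sqrt (2 * Real.pi) : ℝ) * (Real.log T * cexp (I * u * t) *
              Real.exp (-u ^ 2 / 2) - PP a u t)‖
      = ‖(AA F U1 U2 u t - (1 / Real.sqrt (2 * Real.pi) : ℝ) * (Real.log T * cexp (I * u * t) *
              Real.exp (-u ^ 2 / 2) - PP a u t)) - (AA F U1 U2 u t - AA F A B u t)‖ := by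
        congr 1; ring
    _ ≤ _ := norm_sub_le _ _
    _ ≤ (C + 2 * C2) * Real.exp (-u) := by
        rw [add_mul]
        exact add_le_add h1 hnorm

/-! ### The function `hh` at a zero on the line -/

lemma hh_of_line {s : ℂ} (hs : s.re = 1 / 2) (x t : ℝ) :
    hh x t s = cexp (I * x * (s.im : ℂ)) * cexp (-((s.im : ℂ) - t) ^ 2 / 2) := by
  rw [hh_eq, zz_line hs]

lemma norm_hh_line {s : ℂ} (hs : s.re = 1 / 2) (x t : ℝ) :
    ‖hh x t s‖ = Real.exp (-(s.im - t) ^ 2 / 2) := by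
  rw [pc_norm_hh, hs]
  simp

lemma conj_hh_line {s : ℂ} (hs : s.re = 1 / 2) (x t : ℝ) :
    conj (hh x t s) = cexp (-(I * x * (s.im : ℂ))) * cexp (-((s.im : ℂ) - t) ^ 2 / 2) := by
  rw [hh_conj, zz_line hs, Complex.conj_ofReal]

lemma line_Zf {F : ℂ → ℂ} (hF : GoodL F) (hl : Line F) {A B : ℝ} (hA : 1 ≤ A) {s : ℂ}
    (hs : s ∈ Zf F A B) : s.re = 1 / 2 := by
  rw [mem_Zf hF hA] at hs
  exact hl s hs.2.2.2.2 hs.1 hs.2.1 (by linarith [hs.2.2.1])

lemma exp_le_weight (y : ℝ) : Real.exp (-y ^ 2 / 2) ≤ 2 * (1 / (1 + y ^ 2)) := by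
  have h := Real.add_one_le_exp (y ^ 2 / 2)
  have h0 : 0 < 1 + y ^ 2 := by positivity
  have h1 : (1 + y ^ 2) / 2 ≤ Real.exp (y ^ 2 / 2) := by linarith
  have h2 : Real.exp (-y ^ 2 / 2) = (Real.exp (y ^ 2 / 2))⁻¹ := by
    rw [← Real.exp_neg]; congr 1; ring
  rw [h2]
  calc (Real.exp (y ^ 2 / 2))⁻¹ ≤ ((1 + y ^ 2) / 2)⁻¹ := inv_anti₀ (by positivity) h1
    _ = 2 * (1 / (1 + y ^ 2)) := by rw [inv_div]; ring

lemma AA_sup {F : ℂ → ℂ} (hF : GoodL F) (hl : Line F) : ∃ C : ℝ, 0 < C ∧ ∀ T : ℝ, 10 ≤ T →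
    ∀ A B : ℝ, T ≤ A → B ≤ 16 * T → ∀ x v : ℝ, ‖AA F A B x v‖ ≤ C * Real.log T := by
  obtain ⟨C, hC, h⟩ := weight_sum16 hF
  refine ⟨2 * C, by positivity, fun T hT A B hA hB x v => ?_⟩
  have hA1 : 1 ≤ A := by linarith
  rw [AA_eq hF hA1]
  refine (norm_sum_le _ _).trans ?_
  have h1 : ∀ s ∈ Zf F A B, ‖(mult F s : ℂ) * hh x v s‖ ≤
      2 * ((mult F s : ℝ) * (1 / (1 + (s.im - v) ^ 2))) := by
    intro s hs
    rw [norm_mul, Complex.norm_natCast, norm_hh_line (line_Zf hF hl hA1 hs)]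
    have := exp_le_weight (s.im - v)
    have h0 : (0 : ℝ) ≤ mult F s := Nat.cast_nonneg _
    calc (mult F s : ℝ) * Real.exp (-(s.im - v) ^ 2 / 2)
        ≤ (mult F s : ℝ) * (2 * (1 / (1 + (s.im - v) ^ 2))) := by gcongr
      _ = _ := by ring
  refine (Finset.sum_le_sum h1).trans ?_
  rw [← Finset.mul_sum]
  have := h T hT A B hA hB v
  linarith

/-! ### The correlation sum -/

/-- the sum over the pairs of zeros with ordinates `γ ∈ (A, B]`, `γ' ∈ (A', B']` of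
`exp (i x (γ' - γ - u)) exp (-(γ' - γ - u)²/4)` -/
noncomputable def cc (F : ℂ → ℂ) (A B A' B' x u : ℝ) : ℂ :=
  ∑ s ∈ Zf F A B, ∑ s' ∈ Zf F A' B', (mult F s : ℂ) * (mult F s' : ℂ) *
    (cexp (I * x * ((s'.im - s.im - u : ℝ) : ℂ)) * cexp (-((s'.im - s.im - u : ℝ) : ℂ) ^ 2 / 4))

lemma conj_AA {F : ℂ → ℂ} (hF : GoodL F) (hl : Line F) {A B : ℝ} (hA : 1 ≤ A) (x v : ℝ) :
    conj (AA F A B x v) = ∑ s ∈ Zf F A B, (mult F s : ℂ) *
      (cexp (-(I * x * (s.im : ℂ))) * cexp (-((s.im : ℂ) - v) ^ 2 / 2)) := by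
  rw [AA_eq hF hA, map_sum]
  refine Finset.sum_congr rfl fun s hs => ?_
  rw [map_mul, conj_hh_line (line_Zf hF hl hA hs), map_natCast]

theorem corr_id {F : ℂ → ℂ} (hF : GoodL F) (hl : Line F) {A B A' B' : ℝ} (hA : 1 ≤ A)
    (hA' : 1 ≤ A') (x u : ℝ) :
    ∫ v : ℝ, conj (AA F A B x v) * AA F A' B' x (v + u) =
      (Real.sqrt Real.pi : ℂ) * cexp (I * x * u) * cc F A B A' B' x u := by
  have h1 : ∀ v : ℝ, conj (AA F A B x v) * AA F A' B' x (v + u) =
      ∑ s ∈ Zf F A B, ∑ s' ∈ Zf F A' B', (mult F s : ℂ) * (mult F s' : ℂ) *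
        (cexp (I * x * ((s'.im - s.im : ℝ) : ℂ)) *
        (cexp (-((s.im : ℂ) - v) ^ 2 / 2) * cexp (-(((s'.im - u : ℝ) : ℂ) - v) ^ 2 / 2))) := by
    intro v
    rw [conj_AA hF hl hA, AA_eq hF hA', Finset.sum_mul_sum]
    refine Finset.sum_congr rfl fun s _ => Finset.sum_congr rfl fun s' hs' => ?_
    rw [hh_of_line (line_Zf hF hl hA' hs')]
    have e1 : cexp (I * x * ((s'.im - s.im : ℝ) : ℂ)) =
        cexp (-(I * x * (s.im : ℂ))) * cexp (I * x * (s'.im : ℂ)) := by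
      rw [← Complex.exp_add]
      congr 1
      push_cast
      ring
    have e2 : -((s'.im : ℂ) - ((v + u : ℝ) : ℂ)) ^ 2 / 2 =
        -(((s'.im - u : ℝ) : ℂ) - v) ^ 2 / 2 := by
      push_cast
      ring
    rw [e1, e2]
    ring
  simp_rw [h1]
  rw [integral_finsetSum]
  · unfold cc
    rw [Finset.mul_sum]
    refine Finset.sum_congr rfl fun s _ => ?_
    rw [integral_finsetSum]
    · rw [Finset.mul_sum]
      refine Finset.sum_congr rfl fun s' _ => ?_
      rw [integral_const_mul, integral_const_mul, gauss_pair]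
      have e1 : cexp (I * x * ((s'.im - s.im : ℝ) : ℂ)) =
          cexp (I * x * u) * cexp (I * x * ((s'.im - s.im - u : ℝ) : ℂ)) := by
        rw [← Complex.exp_add]
        congr 1
        push_cast
        ring
      have e2 : -((s.im : ℂ) - ((s'.im - u : ℝ) : ℂ)) ^ 2 / 4 =
          -((s'.im - s.im - u : ℝ) : ℂ) ^ 2 / 4 := by
        push_cast
        ring
      rw [e1, e2]
      ring
    · intro s' _
      exact ((gauss_pair_int _ _).const_mul _).const_mul _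
  · intro s _
    refine integrable_finsetSum _ fun s' _ => ?_
    exact ((gauss_pair_int _ _).const_mul _).const_mul _

lemma gauss_char (x g : ℝ) : ∫ v : ℝ, cexp (-(I * x * (g : ℂ))) * cexp (-((g : ℂ) - v) ^ 2 / 2) *
    cexp (I * x * v) = (Real.sqrt (2 * Real.pi) : ℂ) * Real.exp (-x ^ 2 / 2) := by
  have h1 : ∀ v : ℝ, cexp (-(I * x * (g : ℂ))) * cexp (-((g : ℂ) - v) ^ 2 / 2) *
      cexp (I * x * v) = cexp ((-1 / 2 : ℂ) * (v : ℂ) ^ 2 + (g + I * x) * v +
        (-(g : ℂ) ^ 2 / 2 - I * x * g)) := by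
    intro v
    rw [← Complex.exp_add, ← Complex.exp_add]
    congr 1
    ring
  simp_rw [h1]
  rw [integral_cexp_quadratic (by norm_num)]
  have h2 : (Real.pi : ℂ) / -(-1 / 2) = ((2 * Real.pi : ℝ) : ℂ) := by push_cast; ring
  rw [h2, show (1 / 2 : ℂ) = ((1 / 2 : ℝ) : ℂ) by push_cast; ring,
    ← Complex.ofReal_cpow (by positivity), ← Real.sqrt_eq_rpow]
  congr 1
  rw [Complex.ofReal_exp]
  congr 1
  push_cast
  linear_combination ((x : ℂ) ^ 2 / 2) * I_sq

end Pool.Agent.W2helper69.PS
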