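import Pool.Agent.W2helper69.PS.MSD

/-! Truncation parameters and the mean square bound in asymptotic form. -/

set_option autoImplicit false

open Complex Filter Topology Set MeasureTheory
open scoped BigOperators ComplexConjugate

namespace Pool.Agent.W2helper69.PS

open H370

noncomputable def S2 : ℝ := ∑' n : ℕ, 1 / (n : ℝ) ^ 2

lemma S2_one : 1 ≤ S2 := by
  have h := sum_inv_sq.le_tsum 1 (fun n _ => by positivity)
  simpa [S2] using h

lemma trunc_par (κ : ℝ) (hκ : 0 < κ) (hκ1 : κ ≤ 1) : ∃ L0 : ℝ, 40 ≤ L0 ∧ ∀ L : ℝ, L0 ≤ L →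
    36 * L ^ 2 ≤ Real.exp (κ * L) ∧ Real.exp (-(κ * L) ^ 2 / 4) ≤ Real.exp (-(4 * L)) ∧
    ∀ x : ℝ, 0 ≤ x → x ≤ 4 * L → ∃ X : ℕ, 1 ≤ X ∧ x + κ * L ≤ Real.log (X + 1) ∧
      8 * (X : ℝ) * (1 + Real.log X) ≤ Real.exp (x + 2 * (κ * L)) ∧
      (Real.log X) ^ 2 ≤ Real.exp (κ * L) ∧
      2 * (∑' n : ℕ, 1 / (n : ℝ) ^ 2) * (Real.exp (4 + 2 * x) * Real.exp (-(κ * L) ^ 2 / 4)) ≤
        Real.exp (-(4 * L)) := by
  have hS := S2_one
  have hlS : 0 ≤ Real.log (2 * S2) := Real.log_nonneg (by linarith)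
  refine ⟨max 40 (max (700 / κ ^ 3) (4 * (16 + Real.log (2 * S2)) / κ ^ 2)), le_max_left _ _,
    fun L hL => ?_⟩
  have hL40 : 40 ≤ L := (le_max_left _ _).trans hL
  have hL1 : 700 / κ ^ 3 ≤ L := ((le_max_left _ _).trans (le_max_right _ _)).trans hL
  have hL2 : 4 * (16 + Real.log (2 * S2)) / κ ^ 2 ≤ L :=
    ((le_max_right _ _).trans (le_max_right _ _)).trans hL
  rw [div_le_iff₀ (by positivity)] at hL1 hL2
  have hκL : 0 ≤ κ * L := by positivity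
  have e1 : 36 * L ^ 2 ≤ Real.exp (κ * L) := by
    have h := Real.pow_div_factorial_le_exp (κ * L) hκL 3
    have h2 : (κ * L) ^ 3 / (Nat.factorial 3 : ℝ) = L ^ 2 * (L * κ ^ 3) / 6 := by
      norm_num [Nat.factorial]
      ring
    rw [h2] at h
    have h3 : 0 ≤ L ^ 2 := by positivity
    nlinarith
  have e2 : 16 * (1 + 6 * L) ≤ Real.exp (κ * L) := by nlinarith
  have e3 : (κ * L) ^ 2 / 4 ≥ L * (16 + Real.log (2 * S2)) := by nlinarith
  refine ⟨e1, ?_, fun x hx hxL => ?_⟩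
  · apply Real.exp_le_exp.2
    nlinarith
  set Y := Real.exp (x + κ * L) with hY
  have hY1 : 1 ≤ Y := Real.one_le_exp (by positivity)
  refine ⟨⌈Y⌉₊, Nat.one_le_ceil_iff.2 (by linarith), ?_, ?_, ?_, ?_⟩
  · rw [Real.le_log_iff_exp_le (by positivity)]
    have := Nat.le_ceil Y
    linarith
  all_goals
    have hX2 : ((⌈Y⌉₊ : ℕ) : ℝ) ≤ 2 * Y := by
      have := (Nat.ceil_lt_add_one (show 0 ≤ Y by linarith)).le
      linarith
    have hX1 : (1 : ℝ) ≤ ((⌈Y⌉₊ : ℕ) : ℝ) := by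
      exact_mod_cast Nat.one_le_ceil_iff.2 (by linarith : (0 : ℝ) < Y)
    have hlogX : Real.log ((⌈Y⌉₊ : ℕ) : ℝ) ≤ 6 * L := by
      have h1 : Real.log ((⌈Y⌉₊ : ℕ) : ℝ) ≤ Real.log (2 * Y) := Real.log_le_log (by linarith) hX2
      rw [Real.log_mul (by norm_num) (by positivity), hY, Real.log_exp] at h1
      have h2 := Real.log_two_lt_d9
      nlinarith
    have hlogX0 : 0 ≤ Real.log ((⌈Y⌉₊ : ℕ) : ℝ) := Real.log_nonneg hX1
  · calc 8 * ((⌈Y⌉₊ : ℕ) : ℝ) * (1 + Real.log ((⌈Y⌉₊ : ℕ) : ℝ)) ≤ 8 * (2 * Y) * (1 + 6 * L) := by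
          gcongr
      _ = Y * (16 * (1 + 6 * L)) := by ring
      _ ≤ Y * Real.exp (κ * L) := by gcongr
      _ = Real.exp (x + 2 * (κ * L)) := by
          rw [hY, ← Real.exp_add]; congr 1; ring
  · calc (Real.log ((⌈Y⌉₊ : ℕ) : ℝ)) ^ 2 ≤ (6 * L) ^ 2 := pow_le_pow_left₀ hlogX0 hlogX 2
      _ = 36 * L ^ 2 := by ring
      _ ≤ _ := e1
  · have h1 : 2 * (∑' n : ℕ, 1 / (n : ℝ) ^ 2) = Real.exp (Real.log (2 * S2)) := by
      rw [Real.exp_log (by linarith)]; rfl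
    rw [h1, ← Real.exp_add, ← Real.exp_add]
    apply Real.exp_le_exp.2
    nlinarith

theorem DD_ms {a : ℕ → ℂ} (ha : ∀ n, ‖a n‖ ≤ ArithmeticFunction.vonMangoldt n)
    (κ : ℝ) (hκ : 0 < κ) (hκ1 : κ ≤ 1) : ∃ L0 : ℝ, 40 ≤ L0 ∧ ∀ L : ℝ, L0 ≤ L →
    ∀ x : ℝ, 0 ≤ x → x ≤ 4 * L → ∀ g : ℝ → ℂ, Continuous g → ∀ v1 v2 u0 u1 : ℝ, v1 ≤ v2 → u0 ≤ u1 →
    ∫ u in u0..u1, ‖∫ v in v1..v2, g v * PP a x (v + u)‖ ^ 2 ≤
      Real.exp (7 * (κ * L)) * ((u1 - u0 + Real.exp x) * Real.exp (-x) * (v2 - v1 + Real.exp x) *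
        ∫ v in v1..v2, ‖g v‖ ^ 2) := by
  obtain ⟨L0, hL0, h⟩ := trunc_par κ hκ hκ1
  refine ⟨L0, hL0, fun L hL x hx hxL g hg v1 v2 u0 u1 hv hu => ?_⟩
  obtain ⟨e1, e2, h3⟩ := h L hL
  obtain ⟨X, hX1, hXx, hX8, hXl, hXE⟩ := h3 x hx hxL
  have hL40 : 40 ≤ L := hL0.trans hL
  have hκL : 0 ≤ κ * L := by positivity
  have hmain := ms_full ha hg x (κ * L) (κ * L) hκL hκL X hX1 hXx v1 v2 u0 u1 hv hu
  set U := u1 - u0 with hU
  set V := v2 - v1 with hV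
  set G := ∫ v in v1..v2, ‖g v‖ ^ 2 with hG
  set E := 2 * (∑' n : ℕ, 1 / (n : ℝ) ^ 2) *
        (Real.exp (4 + 2 * x) * Real.exp (-(κ * L) ^ 2 / 4)) with hE
  have hU0 : 0 ≤ U := by linarith
  have hV0 : 0 ≤ V := by linarith
  have hG0 : 0 ≤ G := intervalIntegral.integral_nonneg hv fun v _ => by positivity
  have hE0 : 0 ≤ E := by
    have := S2_one
    have : 0 ≤ ∑' n : ℕ, 1 / (n : ℝ) ^ 2 := tsum_nonneg fun n => by positivity
    positivity
  have hk1 : 1 ≤ Real.exp (κ * L) := Real.one_le_exp hκL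
  have hk6 : 6 ≤ Real.exp (κ * L) := by nlinarith
  have hex : 0 < Real.exp x := Real.exp_pos x
  have henx : 0 < Real.exp (-x) := Real.exp_pos (-x)
  set k := Real.exp (κ * L) with hk
  have ek2 : Real.exp (x + 2 * (κ * L)) = k ^ 2 * Real.exp x := by
    rw [hk, ← Real.exp_nat_mul, ← Real.exp_add]; congr 1; push_cast; ring
  have ek7 : Real.exp (7 * (κ * L)) = k ^ 7 := by
    rw [hk, ← Real.exp_nat_mul]; congr 1
  have hk2 : 1 ≤ k ^ 2 := one_le_pow₀ hk1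
  have hlogX : 0 ≤ Real.log X := Real.log_natCast_nonneg X
  have hmulU : U ≤ k ^ 2 * U := le_mul_of_one_le_left hU0 hk2
  have hmulV : V ≤ k ^ 2 * V := le_mul_of_one_le_left hV0 hk2
  have f1 : U + 8 * X * (1 + Real.log X) ≤ k ^ 2 * (U + Real.exp x) := by
    rw [ek2] at hX8
    rw [mul_add]
    linarith
  have f2 : V + 8 * X * (1 + Real.log X) ≤ k ^ 2 * (V + Real.exp x) := by
    rw [ek2] at hX8
    rw [mul_add]
    linarith
  have f3 : (Real.log X) ^ 2 * Real.exp (κ * L - x) + 4 * Real.exp (-(κ * L) ^ 2) ≤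
      2 * k ^ 2 * Real.exp (-x) := by
    have g1 : (Real.log X) ^ 2 * Real.exp (κ * L - x) ≤ k ^ 2 * Real.exp (-x) := by
      have : Real.exp (κ * L - x) = k * Real.exp (-x) := by
        rw [hk, ← Real.exp_add]; congr 1
      rw [this]
      calc (Real.log X) ^ 2 * (k * Real.exp (-x)) ≤ k * (k * Real.exp (-x)) := by gcongr
        _ = k ^ 2 * Real.exp (-x) := by ring
    have g2 : 4 * Real.exp (-(κ * L) ^ 2) ≤ Real.exp (-x) := by
      have g3 : Real.exp (-(κ * L) ^ 2) ≤ Real.exp (-(16 * L)) := by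
        have := Real.exp_le_exp.1 e2
        apply Real.exp_le_exp.2
        nlinarith
      have g4 : Real.exp (-(16 * L)) ≤ Real.exp (-2) * Real.exp (-x) := by
        rw [← Real.exp_add]
        apply Real.exp_le_exp.2
        linarith
      have g5 : 4 * Real.exp (-2) ≤ 1 := by
        have h6 : (4 : ℝ) ≤ Real.exp 2 := by
          have h7 := Real.exp_one_gt_d9
          have h8 : Real.exp 2 = Real.exp 1 * Real.exp 1 := by rw [← Real.exp_add]; norm_num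
          rw [h8]; nlinarith
        rw [Real.exp_neg, mul_inv_le_iff₀ (Real.exp_pos _)]
        linarith
      calc 4 * Real.exp (-(κ * L) ^ 2) ≤ 4 * (Real.exp (-2) * Real.exp (-x)) := by linarith
        _ = (4 * Real.exp (-2)) * Real.exp (-x) := by ring
        _ ≤ 1 * Real.exp (-x) := by gcongr
        _ = Real.exp (-x) := one_mul _
    have : Real.exp (-x) ≤ k ^ 2 * Real.exp (-x) := le_mul_of_one_le_left henx.le hk2
    linarith
  have f4 : E ^ 2 ≤ Real.exp (-x) := by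
    have : E ^ 2 ≤ (Real.exp (-(4 * L))) ^ 2 := pow_le_pow_left₀ hE0 hXE 2
    refine this.trans ?_
    rw [← Real.exp_nat_mul]
    apply Real.exp_le_exp.2
    push_cast
    linarith
  have n1 : 0 ≤ U + 8 * X * (1 + Real.log X) := by positivity
  have n2 : 0 ≤ V + 8 * X * (1 + Real.log X) := by positivity
  have n3 : 0 ≤ (Real.log X) ^ 2 * Real.exp (κ * L - x) + 4 * Real.exp (-(κ * L) ^ 2) := by
    positivity
  set Q := (U + Real.exp x) * Real.exp (-x) * (V + Real.exp x) * G with hQ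
  have hQ0 : 0 ≤ Q := by positivity
  have t1 : (U + 8 * X * (1 + Real.log X)) *
        (((Real.log X) ^ 2 * Real.exp (κ * L - x) + 4 * Real.exp (-(κ * L) ^ 2)) *
          ((V + 8 * X * (1 + Real.log X)) * G)) ≤ 2 * k ^ 6 * Q := by
    calc _ ≤ (k ^ 2 * (U + Real.exp x)) * ((2 * k ^ 2 * Real.exp (-x)) *
          ((k ^ 2 * (V + Real.exp x)) * G)) := by gcongr
      _ = 2 * k ^ 6 * Q := by rw [hQ]; ring
  have t2 : U * (E ^ 2 * (V * G)) ≤ Q := by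
    calc U * (E ^ 2 * (V * G)) ≤ (U + Real.exp x) * (Real.exp (-x) * ((V + Real.exp x) * G)) := by
          gcongr <;> linarith
      _ = Q := by rw [hQ]; ring
  have hk6' : 1 ≤ k ^ 6 := one_le_pow₀ hk1
  calc _ ≤ _ := hmain
    _ ≤ 2 * (2 * k ^ 6 * Q) + 2 * Q := by gcongr
    _ ≤ k ^ 7 * Q := by
        have : 6 * (k ^ 6 * Q) ≤ k * (k ^ 6 * Q) := by gcongr
        have h2 : Q ≤ k ^ 6 * Q := le_mul_of_one_le_left hQ0 hk6'
        have h3 : k ^ 7 * Q = k * (k ^ 6 * Q) := by ring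
        rw [h3]
        linarith
    _ = _ := by rw [ek7]

end Pool.Agent.W2helper69.PS
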