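import Pool.Agent.W2helper69.PS.Z

/-! Counts of pairs of zeros of zeta at almost all distances. -/

set_option autoImplicit false

open Complex Filter Topology Set MeasureTheory
open scoped BigOperators ComplexConjugate

namespace Pool.Agent.W2helper69.PS

open H370 H370.A2 Pool.Agent.W2helper69.BS

lemma line_zeta (hRH : RiemannHypothesis) : Line riemannZeta := by
  intro s h0 h1 h2 h3
  exact rh_line hRH (A := 0) (B := s.im) ⟨h1, h2, by linarith, le_rfl, h0⟩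

theorem zeta_core (hRH : RiemannHypothesis)
    (η c μ θ ε : ℝ) (hη : 0 < η) (hη1 : η ≤ 1) (hc : 0 < c) (hμ : 0 < μ)
    (hμ4 : μ * (1 + θ) ≤ 4) (hgap : μ * (1 + θ) < η + c) (hε : 0 < ε)
    (ψ : ℝ → ℝ) (hψ : Continuous ψ)
    (hz : ∀ x, μ ≤ |x| → ψ x = 0) (C : ℝ) (hC : ∀ x, |RR ψ μ x| * x ^ 2 ≤ C) :
    ∃ δ : ℝ, 0 < δ ∧ ∃ T0 : ℝ, 10 ≤ T0 ∧ ∀ T : ℝ, T0 ≤ T → ∀ Λ : ℝ, Real.log T ≤ Λ →
      Λ ≤ (1 + θ) * Real.log T → ∀ t1 t2 : ℝ, 2 * T ≤ t1 → t2 ≤ 4 * T →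
      Real.exp (η * Real.log T) ≤ t2 - t1 → ∀ u0 u1 : ℝ, 0 ≤ u0 → u1 ≤ 4 * T →
      Real.exp (c * Real.log T) ≤ u1 - u0 →
      volume {u : ℝ | u ∈ Set.Icc u0 u1 ∧
        ¬ (|SS riemannZeta ψ μ Λ T t1 t2 u - (t2 - t1) * Real.log T / (2 * Real.pi) *
            (Real.log T / Λ * ψ 0)| ≤ ε * ((t2 - t1) * Real.log T))} ≤
        ENNReal.ofReal ((u1 - u0) * Real.exp (-(δ * Real.log T))) :=
  core good_zeta (line_zeta hRH) (fun n => (lamC_norm n).le) (fun s hs _ => ld_zeta s hs)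
    η c μ θ ε hη hη1 hc hμ hμ4 hgap hε ψ hψ hz C hC

lemma dyadic_sum (f : ℂ → ℝ) {T : ℝ} (hT : 0 < T) (J : ℕ) (hJ : 1 ≤ T / 2 ^ J) :
    ∑ s ∈ Z0 T, f s = ∑ s ∈ Z0 (T / 2 ^ J), f s +
      ∑ j ∈ Finset.range J, ∑ s ∈ Zf riemannZeta (T / 2 ^ (j + 1)) (T / 2 ^ j), f s := by
  induction J with
  | zero => simp
  | succ J ih =>
    have h1 : T / 2 ^ (J + 1) ≤ T / 2 ^ J := by
      apply div_le_div_of_nonneg_left hT.le (by positivity)
      exact pow_le_pow_right₀ (by norm_num) (by omega)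
    rw [ih (hJ.trans h1), Finset.sum_range_succ, Z0_split hJ h1 f]
    ring

lemma vol_affine {k : ℝ} (hk : 0 < k) (b : ℝ) (E : Set ℝ) :
    volume {α : ℝ | k * (α + b) ∈ E} = ENNReal.ofReal k⁻¹ * volume E := by
  have h1 : {α : ℝ | k * (α + b) ∈ E} = (fun α => α + b) ⁻¹' ((fun x => k * x) ⁻¹' E) := rfl
  rw [h1, measure_preimage_add_right, Real.volume_preimage_mul_left hk.ne', abs_of_pos (inv_pos.2 hk)]

lemma vol_union {ι : Type*} (S : Finset ι) (E : ι → Set ℝ) (m : ℝ)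
    (h : ∀ i ∈ S, volume (E i) ≤ ENNReal.ofReal m) :
    volume (⋃ i ∈ S, E i) ≤ ENNReal.ofReal (S.card * m) := by
  refine (measure_biUnion_finset_le _ _).trans ((Finset.sum_le_sum h).trans ?_)
  rw [Finset.sum_const, nsmul_eq_mul, ENNReal.ofReal_mul (by positivity), ENNReal.ofReal_natCast]

/-- the number of pairs with normalised difference in `[α, α + B]` -/
noncomputable def NC (T B α : ℝ) : ℝ :=
  ∑ s ∈ Z0 T, mz s *
    KK T (2 * Real.pi * α / Real.log T) (2 * Real.pi * (α + B) / Real.log T) s.im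

lemma geo_sum (J : ℕ) : ∑ j ∈ Finset.range J, (1 : ℝ) / 2 ^ (j + 1) = 1 - 1 / 2 ^ J := by
  induction J with
  | zero => simp
  | succ J ih =>
    rw [Finset.sum_range_succ, ih, pow_succ]
    field_simp
    ring

/-- the parameters -/
lemma params {κ B ε : ℝ} (hκ : κ < 1) (hB : 0 < B) (hε : 0 < ε) :
    ∃ ρ : ℝ, 0 < ρ ∧ ρ ≤ 1 / 8 ∧ ρ ≤ ε / 8 ∧ ρ ≤ ε / (16 * B) ∧ κ < 1 - ρ / 2 := by
  refine ⟨min (min (1 / 8) (ε / 8)) (min (ε / (16 * B)) (1 - κ)), ?_, ?_, ?_, ?_, ?_⟩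
  · exact lt_min (lt_min (by norm_num) (by positivity)) (lt_min (by positivity) (by linarith))
  · exact (min_le_left _ _).trans (min_le_left _ _)
  · exact (min_le_left _ _).trans (min_le_right _ _)
  · exact (min_le_right _ _).trans (min_le_left _ _)
  · have h1 : min (min (1 / 8) (ε / 8)) (min (ε / (16 * B)) (1 - κ)) ≤ 1 - κ :=
      (min_le_right _ _).trans (min_le_right _ _)
    linarith

/-- upper bound in one window -/
lemma up_win {S D H L Λ ψ0 ε : ℝ} (hψ : 0 ≤ ψ0) (hH : 0 ≤ H) (hL : 0 ≤ L) (hΛ : 0 < Λ)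
    (hLΛ : L ≤ Λ) (hε : 0 ≤ ε) (h1 : D ≤ S)
    (h2 : |S - H * L / (2 * Real.pi) * (L / Λ * ψ0)| ≤ ε * (H * L)) :
    D ≤ H * (Λ * (ψ0 / (2 * Real.pi) + ε)) := by
  have hpi := Real.pi_pos
  have h3 := (abs_le.1 h2).2
  have h4 : L / Λ ≤ 1 := by rw [div_le_one hΛ]; exact hLΛ
  have h5 : H * L / (2 * Real.pi) * (L / Λ * ψ0) ≤ H * Λ / (2 * Real.pi) * (1 * ψ0) := by gcongr
  have h6 : ε * (H * L) ≤ ε * (H * Λ) := by gcongr
  have h7 : H * (Λ * (ψ0 / (2 * Real.pi) + ε)) = H * Λ / (2 * Real.pi) * (1 * ψ0) +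
    ε * (H * Λ) := by ring
  linarith

/-- lower bound in one window -/
lemma low_win {S D H L Λ ψ0 ε ρ : ℝ} (hψ : 0 ≤ ψ0) (hH : 0 ≤ H) (hΛ : 0 < Λ)
    (hρ : ρ ≤ 1) (hLΛ1 : L ≤ Λ) (hLΛ : (1 - ρ / 2) * Λ ≤ L) (hε : 0 ≤ ε) (h1 : S ≤ D)
    (h2 : |S - H * L / (2 * Real.pi) * (L / Λ * ψ0)| ≤ ε * (H * L)) :
    H * (Λ * ((1 - ρ) * ψ0 / (2 * Real.pi) - ε)) ≤ D := by
  have hpi := Real.pi_pos
  have h3 := (abs_le.1 h2).1
  have hL : 0 ≤ L := le_trans (by apply mul_nonneg _ hΛ.le; linarith) hLΛ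
  have h4 : (1 - ρ) * Λ ^ 2 ≤ L ^ 2 := by
    have : ((1 - ρ / 2) * Λ) ^ 2 ≤ L ^ 2 :=
      pow_le_pow_left₀ (mul_nonneg (by linarith) hΛ.le) hLΛ 2
    have h5 : ((1 - ρ / 2) * Λ) ^ 2 = (1 - ρ) * Λ ^ 2 + ρ ^ 2 / 4 * Λ ^ 2 := by ring
    have h6 : 0 ≤ ρ ^ 2 / 4 * Λ ^ 2 := by positivity
    linarith
  have h5 : H * Λ * ((1 - ρ) * ψ0 / (2 * Real.pi)) ≤ H * L / (2 * Real.pi) * (L / Λ * ψ0) := by
    have e1 : H * Λ * ((1 - ρ) * ψ0 / (2 * Real.pi)) =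
      H * ψ0 / (2 * Real.pi * Λ) * ((1 - ρ) * Λ ^ 2) := by field_simp
    have e2 : H * L / (2 * Real.pi) * (L / Λ * ψ0) = H * ψ0 / (2 * Real.pi * Λ) * L ^ 2 := by
      field_simp
    rw [e1, e2]
    gcongr
  have h6 : ε * (H * L) ≤ ε * (H * Λ) := by gcongr
  have h7 : H * (Λ * ((1 - ρ) * ψ0 / (2 * Real.pi) - ε)) =
    H * Λ * ((1 - ρ) * ψ0 / (2 * Real.pi)) - ε * (H * Λ) := by ring
  linarith

lemma ev_log_rpow {a : ℝ} (ha : 0 < a) (K : ℝ) : ∀ᶠ T : ℝ in atTop, K * Real.log T ≤ T ^ a := by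
  have h1 := (isLittleO_log_rpow_atTop ha).bound (show (0 : ℝ) < 1 / (|K| + 1) by positivity)
  filter_upwards [h1, eventually_ge_atTop (1 : ℝ)] with T hT hT1
  have hl : 0 ≤ Real.log T := Real.log_nonneg hT1
  have hp : 0 ≤ T ^ a := Real.rpow_nonneg (by linarith) _
  rw [Real.norm_of_nonneg hl, Real.norm_of_nonneg hp, one_div, inv_mul_eq_div,
    le_div_iff₀ (by positivity)] at hT
  have h2 : K * Real.log T ≤ Real.log T * (|K| + 1) := by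
    have := le_abs_self K
    nlinarith
  linarith

lemma ev_rpow_ge {a : ℝ} (ha : 0 < a) (K : ℝ) : ∀ᶠ T : ℝ in atTop, K ≤ T ^ a :=
  (tendsto_rpow_atTop ha).eventually_ge_atTop K

lemma ev_rr {a b : ℝ} (hab : a < b) (hb : 0 < b) (K M : ℝ) :
    ∀ᶠ T : ℝ in atTop, M * (T ^ a + K) ≤ T ^ b := by
  filter_upwards [ev_rpow_ge (show 0 < b - a by linarith) (2 * M), ev_rpow_ge hb (2 * (M * K)),
    eventually_gt_atTop (0 : ℝ)] with T hT hT2 hT0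
  have e : T ^ b = T ^ (b - a) * T ^ a := by rw [← Real.rpow_add hT0]; congr 1; ring
  have h3 : 2 * M * T ^ a ≤ T ^ b := by
    rw [e]
    exact mul_le_mul_of_nonneg_right hT (Real.rpow_nonneg hT0.le _)
  linarith

/-- the parameters `μ`, `c'` -/
lemma params2 {c ρ ε : ℝ} (hc : 0 < c) (hc1 : c ≤ 1) (hρ : 0 < ρ) (hρ8 : ρ ≤ 1 / 8)
    (hρε : ρ ≤ ε / 8) :
    ∃ μ : ℝ, 0 < μ ∧ μ * (1 + ρ) ≤ 4 ∧ μ * (1 + ρ) < 1 + c * (1 - ρ) ∧
      1 / μ ≤ 1 / (1 + c) + ε / 2 := by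
  have h1 : 0 < 1 - ρ := by linarith
  refine ⟨(1 + c) * (1 - ρ) / (1 + ρ), by positivity, ?_, ?_, ?_⟩
  · rw [div_mul_cancel₀ _ (by positivity)]
    nlinarith
  · rw [div_mul_cancel₀ _ (by positivity)]
    nlinarith
  · have h2 : 1 / ((1 + c) * (1 - ρ) / (1 + ρ)) = (1 / (1 + c)) * ((1 + ρ) / (1 - ρ)) := by
      field_simp
    rw [h2]
    have h3 : (1 + ρ) / (1 - ρ) ≤ 1 + 4 * ρ := by
      rw [div_le_iff₀ h1]
      nlinarith
    have h4 : 1 / (1 + c) ≤ 1 := by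
      rw [div_le_one (by positivity)]; linarith
    have h5 : 0 < 1 / (1 + c) := by positivity
    calc 1 / (1 + c) * ((1 + ρ) / (1 - ρ)) ≤ 1 / (1 + c) * (1 + 4 * ρ) := by gcongr
      _ = 1 / (1 + c) + 1 / (1 + c) * (4 * ρ) := by ring
      _ ≤ 1 / (1 + c) + 1 * (4 * ρ) := by gcongr
      _ ≤ _ := by linarith

/-- the number of windows -/
lemma depth {T a : ℝ} (hT : 1 ≤ T) (ha : 4 ≤ T ^ a) : ∃ J : ℕ, (2 : ℝ) ^ J * 4 ≤ T ^ a ∧
    T ^ a < 8 * 2 ^ J ∧ (J : ℝ) ≤ 2 * (a * Real.log T) := by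
  obtain ⟨J, h1, h2⟩ := exists_nat_pow_near (x := T ^ a / 4) (y := 2)
    (by rw [le_div_iff₀ (by norm_num)]; linarith) (by norm_num)
  refine ⟨J, ?_, ?_, ?_⟩
  · rw [le_div_iff₀ (by norm_num)] at h1; exact h1
  · rw [div_lt_iff₀ (by norm_num), pow_succ] at h2; linarith
  · rw [le_div_iff₀ (by norm_num)] at h1
    have h3 : (2 : ℝ) ^ J ≤ T ^ a := by
      have : (0 : ℝ) < 2 ^ J := by positivity
      linarith
    have h4 := Real.log_le_log (by positivity) h3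
    rw [Real.log_pow, Real.log_rpow (by linarith)] at h4
    have h5 : (1 : ℝ) / 2 ≤ Real.log 2 := by
      have := Real.log_two_gt_d9
      linarith
    have h6 : (J : ℝ) * (1 / 2) ≤ J * Real.log 2 := by gcongr
    linarith

/-- deterministic upper bound -/
lemma det_upper {T B α μ ε1 : ℝ} {J : ℕ} (hT : 1 ≤ T) (hΛ : 0 < Real.log T) (hμ : 0 < μ)
    (hB : 0 < B) (hε1 : 0 ≤ ε1) (hα : 0 ≤ α)
    (hJ : ∀ j ∈ Finset.range J, 1 < T / 2 ^ (j + 2) ∧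
      2 * Real.pi * (α + B) / Real.log T ≤ 10 * (T / 2 ^ (j + 2)))
    (hJ0 : 1 ≤ T / 2 ^ J)
    (hgood : ∀ j ∈ Finset.range J,
      |SS riemannZeta (psiB μ B 1) μ (Real.log T) (T / 2 ^ (j + 2)) (2 * (T / 2 ^ (j + 2)))
        (4 * (T / 2 ^ (j + 2))) (2 * Real.pi / Real.log T * (α + B / 2)) -
        (4 * (T / 2 ^ (j + 2)) - 2 * (T / 2 ^ (j + 2))) * Real.log (T / 2 ^ (j + 2)) /
          (2 * Real.pi) * (Real.log (T / 2 ^ (j + 2)) / Real.log T * (B + 1 / μ))| ≤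
        ε1 * ((4 * (T / 2 ^ (j + 2)) - 2 * (T / 2 ^ (j + 2))) * Real.log (T / 2 ^ (j + 2)))) :
    NC T B α ≤ (∑ s ∈ Z0 (T / 2 ^ J), mz s *
      KK T (2 * Real.pi * α / Real.log T) (2 * Real.pi * (α + B) / Real.log T) s.im) +
      T * (Real.log T * ((B + 1 / μ) / (2 * Real.pi) + ε1)) := by
  have hpi := Real.pi_pos
  set Λ := Real.log T with hΛd
  set lo := 2 * Real.pi * α / Λ with hlo
  set hi := 2 * Real.pi * (α + B) / Λ with hhi
  have hlo0 : 0 ≤ lo := by positivity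
  have hlh : hi - lo = 2 * Real.pi * B / Λ := by rw [hlo, hhi]; ring
  have hmid : (lo + hi) / 2 = 2 * Real.pi / Λ * (α + B / 2) := by rw [hlo, hhi]; ring
  unfold NC
  rw [← hΛd, dyadic_sum _ (by linarith) J hJ0]
  apply add_le_add_right
  have hwin : ∀ j ∈ Finset.range J,
      ∑ s ∈ Zf riemannZeta (T / 2 ^ (j + 1)) (T / 2 ^ j), mz s * KK T lo hi s.im ≤
      1 / 2 ^ (j + 1) * (T * (Λ * ((B + 1 / μ) / (2 * Real.pi) + ε1))) := by
    intro j hj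
    obtain ⟨h1, h2⟩ := hJ j hj
    have h3 := hgood j hj
    set T' := T / 2 ^ (j + 2) with hT'
    have e1 : T / 2 ^ (j + 1) = 2 * T' := by rw [hT', pow_succ _ (j + 1)]; field_simp
    have e2 : T / 2 ^ j = 4 * T' := by rw [hT', pow_succ _ (j + 1), pow_succ]; field_simp; norm_num
    rw [e1, e2]
    have h4 := win_upper (T := T) (t1 := 2 * T') (t2 := 4 * T') h1 le_rfl le_rfl hlo0 h2 hΛ hμ hB hlh
    rw [hmid] at h4
    have h5 : T' ≤ T := by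
      rw [hT']
      apply div_le_self (by linarith)
      exact one_le_pow₀ (by norm_num)
    have h6 : Real.log T' ≤ Λ := Real.log_le_log (by linarith) h5
    have h7 : 0 ≤ Real.log T' := Real.log_nonneg h1.le
    have h8 := up_win (ψ0 := B + 1 / μ) (H := 4 * T' - 2 * T') (by positivity) (by linarith) h7 hΛ h6
      hε1 h4 h3
    refine h8.trans (le_of_eq ?_)
    have e3 : 4 * T' - 2 * T' = 1 / 2 ^ (j + 1) * T := by
      rw [show 4 * T' - 2 * T' = 2 * T' by ring, ← e1]; ring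
    rw [e3]
    ring
  refine (Finset.sum_le_sum hwin).trans ?_
  rw [← Finset.sum_mul, geo_sum]
  have h9 : 0 ≤ T * (Λ * ((B + 1 / μ) / (2 * Real.pi) + ε1)) := by positivity
  have h10 : (1 : ℝ) - 1 / 2 ^ J ≤ 1 := by
    have : (0 : ℝ) ≤ 1 / 2 ^ J := by positivity
    linarith
  calc _ ≤ 1 * (T * (Λ * ((B + 1 / μ) / (2 * Real.pi) + ε1))) := by gcongr
    _ = _ := one_mul _

/-- deterministic lower bound -/
lemma det_lower {T B α μ ε1 ρ : ℝ} {J : ℕ} (hT : 1 ≤ T) (hΛ : 0 < Real.log T) (hμ : 0 < μ)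
    (hε1 : 0 ≤ ε1) (hρ : 0 < ρ) (hρ8 : ρ ≤ 1 / 8)
    (hψ : 0 ≤ B + -1 / μ)
    (hhi : 2 * Real.pi * (α + B) / Real.log T ≤ ρ * T)
    (hJ : ∀ j ∈ Finset.range J, 1 < T / 2 ^ (j + 2) ∧
      (1 - ρ / 2) * Real.log T ≤ Real.log (T / 2 ^ (j + 2)))
    (hJ0 : 1 ≤ T / 2 ^ J)
    (hgood : ∀ j ∈ Finset.range J,
      |SS riemannZeta (psiB μ B (-1)) μ (Real.log T) (T / 2 ^ (j + 2)) (2 * (T / 2 ^ (j + 2)))
        ((1 - ρ) * (4 * (T / 2 ^ (j + 2)))) (2 * Real.pi / Real.log T * (α + B / 2)) -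
        ((1 - ρ) * (4 * (T / 2 ^ (j + 2))) - 2 * (T / 2 ^ (j + 2))) *
          Real.log (T / 2 ^ (j + 2)) /
          (2 * Real.pi) * (Real.log (T / 2 ^ (j + 2)) / Real.log T * (B + -1 / μ))| ≤
        ε1 * (((1 - ρ) * (4 * (T / 2 ^ (j + 2))) - 2 * (T / 2 ^ (j + 2))) *
          Real.log (T / 2 ^ (j + 2)))) :
    (1 - 1 / 2 ^ J) * ((1 - 2 * ρ) * (T * (Real.log T *
      ((1 - ρ) * (B + -1 / μ) / (2 * Real.pi) - ε1)))) ≤ NC T B α := by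
  classical
  have hpi := Real.pi_pos
  set Λ := Real.log T with hΛd
  set lo := 2 * Real.pi * α / Λ with hlo
  set hi := 2 * Real.pi * (α + B) / Λ with hhid
  have hlh : hi - lo = 2 * Real.pi * B / Λ := by rw [hlo, hhid]; ring
  have hmid : (lo + hi) / 2 = 2 * Real.pi / Λ * (α + B / 2) := by rw [hlo, hhid]; ring
  unfold NC
  rw [← hΛd, dyadic_sum _ (by linarith) J hJ0]
  have hlow : 0 ≤ ∑ s ∈ Z0 (T / 2 ^ J), mz s * KK T lo hi s.im :=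
    Finset.sum_nonneg fun s _ => mul_nonneg (mz_nonneg _) (KK_nonneg _ _ _ _)
  have hwin : ∀ j ∈ Finset.range J,
      1 / 2 ^ (j + 1) * ((1 - 2 * ρ) * (T * (Λ * ((1 - ρ) * (B + -1 / μ) / (2 * Real.pi) - ε1)))) ≤
      ∑ s ∈ Zf riemannZeta (T / 2 ^ (j + 1)) (T / 2 ^ j), mz s * KK T lo hi s.im := by
    intro j hj
    obtain ⟨h1, h2⟩ := hJ j hj
    have h3 := hgood j hj
    set T' := T / 2 ^ (j + 2) with hT'
    have e1 : T / 2 ^ (j + 1) = 2 * T' := by rw [hT', pow_succ _ (j + 1)]; field_simp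
    have e2 : T / 2 ^ j = 4 * T' := by rw [hT', pow_succ _ (j + 1), pow_succ]; field_simp; norm_num
    rw [e1, e2]
    have h4T : 4 * T' ≤ T := by
      rw [← e2]
      apply div_le_self (by linarith)
      exact one_le_pow₀ (by norm_num)
    have h4 := win_lower (T := T) (t1 := 2 * T') (t2 := (1 - ρ) * (4 * T')) h1 le_rfl (by nlinarith)
      hΛ hμ hlh
    rw [hmid] at h4
    have h5 : T' ≤ T := by linarith
    have h6 : Real.log T' ≤ Λ := Real.log_le_log (by linarith) h5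
    have h8 := low_win (ψ0 := B + -1 / μ) (H := (1 - ρ) * (4 * T') - 2 * T') hψ (by nlinarith) hΛ
      (by linarith) h6 h2 hε1 h4 h3
    have h9 : ∑ s ∈ Zf riemannZeta (2 * T') ((1 - ρ) * (4 * T')), mz s * KK T lo hi s.im ≤
        ∑ s ∈ Zf riemannZeta (2 * T') (4 * T'), mz s * KK T lo hi s.im := by
      refine Finset.sum_le_sum_of_subset_of_nonneg ?_ fun s _ _ =>
        mul_nonneg (mz_nonneg _) (KK_nonneg _ _ _ _)
      intro s hs
      rw [mem_Zz (by linarith)] at hs ⊢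
      refine ⟨hs.1, hs.2.1, hs.2.2.1, ?_, hs.2.2.2.2⟩
      have := hs.2.2.2.1
      nlinarith
    refine le_trans (le_of_eq ?_) (h8.trans h9)
    have e3 : (1 - ρ) * (4 * T') - 2 * T' = 1 / 2 ^ (j + 1) * (1 - 2 * ρ) * T := by
      have : 1 / 2 ^ (j + 1) * T = 2 * T' := by rw [← e1]; ring
      linear_combination (-(1 - 2 * ρ)) * this
    rw [e3]
    ring
  have h10 := Finset.sum_le_sum hwin
  rw [← Finset.sum_mul, geo_sum] at h10
  linarith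

end Pool.Agent.W2helper69.PS
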