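import Pool.Agent.W2helper69.PS.Fin1

/-! Counts of pairs of zeros of zeta at almost all distances: the main count. -/

set_option autoImplicit false

open Complex Filter Topology Set MeasureTheory
open scoped BigOperators ComplexConjugate

namespace Pool.Agent.W2helper69.PS

open H370 H370.A2 Pool.Agent.W2helper69.BS

lemma assemble_up {N Low T Λ B μ c ε : ℝ}
    (h1 : N ≤ Low + T * (Λ * ((B + 1 / μ) / (2 * Real.pi) + ε / 100)))
    (h2 : Low ≤ ε / 8 * (T * Λ / (2 * Real.pi))) (hμi : 1 / μ ≤ 1 / (1 + c) + ε / 2)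
    (hε : 0 < ε) (hM : 0 ≤ T * Λ) :
    N - B * (T * Λ / (2 * Real.pi)) ≤ (1 / (1 + c) + ε) * (T * Λ / (2 * Real.pi)) := by
  have hpi := Real.pi_pos
  have hpi4 := Real.pi_lt_four
  set M := T * Λ / (2 * Real.pi) with hMd
  have hM0 : 0 ≤ M := by positivity
  have e1 : T * (Λ * ((B + 1 / μ) / (2 * Real.pi) + ε / 100)) =
      B * M + 1 / μ * M + ε / 100 * (2 * Real.pi) * M := by
    rw [hMd]; field_simp
  have e2 : ε / 100 * (2 * Real.pi) * M ≤ ε / 8 * M := by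
    apply mul_le_mul_of_nonneg_right _ hM0
    nlinarith
  have e3 : 1 / μ * M ≤ (1 / (1 + c) + ε / 2) * M := by gcongr
  have e4 : 0 ≤ ε * M := by positivity
  rw [e1] at h1
  linarith

lemma assemble_neg {N T Λ B μ c ε : ℝ} (hN : 0 ≤ N) (hneg : B + -1 / μ < 0)
    (hμi : 1 / μ ≤ 1 / (1 + c) + ε / 2) (hε : 0 < ε) (hM : 0 ≤ T * Λ) :
    -((1 / (1 + c) + ε) * (T * Λ / (2 * Real.pi))) ≤ N - B * (T * Λ / (2 * Real.pi)) := by
  have hpi := Real.pi_pos
  set M := T * Λ / (2 * Real.pi) with hMd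
  have hM0 : 0 ≤ M := by positivity
  have e : -1 / μ = -(1 / μ) := by ring
  rw [e] at hneg
  have h1 : B * M ≤ (1 / (1 + c) + ε) * M := by
    apply mul_le_mul_of_nonneg_right _ hM0
    linarith
  linarith

lemma assemble_low {N T Λ B μ c ε ρ q : ℝ}
    (h1 : (1 - q) * ((1 - 2 * ρ) * (T * (Λ *
      ((1 - ρ) * (B + -1 / μ) / (2 * Real.pi) - ε / 100)))) ≤ N)
    (hq : q ≤ ρ) (hq0 : 0 ≤ q) (hρ : 0 < ρ) (hρ8 : ρ ≤ 1 / 8) (hρB : ρ ≤ ε / (16 * B))
    (hpos : 0 ≤ B + -1 / μ) (hμ : 0 < μ) (hB : 0 < B)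
    (hμi : 1 / μ ≤ 1 / (1 + c) + ε / 2) (hε : 0 < ε) (hM : 0 ≤ T * Λ) :
    -((1 / (1 + c) + ε) * (T * Λ / (2 * Real.pi))) ≤ N - B * (T * Λ / (2 * Real.pi)) := by
  have hpi := Real.pi_pos
  have hpi4 := Real.pi_lt_four
  set P := B + -1 / μ with hP
  set M := T * Λ / (2 * Real.pi) with hMd
  have hM0 : 0 ≤ M := by positivity
  have hPB : P ≤ B := by
    have : 0 ≤ 1 / μ := by positivity
    rw [hP, show -1 / μ = -(1 / μ) by ring]
    linarith
  have e1 : (1 - q) * ((1 - 2 * ρ) * (T * (Λ * ((1 - ρ) * P / (2 * Real.pi) - ε / 100)))) =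
      ((1 - q) * (1 - 2 * ρ) * (1 - ρ)) * (P * M) -
      ((1 - q) * (1 - 2 * ρ)) * (ε / 100 * (2 * Real.pi) * M) := by
    rw [hMd]; field_simp
  have e2 : ε / 100 * (2 * Real.pi) * M ≤ ε / 8 * M := by
    apply mul_le_mul_of_nonneg_right _ hM0
    nlinarith
  have e20 : 0 ≤ ε / 100 * (2 * Real.pi) * M := by positivity
  have f1 : 1 - 4 * ρ ≤ (1 - q) * (1 - 2 * ρ) * (1 - ρ) := by
    have g1 : (1 - ρ) * (1 - 2 * ρ) ≤ (1 - q) * (1 - 2 * ρ) := by
      apply mul_le_mul_of_nonneg_right _ (by linarith)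
      linarith
    have g2 : (1 - ρ) * (1 - 2 * ρ) * (1 - ρ) ≤ (1 - q) * (1 - 2 * ρ) * (1 - ρ) := by
      apply mul_le_mul_of_nonneg_right g1 (by linarith)
    have g3 : 1 - 4 * ρ ≤ (1 - ρ) * (1 - 2 * ρ) * (1 - ρ) := by
      have : (1 - ρ) * (1 - 2 * ρ) * (1 - ρ) = 1 - 4 * ρ + ρ * (ρ * (5 - 2 * ρ)) := by ring
      rw [this]
      have : 0 ≤ ρ * (ρ * (5 - 2 * ρ)) := by
        apply mul_nonneg hρ.le
        apply mul_nonneg hρ.le
        linarith
      linarith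
    linarith
  have f2 : (1 - q) * (1 - 2 * ρ) ≤ 1 := by
    calc (1 - q) * (1 - 2 * ρ) ≤ 1 * 1 := by
          apply mul_le_mul <;> linarith
      _ = 1 := by ring
  have hPM : 0 ≤ P * M := mul_nonneg hpos hM0
  have g4 : (1 - 4 * ρ) * (P * M) ≤ ((1 - q) * (1 - 2 * ρ) * (1 - ρ)) * (P * M) := by gcongr
  have g5 : ((1 - q) * (1 - 2 * ρ)) * (ε / 100 * (2 * Real.pi) * M) ≤
      1 * (ε / 100 * (2 * Real.pi) * M) := by gcongr
  have g6 : 4 * ρ * (P * M) ≤ ε / 4 * M := by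
    have h3 : ρ * B ≤ ε / 16 := by
      rw [le_div_iff₀ (by positivity)] at hρB
      linarith
    calc 4 * ρ * (P * M) ≤ 4 * ρ * (B * M) := by gcongr
      _ = 4 * (ρ * B) * M := by ring
      _ ≤ 4 * (ε / 16) * M := by gcongr
      _ = _ := by ring
  have g7 : P * M = B * M - 1 / μ * M := by rw [hP]; ring
  have g8 : 1 / μ * M ≤ (1 / (1 + c) + ε / 2) * M := by gcongr
  have g9 : 0 ≤ ε * M := by positivity
  rw [e1] at h1
  linarith

lemma low_part {T TX Tr Λ ε Cz Cn Y lo hi : ℝ} (hT : 0 < T) (hΛ : 0 < Λ) (hTX : 0 ≤ TX)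
    (hε : 0 < ε) (hCz : 0 < Cz) (hCn : 0 < Cn) (hTT : Tr * TX = T)
    (e5 : 1000 * Cz * Cn / ε * Λ ≤ Tr) (hY : Y ≤ 8 * TX) (hY1 : 1 ≤ Y)
    (hz : ∑ s ∈ Z0 Y, mz s ≤ Cz * (Y * Real.log Y))
    (hn : ∀ y : ℝ, 0 ≤ y →
      ∑ s ∈ (Z0 T).filter (fun s => y ≤ s.im ∧ s.im ≤ y + 1), mz s ≤ Cn * Real.log T)
    (hlo : 0 ≤ lo) (hlh : hi - lo ≤ 1) (hΛd : Λ = Real.log T) (hYT : Y ≤ T) :
    ∑ s ∈ Z0 Y, mz s * KK T lo hi s.im ≤ ε / 8 * (T * Λ / (2 * Real.pi)) := by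
  have hpi := Real.pi_pos
  have hpi4 := Real.pi_lt_four
  have h1 : ∑ s ∈ Z0 Y, mz s * KK T lo hi s.im ≤ (∑ s ∈ Z0 Y, mz s) * (Cn * Λ) := by
    rw [Finset.sum_mul]
    refine Finset.sum_le_sum fun s hs => ?_
    rw [mem_Z0] at hs
    apply mul_le_mul_of_nonneg_left _ (mz_nonneg _)
    rw [hΛd]
    exact KK_le hlh (by linarith [hs.2.2.1]) hn
  have hlogY : Real.log Y ≤ Λ := by rw [hΛd]; exact Real.log_le_log (by linarith) hYT
  have hlogY0 : 0 ≤ Real.log Y := Real.log_nonneg hY1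
  have h2 : (∑ s ∈ Z0 Y, mz s) * (Cn * Λ) ≤ (Cz * (8 * TX * Λ)) * (Cn * Λ) := by
    apply mul_le_mul_of_nonneg_right _ (by positivity)
    refine hz.trans ?_
    gcongr
  have h3 : Cz * Cn * Λ * TX * 1000 ≤ ε * T := by
    have h4 : 1000 * Cz * Cn / ε * Λ * TX ≤ Tr * TX := mul_le_mul_of_nonneg_right e5 hTX
    rw [hTT] at h4
    have h5 : 1000 * Cz * Cn / ε * Λ * TX = Cz * Cn * Λ * TX * 1000 / ε := by ring
    rw [h5, div_le_iff₀ hε] at h4
    linarith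
  have h6 : (Cz * (8 * TX * Λ)) * (Cn * Λ) ≤ ε * T * Λ / 125 := by
    calc (Cz * (8 * TX * Λ)) * (Cn * Λ) = (Cz * Cn * Λ * TX * 1000) * Λ / 125 := by ring
      _ ≤ ε * T * Λ / 125 := by gcongr
  have h7 : ε * T * Λ / 125 ≤ ε / 8 * (T * Λ / (2 * Real.pi)) := by
    have h8 : ε / 8 * (T * Λ / (2 * Real.pi)) = ε * T * Λ / (16 * Real.pi) := by field_simp; norm_num
    rw [h8]
    apply div_le_div_of_nonneg_left (by positivity) (by positivity)
    linarith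
  linarith

theorem count_main (hRH : RiemannHypothesis) (c κ B ε : ℝ) (hc : 0 < c) (hcκ : c ≤ κ) (hκ : κ < 1)
    (hB : 0 < B) (hε : 0 < ε) :
    ∃ δ : ℝ, 0 < δ ∧ ∃ T0 : ℝ, ∀ T : ℝ, T0 ≤ T → ∀ a0 a1 : ℝ, 0 ≤ a0 → a1 ≤ T ^ κ →
      T ^ c ≤ a1 - a0 →
      volume {α : ℝ | α ∈ Set.Icc a0 a1 ∧
        ¬ (|NC T B α - B * (T * Real.log T / (2 * Real.pi))| ≤
          (1 / (1 + c) + ε) * (T * Real.log T / (2 * Real.pi)))} ≤
        ENNReal.ofReal ((a1 - a0) * T ^ (-δ)) := by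
  obtain ⟨ρ, hρ, hρ8, hρε, hρB, hρκ⟩ := params hκ hB hε
  obtain ⟨μ, hμ, hμ4, hμg, hμi⟩ := params2 hc (by linarith) hρ hρ8 hρε
  obtain ⟨C1, hC1⟩ := decay (s := 1) hμ hB (Or.inl rfl)
  obtain ⟨C2, hC2⟩ := decay (s := -1) hμ hB (Or.inr rfl)
  set ε1 : ℝ := ε / 100 with hε1
  have hε10 : 0 < ε1 := by positivity
  have hc'0 : 0 < c * (1 - ρ) := by apply mul_pos hc; linarith
  obtain ⟨δ1, hδ1, T1, hT1, hU⟩ := zeta_core hRH 1 (c * (1 - ρ)) μ ρ ε1 one_pos le_rfl hc'0 hμ hμ4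
    hμg hε10 (psiB μ B 1) (psiB_cont _ _ _) (fun x hx => psiB_zero hμ (Or.inl rfl) hx) C1 hC1
  obtain ⟨δ2, hδ2, T2, hT2, hLo⟩ := zeta_core hRH 1 (c * (1 - ρ)) μ ρ ε1 one_pos le_rfl hc'0 hμ hμ4
    hμg hε10 (psiB μ B (-1)) (psiB_cont _ _ _) (fun x hx => psiB_zero hμ (Or.inr rfl) hx) C2 hC2
  rw [psiB_at hμ] at hU hLo
  obtain ⟨Cz, Xz, hCz, hXz, hZc⟩ := Z0_crude
  obtain ⟨Cn, Tn, hCn, hTn, hZn⟩ := near_Z0
  set δm : ℝ := min δ1 δ2 with hδm
  have hδm0 : 0 < δm := lt_min hδ1 hδ2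
  have hθ : 0 < ρ / 2 := by positivity
  have hθ1 : 0 < 1 - ρ / 2 := by linarith
  have hpi := Real.pi_pos
  have hpi3 := Real.pi_gt_three
  have hpi4 := Real.pi_lt_four
  -- the conditions on `T`
  have ev1 : ∀ᶠ T : ℝ in atTop, 8 + 8 * B ≤ Real.log T := Real.tendsto_log_atTop.eventually_ge_atTop _
  have ev2 : ∀ᶠ T : ℝ in atTop, 1 * Real.log T ≤ T ^ (c * ρ) := ev_log_rpow (by positivity) 1
  have ev3 : ∀ᶠ T : ℝ in atTop, (1 : ℝ) * (T ^ κ + B) ≤ T ^ (1 - ρ / 2) := ev_rr hρκ hθ1 B 1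
  have ev4 : ∀ᶠ T : ℝ in atTop, (1 / ρ : ℝ) * (T ^ κ + B) ≤ T ^ (1 : ℝ) := ev_rr hκ one_pos B _
  have ev5 : ∀ᶠ T : ℝ in atTop, (1000 * Cz * Cn / ε) * Real.log T ≤ T ^ (ρ / 2) := ev_log_rpow hθ _
  have ev6 : ∀ᶠ T : ℝ in atTop, max (max T1 T2) (max Xz 2) ≤ T ^ (1 - ρ / 2) := ev_rpow_ge hθ1 _
  have ev7 : ∀ᶠ T : ℝ in atTop, max 4 (8 / ρ) ≤ T ^ (ρ / 2) := ev_rpow_ge hθ _
  have ev8 : ∀ᶠ T : ℝ in atTop, 4 * Real.log T ≤ T ^ (δm / 4) := ev_log_rpow (by positivity) _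
  obtain ⟨T0, hT0⟩ := (ev1.and (ev2.and (ev3.and (ev4.and (ev5.and (ev6.and (ev7.and
    (ev8.and (eventually_ge_atTop (max 10 Tn)))))))))).exists_forall_of_atTop
  refine ⟨δm / 4, by positivity, T0, fun T hT a0 a1 ha0 ha1 ha => ?_⟩
  obtain ⟨e1, e2, e3, e4, e5, e6, e7, e8, e9⟩ := hT0 T hT
  have hT10 : 10 ≤ T := (le_max_left _ _).trans e9
  have hTn : Tn ≤ T := (le_max_right _ _).trans e9
  have hTpos : 0 < T := by linarith
  have hT1' : 1 ≤ T := by linarith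
  set Λ := Real.log T with hΛd
  have hΛ0 : 0 < Λ := by linarith
  have hΛ8 : 8 ≤ Λ := by linarith
  set TX := T ^ (1 - ρ / 2) with hTX
  have hTX0 : 0 < TX := Real.rpow_pos_of_pos hTpos _
  set Tr := T ^ (ρ / 2) with hTr
  have hTr0 : 0 < Tr := Real.rpow_pos_of_pos hTpos _
  have hTT : Tr * TX = T := by
    rw [hTr, hTX, ← Real.rpow_add hTpos]
    have : ρ / 2 + (1 - ρ / 2) = 1 := by ring
    rw [this, Real.rpow_one]
  have hTX1 : T1 ≤ TX := ((le_max_left _ _).trans (le_max_left _ _)).trans e6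
  have hTX2 : T2 ≤ TX := ((le_max_right _ _).trans (le_max_left _ _)).trans e6
  have hTXz : Xz ≤ TX := ((le_max_left _ _).trans (le_max_right _ _)).trans e6
  have hTX2' : 2 ≤ TX := ((le_max_right _ _).trans (le_max_right _ _)).trans e6
  have hTXT : TX ≤ T := by
    rw [← hTT]
    have h4 : (4 : ℝ) ≤ Tr := (le_max_left _ _).trans e7
    exact le_mul_of_one_le_left hTX0.le (by linarith)
  obtain ⟨J, hJ1, hJ2, hJ3⟩ := depth (T := T) (a := ρ / 2) hT1' ((le_max_left _ _).trans e7)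
  rw [← hTr] at hJ1 hJ2
  rw [← hΛd] at hJ3
  have hJ0' : (0 : ℝ) < 2 ^ J := by positivity
  -- the windows
  have hwin : ∀ j ∈ Finset.range J, TX ≤ T / 2 ^ (j + 2) := by
    intro j hj
    rw [Finset.mem_range] at hj
    rw [le_div_iff₀ (by positivity), ← hTT, mul_comm]
    apply mul_le_mul_of_nonneg_right _ hTX0.le
    calc (2 : ℝ) ^ (j + 2) ≤ 2 ^ (J + 2) := pow_le_pow_right₀ (by norm_num) (by omega)
      _ = 2 ^ J * 4 := by rw [pow_add]; norm_num
      _ ≤ Tr := hJ1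
  have hlogTX : Real.log TX = (1 - ρ / 2) * Λ := Real.log_rpow hTpos _
  have hlogw : ∀ j ∈ Finset.range J, (1 - ρ / 2) * Λ ≤ Real.log (T / 2 ^ (j + 2)) := by
    intro j hj
    rw [← hlogTX]
    exact Real.log_le_log hTX0 (hwin j hj)
  have hlogw2 : ∀ j : ℕ, Real.log (T / 2 ^ (j + 2)) ≤ Λ := by
    intro j
    apply Real.log_le_log (by positivity)
    apply div_le_self hTpos.le
    exact one_le_pow₀ (by norm_num)
  set k := 2 * Real.pi / Λ with hk
  have hk0 : 0 < k := by positivity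
  have hk1 : k ≤ 1 := by
    rw [hk, div_le_one hΛ0]; linarith
  set v0 := k * (a0 + B / 2) with hv0
  set v1 := k * (a1 + B / 2) with hv1
  have ha1' : a1 + B ≤ TX := by linarith
  have ha0a1 : a0 ≤ a1 := by
    have : 0 ≤ T ^ c := Real.rpow_nonneg hTpos.le _
    linarith
  have hv00 : 0 ≤ v0 := by positivity
  have hv1T : v1 ≤ TX := by
    have : v1 ≤ 1 * (a1 + B / 2) := by
      rw [hv1]
      apply mul_le_mul_of_nonneg_right hk1
      linarith
    linarith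
  have hv01 : v1 - v0 = k * (a1 - a0) := by rw [hv0, hv1]; ring
  have hvlen : Real.exp (c * (1 - ρ) * Λ) ≤ v1 - v0 := by
    rw [hv01]
    have h1 : Real.exp (c * (1 - ρ) * Λ) = T ^ (c * (1 - ρ)) := by
      rw [Real.rpow_def_of_pos hTpos]; congr 1; ring
    have h2 : T ^ c = T ^ (c * ρ) * T ^ (c * (1 - ρ)) := by
      rw [← Real.rpow_add hTpos]; congr 1; ring
    have h3 : 0 < T ^ (c * (1 - ρ)) := Real.rpow_pos_of_pos hTpos _
    rw [h1]
    calc T ^ (c * (1 - ρ)) ≤ 2 * Real.pi * T ^ (c * (1 - ρ)) := by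
          apply le_mul_of_one_le_left h3.le
          linarith
      _ = k * (Λ * T ^ (c * (1 - ρ))) := by rw [hk]; field_simp
      _ ≤ k * (T ^ (c * ρ) * T ^ (c * (1 - ρ))) := by
          gcongr
          linarith
      _ = k * T ^ c := by rw [h2]
      _ ≤ _ := by gcongr
  set m : ℝ := (v1 - v0) * Real.exp (-(δm / 2 * Λ)) with hm
  set E : ℕ × Bool → Set ℝ := fun p => {u : ℝ | u ∈ Set.Icc v0 v1 ∧
      ¬ (|SS riemannZeta (psiB μ B (if p.2 then 1 else -1)) μ Λ (T / 2 ^ (p.1 + 2))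
          (2 * (T / 2 ^ (p.1 + 2)))
          (if p.2 then 4 * (T / 2 ^ (p.1 + 2)) else (1 - ρ) * (4 * (T / 2 ^ (p.1 + 2)))) u -
        ((if p.2 then 4 * (T / 2 ^ (p.1 + 2)) else (1 - ρ) * (4 * (T / 2 ^ (p.1 + 2)))) -
          2 * (T / 2 ^ (p.1 + 2))) * Real.log (T / 2 ^ (p.1 + 2)) / (2 * Real.pi) *
          (Real.log (T / 2 ^ (p.1 + 2)) / Λ * (B + (if p.2 then 1 else -1) / μ))| ≤
        ε1 * (((if p.2 then 4 * (T / 2 ^ (p.1 + 2)) else (1 - ρ) * (4 * (T / 2 ^ (p.1 + 2)))) -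
          2 * (T / 2 ^ (p.1 + 2))) * Real.log (T / 2 ^ (p.1 + 2))))} with hE
  set S : Finset (ℕ × Bool) := Finset.range J ×ˢ Finset.univ with hS
  have hEm : ∀ p ∈ S, volume (E p) ≤ ENNReal.ofReal m := by
    rintro ⟨j, b⟩ hp
    rw [hS, Finset.mem_product] at hp
    have hj := hp.1
    simp only at hj
    have hw := hwin j hj
    have hl1 := hlogw j hj
    have hl2 := hlogw2 j
    set T' := T / 2 ^ (j + 2) with hT'
    have hT'0 : 0 < T' := by linarith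
    have hL'0 : 0 < Real.log T' := Real.log_pos (by linarith)
    have hΛL : Λ ≤ (1 + ρ) * Real.log T' := by
      have h1 : (1 + ρ) * ((1 - ρ / 2) * Λ) ≤ (1 + ρ) * Real.log T' := by gcongr
      have h2 : Λ ≤ (1 + ρ) * ((1 - ρ / 2) * Λ) := by
        have h3 : 0 ≤ ρ / 2 - ρ ^ 2 / 2 := by
          have h30 : ρ / 2 - ρ ^ 2 / 2 = ρ * (1 - ρ) / 2 := by ring
          rw [h30]
          have : 0 ≤ 1 - ρ := by linarith
          positivity
        have h4 : (1 + ρ) * ((1 - ρ / 2) * Λ) = Λ + (ρ / 2 - ρ ^ 2 / 2) * Λ := by ring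
        have h5 : 0 ≤ (ρ / 2 - ρ ^ 2 / 2) * Λ := by positivity
        linarith
      linarith
    have hexp1 : Real.exp (1 * Real.log T') = T' := by rw [one_mul, Real.exp_log hT'0]
    have hlen : Real.exp (c * (1 - ρ) * Real.log T') ≤ v1 - v0 := by
      refine le_trans (Real.exp_le_exp.2 ?_) hvlen
      gcongr
    have hv4 : v1 ≤ 4 * T' := by linarith
    have hdec : ∀ δ' : ℝ, δm ≤ δ' → (v1 - v0) * Real.exp (-(δ' * Real.log T')) ≤ m := by
      intro δ' hδ'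
      rw [hm]
      have hv : 0 ≤ v1 - v0 := le_trans (Real.exp_pos _).le hvlen
      apply mul_le_mul_of_nonneg_left _ hv
      apply Real.exp_le_exp.2
      have h1 : Λ / 2 ≤ Real.log T' := by
        refine le_trans ?_ hl1
        have : (1 - ρ / 2) * Λ - Λ / 2 = (1 / 2 - ρ / 2) * Λ := by ring
        have h2 : 0 ≤ (1 / 2 - ρ / 2) * Λ := mul_nonneg (by linarith) hΛ0.le
        linarith
      have h3 : 0 ≤ δ' := hδm0.le.trans hδ'
      have h2 : δm * (Λ / 2) ≤ δ' * Real.log T' := by gcongr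
      linarith
    cases b with
    | true =>
      have h1 := hU T' (by linarith) Λ hl2 hΛL (2 * T') (4 * T') le_rfl le_rfl
        (by rw [hexp1]; linarith) v0 v1 hv00 hv4 hlen
      simp only [hE, if_true]
      exact h1.trans (ENNReal.ofReal_le_ofReal (hdec δ1 (min_le_left _ _)))
    | false =>
      have hl4 : (1 - ρ) * (4 * T') ≤ 4 * T' :=
        mul_le_of_le_one_left (by linarith) (by linarith)
      have hl5 : T' ≤ (1 - ρ) * (4 * T') - 2 * T' := by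
        have h30 : (1 - ρ) * (4 * T') - 2 * T' = T' + (1 - 4 * ρ) * T' := by ring
        have h31 : 0 ≤ (1 - 4 * ρ) * T' := mul_nonneg (by linarith) hT'0.le
        linarith
      have h1 := hLo T' (by linarith) Λ hl2 hΛL (2 * T') ((1 - ρ) * (4 * T')) le_rfl
        hl4 (by rw [hexp1]; exact hl5) v0 v1 hv00 hv4 hlen
      simp only [hE, Bool.false_eq_true, if_false]
      exact h1.trans (ENNReal.ofReal_le_ofReal (hdec δ2 (min_le_right _ _)))
  have hun := vol_union S E m hEm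
  have hcard : (S.card : ℝ) = 2 * J := by
    rw [hS, Finset.card_product]
    simp
    ring
  rw [hcard] at hun
  have hsub : {α : ℝ | α ∈ Set.Icc a0 a1 ∧
        ¬ (|NC T B α - B * (T * Λ / (2 * Real.pi))| ≤
          (1 / (1 + c) + ε) * (T * Λ / (2 * Real.pi)))} ⊆
      {α : ℝ | k * (α + B / 2) ∈ ⋃ p ∈ S, E p} := by
    rintro α ⟨hα, hbad⟩
    by_contra hcon
    apply hbad
    have hg : ∀ p ∈ S, k * (α + B / 2) ∉ E p := fun p hp hmem => hcon (Set.mem_biUnion hp hmem)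
    have hvI : k * (α + B / 2) ∈ Set.Icc v0 v1 := by
      constructor
      · rw [hv0]
        apply mul_le_mul_of_nonneg_left _ hk0.le
        linarith [hα.1]
      · rw [hv1]
        apply mul_le_mul_of_nonneg_left _ hk0.le
        linarith [hα.2]
    have hα0 : 0 ≤ α := ha0.trans hα.1
    have hkα : k * (α + B) ≤ α + B := mul_le_of_le_one_left (by linarith) hk1
    have hαTX : α + B ≤ TX := by linarith [hα.2]
    have hhiα : 2 * Real.pi * (α + B) / Λ = k * (α + B) := by rw [hk]; ring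
    have hYTX : 4 * TX ≤ T / 2 ^ J := by
      rw [le_div_iff₀ hJ0', ← hTT]
      calc 4 * TX * 2 ^ J = (2 ^ J * 4) * TX := by ring
        _ ≤ Tr * TX := by gcongr
    have hYTX2 : T / 2 ^ J ≤ 8 * TX := by
      rw [div_le_iff₀ hJ0', ← hTT]
      calc Tr * TX ≤ (8 * 2 ^ J) * TX := by gcongr
        _ = _ := by ring
    have hJ01 : 1 ≤ T / 2 ^ J := by linarith
    have hJw : ∀ j ∈ Finset.range J, 1 < T / 2 ^ (j + 2) ∧
        2 * Real.pi * (α + B) / Real.log T ≤ 10 * (T / 2 ^ (j + 2)) := by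
      intro j hj
      have h1 := hwin j hj
      refine ⟨by linarith, ?_⟩
      rw [← hΛd, hhiα]
      linarith
    have hup := det_upper (T := T) (B := B) (α := α) (μ := μ) (ε1 := ε1) (J := J) hT1' hΛ0 hμ hB
      hε10.le hα0 hJw hJ01 (fun j hj => by
        have h1 := hg (j, true) (Finset.mem_product.2 ⟨hj, Finset.mem_univ _⟩)
        simp only [hE, if_true, Set.mem_ofPred_eq, not_and, not_not] at h1
        exact h1 hvI)
    rw [← hΛd] at hup
    have hlow := low_part hTpos hΛ0 (by linarith) hε hCz hCn hTT e5 hYTX2 (by linarith)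
      (hZc (T / 2 ^ J) (by linarith)) (hZn T hTn)
      (lo := 2 * Real.pi * α / Λ) (hi := 2 * Real.pi * (α + B) / Λ) (by positivity)
      (by
        have : 2 * Real.pi * (α + B) / Λ - 2 * Real.pi * α / Λ = 2 * Real.pi * B / Λ := by ring
        rw [this, div_le_one hΛ0]
        have : 2 * Real.pi * B ≤ 8 * B := by gcongr; linarith
        linarith) hΛd (div_le_self hTpos.le (one_le_pow₀ (by norm_num)))
    have hM0 : 0 ≤ T * Λ := by positivity
    rw [abs_le]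
    constructor
    · rcases lt_or_ge (B + -1 / μ) 0 with hneg | hpos
      · have hN : 0 ≤ NC T B α :=
          Finset.sum_nonneg fun s _ => mul_nonneg (mz_nonneg _) (KK_nonneg _ _ _ _)
        exact assemble_neg hN hneg hμi hε hM0
      · have hlo := det_lower (T := T) (B := B) (α := α) (μ := μ) (ε1 := ε1) (ρ := ρ) (J := J) hT1'
          hΛ0 hμ hε10.le hρ hρ8 hpos (by
            rw [← hΛd, hhiα]
            rw [Real.rpow_one, one_div, inv_mul_eq_div, div_le_iff₀ hρ] at e4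
            linarith [hα.2]) (fun j hj => ⟨(hJw j hj).1, by rw [← hΛd]; exact hlogw j hj⟩) hJ01
          (fun j hj => by
            have h1 := hg (j, false) (Finset.mem_product.2 ⟨hj, Finset.mem_univ _⟩)
            simp only [hE, Bool.false_eq_true, if_false, Set.mem_ofPred_eq, not_and, not_not] at h1
            exact h1 hvI)
        rw [← hΛd] at hlo
        have hq : 1 / 2 ^ J ≤ ρ := by
          have h1 : 8 / ρ ≤ Tr := (le_max_right _ _).trans e7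
          rw [div_le_iff₀ hρ] at h1
          rw [div_le_iff₀ hJ0']
          have h2 : Tr * ρ ≤ (8 * 2 ^ J) * ρ := by gcongr
          linarith
        exact assemble_low hlo hq (by positivity) hρ hρ8 hρB hpos hμ hB hμi hε hM0
    · exact assemble_up hup hlow hμi hε hM0
  refine (measure_mono hsub).trans ?_
  rw [vol_affine hk0]
  refine (mul_le_mul_right hun _).trans ?_
  rw [← ENNReal.ofReal_mul (by positivity)]
  apply ENNReal.ofReal_le_ofReal
  have ha0' : 0 ≤ a1 - a0 := by linarith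
  have hx1 : Real.exp (-(δm / 2 * Λ)) = T ^ (-(δm / 2)) := by
    rw [Real.rpow_def_of_pos hTpos]; congr 1; ring
  have hx2 : T ^ (-(δm / 4)) = T ^ (δm / 4) * T ^ (-(δm / 2)) := by
    rw [← Real.rpow_add hTpos]; congr 1; ring
  have hx3 : 0 < T ^ (-(δm / 2)) := Real.rpow_pos_of_pos hTpos _
  rw [hm, hx1, hv01, hx2]
  have h2J : 2 * (J : ℝ) ≤ T ^ (δm / 4) := by
    have : 2 * (J : ℝ) ≤ 4 * Λ := by
      have : ρ / 2 * Λ ≤ 1 * Λ := by gcongr; linarith
      linarith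
    linarith
  calc k⁻¹ * (2 * ↑J * (k * (a1 - a0) * T ^ (-(δm / 2)))) =
      2 * ↑J * ((a1 - a0) * T ^ (-(δm / 2))) := by field_simp
    _ ≤ T ^ (δm / 4) * ((a1 - a0) * T ^ (-(δm / 2))) := by gcongr
    _ = _ := by ring

end Pool.Agent.W2helper69.PS
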