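import Pool.Agent.W2helper69.PS.Fin2

/-! Pairs of zeros of zeta at almost all distances, in short intervals. -/

set_option autoImplicit false

open Complex Filter Topology Set MeasureTheory
open scoped BigOperators ComplexConjugate

namespace Pool.Agent.W2helper69.PS

open H370 H370.A2 Pool.Agent.W2helper69.BS

lemma log_half {T : ℝ} (hT : 0 < T) : Real.log (T / 2) = Real.log T - Real.log 2 :=
  Real.log_div hT.ne' (by norm_num)

/-- the smooth sum over all the zeros with ordinates in `(0, 8 T]` -/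
noncomputable def SF (ψ : ℝ → ℝ) (μ Λ T t1 t2 u : ℝ) : ℝ :=
  ∑ s ∈ Zf riemannZeta t1 t2, ∑ s' ∈ Z0 (8 * T), mz s * mz s' *
    RR ψ μ ((s'.im - s.im - u) * Λ / (2 * Real.pi))

lemma SF_SS : ∃ K T0 : ℝ, 0 < K ∧ 10 ≤ T0 ∧ ∀ T : ℝ, T0 ≤ T → ∀ t1 t2 : ℝ, T ≤ t1 → t2 ≤ 2 * T →
    ∀ (ψ : ℝ → ℝ) (μ C : ℝ), 0 ≤ C → (∀ x, |RR ψ μ x| * x ^ 2 ≤ C) →
    ∀ u : ℝ, 0 ≤ u → u ≤ 2 * T →
    |SF ψ μ (Real.log T) T t1 t2 u - SS riemannZeta ψ μ (Real.log T) (T / 2) t1 t2 u| ≤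
      K * C * NN riemannZeta t1 t2 / Real.log T := by
  classical
  obtain ⟨Cz, Xz, hCz, hXz, hZc⟩ := Z0_crude
  refine ⟨16 * (16 * Real.pi ^ 2 * 16) * Cz, max 10 Xz, by positivity, le_max_left _ _,
    fun T hT t1 t2 ht1 ht2 ψ μ C hC0 hC u hu0 hu1 => ?_⟩
  have hT10 : 10 ≤ T := (le_max_left _ _).trans hT
  have hTX : Xz ≤ T := (le_max_right _ _).trans hT
  have hpi := Real.pi_pos
  have hl1 : 1 ≤ Real.log T := by
    rw [Real.le_log_iff_exp_le (by linarith)]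
    linarith [Real.exp_one_lt_d9]
  have hl8 : Real.log (8 * T) ≤ 2 * Real.log T := by
    have e : 2 * Real.log T = Real.log (T ^ 2) := by rw [Real.log_pow]; push_cast; ring
    rw [e]
    apply Real.log_le_log (by linarith)
    nlinarith
  set Λ := Real.log T with hΛ
  set W : ℝ := ∑ s' ∈ Z0 (8 * T), mz s' with hW
  have hW1 : W ≤ Cz * (8 * T * (2 * Λ)) := by
    refine (hZc (8 * T) (by linarith)).trans ?_
    gcongr
  set b : ℝ := C * (16 * Real.pi ^ 2 * 16) / (T ^ 2 * Λ ^ 2) with hb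
  have hb0 : 0 ≤ b := by positivity
  have hfar : ∀ d : ℝ, T / 4 ≤ |d| → |RR ψ μ (d * Λ / (2 * Real.pi))| ≤ b := by
    intro d hd
    have h1 := hC (d * Λ / (2 * Real.pi))
    have h2 : (T / 4 * Λ / (2 * Real.pi)) ^ 2 ≤ (d * Λ / (2 * Real.pi)) ^ 2 := by
      rw [← sq_abs (d * Λ / (2 * Real.pi)), abs_div, abs_mul, abs_of_pos (by linarith : 0 < Λ),
        abs_of_pos (by positivity : 0 < 2 * Real.pi)]
      gcongr
    have h3 : 0 < (T / 4 * Λ / (2 * Real.pi)) ^ 2 := by positivity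
    have h4 : |RR ψ μ (d * Λ / (2 * Real.pi))| * (T / 4 * Λ / (2 * Real.pi)) ^ 2 ≤ C := by
      refine le_trans ?_ h1
      gcongr
    rw [← le_div_iff₀ h3] at h4
    refine h4.trans ?_
    rw [hb]
    have e : C / (T / 4 * Λ / (2 * Real.pi)) ^ 2 = C * (4 * Real.pi ^ 2 * 16) / (T ^ 2 * Λ ^ 2) := by
      field_simp
      ring
    rw [e]
    gcongr
    norm_num
  unfold SF SS
  rw [← Finset.sum_sub_distrib]
  have key : ∀ s ∈ Zf riemannZeta t1 t2,
      |(∑ s' ∈ Z0 (8 * T), mz s * mz s' * RR ψ μ ((s'.im - s.im - u) * Λ / (2 * Real.pi))) -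
        ∑ s' ∈ Zf riemannZeta (T / 2 + 1) (16 * (T / 2) - 1), (mult riemannZeta s : ℝ) *
          (mult riemannZeta s' : ℝ) * RR ψ μ ((s'.im - s.im - u) * Λ / (2 * Real.pi))| ≤
      mz s * (b * W) := by
    intro s hs
    rw [mem_Zz (by linarith)] at hs
    have hs1 : T < s.im := by linarith [hs.2.2.1]
    have hs2 : s.im ≤ 2 * T := by linarith [hs.2.2.2.1]
    set f : ℂ → ℝ := fun s' => mz s * mz s' * RR ψ μ ((s'.im - s.im - u) * Λ / (2 * Real.pi))
      with hf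
    have e1 : ∑ s' ∈ Z0 (8 * T), f s' = ∑ s' ∈ Z0 (T / 2 + 1), f s' +
        ∑ s' ∈ Zf riemannZeta (T / 2 + 1) (8 * T - 1), f s' +
        ∑ s' ∈ Zf riemannZeta (8 * T - 1) (8 * T), f s' := by
      rw [Z0_split (A := 8 * T - 1) (B := 8 * T) (by linarith) (by linarith),
        Z0_split (A := T / 2 + 1) (B := 8 * T - 1) (by linarith) (by linarith)]
    have e2 : 16 * (T / 2) - 1 = 8 * T - 1 := by ring
    have e3 : ∑ s' ∈ Z0 (8 * T), mz s' = ∑ s' ∈ Z0 (T / 2 + 1), mz s' +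
        ∑ s' ∈ Zf riemannZeta (T / 2 + 1) (8 * T - 1), mz s' +
        ∑ s' ∈ Zf riemannZeta (8 * T - 1) (8 * T), mz s' := by
      rw [Z0_split (A := 8 * T - 1) (B := 8 * T) (by linarith) (by linarith),
        Z0_split (A := T / 2 + 1) (B := 8 * T - 1) (by linarith) (by linarith)]
    rw [e2]
    have e4 : (∑ s' ∈ Z0 (8 * T), f s') - ∑ s' ∈ Zf riemannZeta (T / 2 + 1) (8 * T - 1), f s' =
        ∑ s' ∈ Z0 (T / 2 + 1), f s' + ∑ s' ∈ Zf riemannZeta (8 * T - 1) (8 * T), f s' := by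
      rw [e1]; ring
    show |(∑ s' ∈ Z0 (8 * T), f s') - ∑ s' ∈ Zf riemannZeta (T / 2 + 1) (8 * T - 1), f s'| ≤ _
    rw [e4]
    have g1 : |∑ s' ∈ Z0 (T / 2 + 1), f s'| ≤ mz s * (b * ∑ s' ∈ Z0 (T / 2 + 1), mz s') := by
      rw [Finset.mul_sum, Finset.mul_sum]
      refine (Finset.abs_sum_le_sum_abs _ _).trans (Finset.sum_le_sum fun s' hs' => ?_)
      rw [mem_Z0] at hs'
      have h5 := hfar (s'.im - s.im - u) (by
        rw [abs_of_neg (by linarith [hs'.2.2.2.1])]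
        linarith [hs'.2.2.2.1])
      have hm : 0 ≤ mz s * mz s' := mul_nonneg (mz_nonneg _) (mz_nonneg _)
      simp only [hf]
      rw [abs_mul, abs_of_nonneg hm]
      calc mz s * mz s' * |RR ψ μ ((s'.im - s.im - u) * Λ / (2 * Real.pi))| ≤
          mz s * mz s' * b := by gcongr
        _ = _ := by ring
    have g2 : |∑ s' ∈ Zf riemannZeta (8 * T - 1) (8 * T), f s'| ≤
        mz s * (b * ∑ s' ∈ Zf riemannZeta (8 * T - 1) (8 * T), mz s') := by
      rw [Finset.mul_sum, Finset.mul_sum]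
      refine (Finset.abs_sum_le_sum_abs _ _).trans (Finset.sum_le_sum fun s' hs' => ?_)
      rw [mem_Zz (by linarith)] at hs'
      have h5 := hfar (s'.im - s.im - u) (by
        rw [abs_of_pos (by linarith [hs'.2.2.1])]
        linarith [hs'.2.2.1])
      have hm : 0 ≤ mz s * mz s' := mul_nonneg (mz_nonneg _) (mz_nonneg _)
      simp only [hf]
      rw [abs_mul, abs_of_nonneg hm]
      calc mz s * mz s' * |RR ψ μ ((s'.im - s.im - u) * Λ / (2 * Real.pi))| ≤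
          mz s * mz s' * b := by gcongr
        _ = _ := by ring
    have g3 : 0 ≤ ∑ s' ∈ Zf riemannZeta (T / 2 + 1) (8 * T - 1), mz s' :=
      Finset.sum_nonneg fun _ _ => mz_nonneg _
    have g4 := abs_add_le (∑ s' ∈ Z0 (T / 2 + 1), f s')
      (∑ s' ∈ Zf riemannZeta (8 * T - 1) (8 * T), f s')
    have g5 : mz s * (b * ∑ s' ∈ Z0 (T / 2 + 1), mz s') +
        mz s * (b * ∑ s' ∈ Zf riemannZeta (8 * T - 1) (8 * T), mz s') ≤ mz s * (b * W) := by
      have g6 : mz s * (b * W) = mz s * (b * ∑ s' ∈ Z0 (T / 2 + 1), mz s') +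
        mz s * (b * ∑ s' ∈ Zf riemannZeta (8 * T - 1) (8 * T), mz s') +
        mz s * (b * ∑ s' ∈ Zf riemannZeta (T / 2 + 1) (8 * T - 1), mz s') := by
        rw [hW, e3]; ring
      have g7 : 0 ≤ mz s * (b * ∑ s' ∈ Zf riemannZeta (T / 2 + 1) (8 * T - 1), mz s') :=
        mul_nonneg (mz_nonneg _) (mul_nonneg hb0 g3)
      linarith
    linarith
  refine (Finset.abs_sum_le_sum_abs _ _).trans ((Finset.sum_le_sum key).trans ?_)
  rw [← Finset.sum_mul, ← NNz (by linarith)]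
  have hbW : b * W ≤ 16 * (16 * Real.pi ^ 2 * 16) * Cz * C / Λ := by
    calc b * W ≤ b * (Cz * (8 * T * (2 * Λ))) := by gcongr
      _ = 16 * (16 * Real.pi ^ 2 * 16) * Cz * C / Λ * (1 / T) := by
          rw [hb]
          field_simp
          ring
      _ ≤ 16 * (16 * Real.pi ^ 2 * 16) * Cz * C / Λ * 1 := by
          gcongr
          rw [div_le_one (by positivity)]
          linarith
      _ = _ := by ring
  have hN0 : (0 : ℝ) ≤ (NN riemannZeta t1 t2 : ℝ) := Nat.cast_nonneg _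
  calc (NN riemannZeta t1 t2 : ℝ) * (b * W) ≤
      (NN riemannZeta t1 t2 : ℝ) * (16 * (16 * Real.pi ^ 2 * 16) * Cz * C / Λ) := by gcongr
    _ = _ := by ring

/-- parameters for the short intervals -/
lemma params3 {η c ε : ℝ} (hη : 0 < η) (hη1 : η ≤ 1) (hc : 0 < c) (hc1 : c ≤ 1) (hε : 0 < ε) :
    ∃ ρ μ : ℝ, 0 < ρ ∧ ρ ≤ 1 / 8 ∧ 0 < μ ∧ μ * (1 + ρ) ≤ 4 ∧ μ * (1 + ρ) < η + c * (1 - ρ) ∧
      1 / μ ≤ 1 / (η + c) + ε / 2 := by
  set ρ : ℝ := min (1 / 8) (ε * (η + c) / 8) with hρd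
  have hρ : 0 < ρ := lt_min (by norm_num) (by positivity)
  have hρ8 : ρ ≤ 1 / 8 := min_le_left _ _
  have hρε : ρ ≤ ε * (η + c) / 8 := min_le_right _ _
  have h1 : 0 < 1 - ρ := by linarith
  refine ⟨ρ, (η + c) * (1 - ρ) / (1 + ρ), hρ, hρ8, by positivity, ?_, ?_, ?_⟩
  · rw [div_mul_cancel₀ _ (by positivity)]
    nlinarith
  · rw [div_mul_cancel₀ _ (by positivity)]
    have : (η + c) * (1 - ρ) = η + c * (1 - ρ) - η * ρ := by ring
    have : 0 < η * ρ := by positivity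
    linarith
  · have h2 : 1 / ((η + c) * (1 - ρ) / (1 + ρ)) = (1 / (η + c)) * ((1 + ρ) / (1 - ρ)) := by
      field_simp
    rw [h2]
    have h3 : (1 + ρ) / (1 - ρ) ≤ 1 + 4 * ρ := by
      rw [div_le_iff₀ h1]
      nlinarith
    have h5 : 0 < 1 / (η + c) := by positivity
    calc 1 / (η + c) * ((1 + ρ) / (1 - ρ)) ≤ 1 / (η + c) * (1 + 4 * ρ) := by gcongr
      _ = 1 / (η + c) + 1 / (η + c) * (4 * ρ) := by ring
      _ ≤ 1 / (η + c) + 1 / (η + c) * (4 * (ε * (η + c) / 8)) := by gcongr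
      _ = _ := by field_simp; ring

lemma assemble_low2 {N T Λ B μ e ε ρ : ℝ}
    (h1 : T * (Λ * ((1 - ρ) * (B + -1 / μ) / (2 * Real.pi) - ε / 100)) ≤ N)
    (hρB : ρ ≤ ε / (8 * B)) (hρ : 0 < ρ) (hμ : 0 < μ) (hB : 0 < B)
    (hμi : 1 / μ ≤ 1 / e + ε / 2) (hε : 0 < ε) (hM : 0 ≤ T * Λ) :
    -((1 / e + ε) * (T * Λ / (2 * Real.pi))) ≤ N - B * (T * Λ / (2 * Real.pi)) := by
  have hpi := Real.pi_pos
  have hpi4 := Real.pi_lt_four
  set P := B + -1 / μ with hP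
  set M := T * Λ / (2 * Real.pi) with hMd
  have hM0 : 0 ≤ M := by positivity
  have hPB : P ≤ B := by
    have : 0 ≤ 1 / μ := by positivity
    rw [hP, show -1 / μ = -(1 / μ) by ring]
    linarith
  have e1 : T * (Λ * ((1 - ρ) * P / (2 * Real.pi) - ε / 100)) =
      P * M - ρ * (P * M) - ε / 100 * (2 * Real.pi) * M := by
    rw [hMd]; field_simp
  have e2 : ε / 100 * (2 * Real.pi) * M ≤ ε / 8 * M := by
    apply mul_le_mul_of_nonneg_right _ hM0
    nlinarith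
  have g6 : ρ * (P * M) ≤ ε / 8 * M := by
    have h3 : ρ * B ≤ ε / 8 := by
      rw [le_div_iff₀ (by positivity)] at hρB
      linarith
    calc ρ * (P * M) ≤ ρ * (B * M) := by gcongr
      _ = (ρ * B) * M := by ring
      _ ≤ ε / 8 * M := by gcongr
  have g7 : P * M = B * M - 1 / μ * M := by rw [hP]; ring
  have g8 : 1 / μ * M ≤ (1 / e + ε / 2) * M := by gcongr
  have g9 : 0 ≤ ε * M := by positivity
  rw [e1] at h1
  linarith

/-- the number of pairs with the lower ordinate in `(t1, t2]` -/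
noncomputable def NL (T t1 t2 B α : ℝ) : ℝ :=
  ∑ s ∈ Zf riemannZeta t1 t2, mz s *
    KK (8 * T) (2 * Real.pi * α / Real.log T) (2 * Real.pi * (α + B) / Real.log T) s.im

theorem count_short (hRH : RiemannHypothesis) (η c B ε : ℝ) (hη : 0 < η) (hη1 : η ≤ 1)
    (hc : 0 < c) (hc1 : c ≤ 1) (hB : 0 < B) (hε : 0 < ε) :
    ∃ δ : ℝ, 0 < δ ∧ ∃ T0 : ℝ, 10 ≤ T0 ∧ ∀ T : ℝ, T0 ≤ T → ∀ t1 t2 : ℝ, T ≤ t1 → t2 ≤ 2 * T →
      T ^ η ≤ t2 - t1 → ∀ a0 a1 : ℝ, 0 ≤ a0 → a1 ≤ T → T ^ c ≤ a1 - a0 →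
      volume {α : ℝ | α ∈ Set.Icc a0 a1 ∧
        ¬ (|NL T t1 t2 B α - B * ((t2 - t1) * Real.log T / (2 * Real.pi))| ≤
          (1 / (η + c) + ε) * ((t2 - t1) * Real.log T / (2 * Real.pi)))} ≤
        ENNReal.ofReal ((a1 - a0) * T ^ (-δ)) := by
  obtain ⟨ρ0, μ, hρ0, hρ08, hμ, hμ4, hμg, hμi⟩ := params3 hη hη1 hc hc1 hε
  obtain ⟨C1, hC1⟩ := decay (s := 1) hμ hB (Or.inl rfl)
  obtain ⟨C2, hC2⟩ := decay (s := -1) hμ hB (Or.inr rfl)
  set ε1 : ℝ := ε / 100 with hε1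
  have hε10 : 0 < ε1 := by positivity
  have hc'0 : 0 < c * (1 - ρ0) := by apply mul_pos hc; linarith
  obtain ⟨δ1, hδ1, T1, hT1, hU⟩ := zeta_core hRH η (c * (1 - ρ0)) μ ρ0 ε1 hη hη1 hc'0 hμ hμ4
    hμg hε10 (psiB μ B 1) (psiB_cont _ _ _) (fun x hx => psiB_zero hμ (Or.inl rfl) hx) C1 hC1
  obtain ⟨δ2, hδ2, T2, hT2, hLo⟩ := zeta_core hRH η (c * (1 - ρ0)) μ ρ0 ε1 hη hη1 hc'0 hμ hμ4
    hμg hε10 (psiB μ B (-1)) (psiB_cont _ _ _) (fun x hx => psiB_zero hμ (Or.inr rfl) hx) C2 hC2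
  rw [psiB_at hμ] at hU hLo
  set δm : ℝ := min δ1 δ2 with hδm
  have hδm0 : 0 < δm := lt_min hδ1 hδ2
  -- the second parameter
  set ρ : ℝ := min ρ0 (min 1 (ε / (8 * B))) with hρd
  have hρ : 0 < ρ := lt_min hρ0 (lt_min one_pos (by positivity))
  have hρρ0 : ρ ≤ ρ0 := min_le_left _ _
  have hρ1 : ρ ≤ 1 := (min_le_right _ _).trans (min_le_left _ _)
  have hρB : ρ ≤ ε / (8 * B) := (min_le_right _ _).trans (min_le_right _ _)
  have hpi := Real.pi_pos
  have hpi3 := Real.pi_gt_three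
  have hpi4 := Real.pi_lt_four
  have ev1 : ∀ᶠ T : ℝ in atTop, max 8 (4 / ρ) ≤ Real.log T :=
    Real.tendsto_log_atTop.eventually_ge_atTop _
  have ev2 : ∀ᶠ T : ℝ in atTop, 1 * Real.log T ≤ T ^ (c * ρ0) := ev_log_rpow (by positivity) 1
  have ev8 : ∀ᶠ T : ℝ in atTop, 2 ≤ T ^ (δm / 4) := ev_rpow_ge (by positivity) _
  obtain ⟨T0, hT0⟩ := (ev1.and (ev2.and (ev8.and
    (eventually_ge_atTop (max (max 10 (2 * B)) (max (2 * T1) (2 * T2))))))).exists_forall_of_atTop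
  refine ⟨δm / 4, by positivity, max 10 T0, le_max_left _ _,
    fun T hT t1 t2 ht1 ht2 hH a0 a1 ha0 ha1 ha => ?_⟩
  obtain ⟨e1, e2, e8, e9⟩ := hT0 T ((le_max_right _ _).trans hT)
  have hT10 : 10 ≤ T := ((le_max_left _ _).trans (le_max_left _ _)).trans e9
  have hTB : 2 * B ≤ T := ((le_max_right _ _).trans (le_max_left _ _)).trans e9
  have hTT1 : 2 * T1 ≤ T := ((le_max_left _ _).trans (le_max_right _ _)).trans e9
  have hTT2 : 2 * T2 ≤ T := ((le_max_right _ _).trans (le_max_right _ _)).trans e9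
  have hTpos : 0 < T := by linarith
  set Λ := Real.log T with hΛd
  have hΛ8 : 8 ≤ Λ := (le_max_left _ _).trans e1
  have hΛρ : 4 / ρ ≤ Λ := (le_max_right _ _).trans e1
  have hΛ0 : 0 < Λ := by linarith
  have hlogh : Real.log (T / 2) = Λ - Real.log 2 := log_half hTpos
  have hl20 : 0 < Real.log 2 := Real.log_pos (by norm_num)
  have hl21 : Real.log 2 ≤ 1 := by
    have := Real.log_two_lt_d9
    linarith
  set L := Real.log (T / 2) with hL
  have hLΛ : L ≤ Λ := by linarith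
  have hΛL2 : (1 - ρ / 2) * Λ ≤ L := by
    rw [div_le_iff₀ hρ] at hΛρ
    linarith
  have hL0 : 0 ≤ L := by linarith
  have hΛL : Λ ≤ (1 + ρ0) * L := by
    rw [div_le_iff₀ hρ] at hΛρ
    have h1 : ρ * L ≤ ρ0 * L := by gcongr
    have h2 : ρ * L = ρ * Λ - ρ * Real.log 2 := by rw [hlogh]; ring
    have h3 : ρ * Real.log 2 ≤ 1 * 1 := by gcongr
    linarith
  set k := 2 * Real.pi / Λ with hk
  have hk0 : 0 < k := by positivity
  have hk1 : k ≤ 1 := by
    rw [hk, div_le_one hΛ0]; linarith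
  set v0 := k * (a0 + B / 2) with hv0
  set v1 := k * (a1 + B / 2) with hv1
  have ha0a1 : a0 ≤ a1 := by
    have : 0 ≤ T ^ c := Real.rpow_nonneg hTpos.le _
    linarith
  have hv00 : 0 ≤ v0 := by positivity
  have hv1T : v1 ≤ 4 * (T / 2) := by
    have : v1 ≤ 1 * (a1 + B / 2) := by
      rw [hv1]
      apply mul_le_mul_of_nonneg_right hk1
      linarith
    linarith
  have hv01 : v1 - v0 = k * (a1 - a0) := by rw [hv0, hv1]; ring
  have hvlen : Real.exp (c * (1 - ρ0) * L) ≤ v1 - v0 := by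
    rw [hv01]
    have h0 : Real.exp (c * (1 - ρ0) * L) ≤ Real.exp (c * (1 - ρ0) * Λ) := by
      apply Real.exp_le_exp.2
      gcongr
    have h1 : Real.exp (c * (1 - ρ0) * Λ) = T ^ (c * (1 - ρ0)) := by
      rw [Real.rpow_def_of_pos hTpos]; congr 1; ring
    have h2 : T ^ c = T ^ (c * ρ0) * T ^ (c * (1 - ρ0)) := by
      rw [← Real.rpow_add hTpos]; congr 1; ring
    have h3 : 0 < T ^ (c * (1 - ρ0)) := Real.rpow_pos_of_pos hTpos _
    refine h0.trans ?_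
    rw [h1]
    calc T ^ (c * (1 - ρ0)) ≤ 2 * Real.pi * T ^ (c * (1 - ρ0)) := by
          apply le_mul_of_one_le_left h3.le
          linarith
      _ = k * (Λ * T ^ (c * (1 - ρ0))) := by rw [hk]; field_simp
      _ ≤ k * (T ^ (c * ρ0) * T ^ (c * (1 - ρ0))) := by
          gcongr
          linarith
      _ = k * T ^ c := by rw [h2]
      _ ≤ _ := by gcongr
  have hHlen : Real.exp (η * L) ≤ t2 - t1 := by
    refine le_trans ?_ hH
    rw [Real.rpow_def_of_pos hTpos]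
    apply Real.exp_le_exp.2
    rw [← hΛd]
    have : η * L ≤ η * Λ := by gcongr
    linarith
  set H := t2 - t1 with hHd
  have hH0 : 0 < H := lt_of_lt_of_le (Real.exp_pos _) hHlen
  have h1 := hU (T / 2) (by linarith) Λ hLΛ hΛL t1 t2 (by linarith) (by linarith) hHlen v0 v1 hv00
    hv1T hvlen
  have h2 := hLo (T / 2) (by linarith) Λ hLΛ hΛL t1 t2 (by linarith) (by linarith) hHlen v0 v1 hv00
    hv1T hvlen
  rw [← hL, ← hHd] at h1 h2
  set E1 := {u : ℝ | u ∈ Set.Icc v0 v1 ∧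
        ¬ (|SS riemannZeta (psiB μ B 1) μ Λ (T / 2) t1 t2 u - H * L / (2 * Real.pi) *
            (L / Λ * (B + 1 / μ))| ≤ ε1 * (H * L))} with hE1
  set E2 := {u : ℝ | u ∈ Set.Icc v0 v1 ∧
        ¬ (|SS riemannZeta (psiB μ B (-1)) μ Λ (T / 2) t1 t2 u - H * L / (2 * Real.pi) *
            (L / Λ * (B + -1 / μ))| ≤ ε1 * (H * L))} with hE2
  have hLhalf : Λ / 2 ≤ L := by linarith
  have hdec : ∀ δ' : ℝ, δm ≤ δ' → (v1 - v0) * Real.exp (-(δ' * L)) ≤
      (v1 - v0) * Real.exp (-(δm / 2 * Λ)) := by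
    intro δ' hδ'
    have hv : 0 ≤ v1 - v0 := le_trans (Real.exp_pos _).le hvlen
    apply mul_le_mul_of_nonneg_left _ hv
    apply Real.exp_le_exp.2
    have h3 : 0 ≤ δ' := hδm0.le.trans hδ'
    have h2 : δm * (Λ / 2) ≤ δ' * L := by gcongr
    linarith
  have hE1m := h1.trans (ENNReal.ofReal_le_ofReal (hdec δ1 (min_le_left _ _)))
  have hE2m := h2.trans (ENNReal.ofReal_le_ofReal (hdec δ2 (min_le_right _ _)))
  have hM0 : 0 ≤ H * Λ := by positivity
  have hsub : {α : ℝ | α ∈ Set.Icc a0 a1 ∧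
        ¬ (|NL T t1 t2 B α - B * (H * Λ / (2 * Real.pi))| ≤
          (1 / (η + c) + ε) * (H * Λ / (2 * Real.pi)))} ⊆
      {α : ℝ | k * (α + B / 2) ∈ E1 ∪ E2} := by
    rintro α ⟨hα, hbad⟩
    by_contra hcon
    apply hbad
    have hcon' : ¬ (k * (α + B / 2) ∈ E1 ∨ k * (α + B / 2) ∈ E2) := hcon
    rw [not_or] at hcon'
    obtain ⟨g1, g2⟩ := hcon'
    have hvI : k * (α + B / 2) ∈ Set.Icc v0 v1 := by
      constructor
      · rw [hv0]
        apply mul_le_mul_of_nonneg_left _ hk0.le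
        linarith [hα.1]
      · rw [hv1]
        apply mul_le_mul_of_nonneg_left _ hk0.le
        linarith [hα.2]
    simp only [hE1, Set.mem_ofPred_eq, not_and, not_not] at g1
    simp only [hE2, Set.mem_ofPred_eq, not_and, not_not] at g2
    have g1' := g1 hvI
    have g2' := g2 hvI
    have hα0 : 0 ≤ α := ha0.trans hα.1
    have hkα : k * (α + B) ≤ α + B := mul_le_of_le_one_left (by linarith) hk1
    set lo := 2 * Real.pi * α / Λ with hlo
    set hi := 2 * Real.pi * (α + B) / Λ with hhi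
    have hlo0 : 0 ≤ lo := by positivity
    have hlh : hi - lo = 2 * Real.pi * B / Λ := by rw [hlo, hhi]; ring
    have hmid : (lo + hi) / 2 = k * (α + B / 2) := by rw [hlo, hhi, hk]; ring
    have hhiα : hi = k * (α + B) := by rw [hk, hhi]; ring
    have hhi2 : hi ≤ 2 * T := by
      rw [hhiα]
      linarith [hα.2]
    have w1 := win_upper (T := 8 * T) (T' := T / 2) (t1 := t1) (t2 := t2) (by linarith) (by linarith)
      (by linarith) hlo0 (by linarith) hΛ0 hμ hB hlh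
    have w2 := win_lower (T := 8 * T) (T' := T / 2) (t1 := t1) (t2 := t2) (by linarith) (by linarith)
      (by linarith) hΛ0 hμ hlh
    rw [hmid] at w1 w2
    have hNL : NL T t1 t2 B α = ∑ s ∈ Zf riemannZeta t1 t2, mz s * KK (8 * T) lo hi s.im := by
      unfold NL
      rw [← hΛd]
    rw [← hNL] at w1 w2
    have hψ1 : 0 ≤ B + 1 / μ := by positivity
    have u1 := up_win hψ1 hH0.le hL0 hΛ0 hLΛ hε10.le w1 g1'
    have up := assemble_up (N := NL T t1 t2 B α) (Low := 0) (T := H) (Λ := Λ) (B := B) (μ := μ)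
      (c := η + c - 1) (ε := ε) (by rw [zero_add]; exact u1)
      (by positivity) (by rw [show 1 + (η + c - 1) = η + c by ring]; exact hμi) hε hM0
    rw [show 1 + (η + c - 1) = η + c by ring] at up
    rw [abs_le]
    refine ⟨?_, up⟩
    rcases lt_or_ge (B + -1 / μ) 0 with hneg | hpos
    · have hN : 0 ≤ NL T t1 t2 B α :=
        Finset.sum_nonneg fun s _ => mul_nonneg (mz_nonneg _) (KK_nonneg _ _ _ _)
      have lw := assemble_neg (N := NL T t1 t2 B α) (T := H) (Λ := Λ) (B := B) (μ := μ)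
        (c := η + c - 1) (ε := ε) hN hneg
        (by rw [show 1 + (η + c - 1) = η + c by ring]; exact hμi) hε hM0
      rw [show 1 + (η + c - 1) = η + c by ring] at lw
      exact lw
    · have u2 := low_win hpos hH0.le hΛ0 hρ1 hLΛ hΛL2 hε10.le w2 g2'
      exact assemble_low2 u2 hρB hρ hμ hB hμi hε hM0
  refine (measure_mono hsub).trans ?_
  rw [vol_affine hk0]
  have hun : volume (E1 ∪ E2) ≤ ENNReal.ofReal (2 * ((v1 - v0) * Real.exp (-(δm / 2 * Λ)))) := by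
    refine (measure_union_le _ _).trans ((add_le_add hE1m hE2m).trans ?_)
    have hv : 0 ≤ v1 - v0 := le_trans (Real.exp_pos _).le hvlen
    rw [← ENNReal.ofReal_add (by positivity) (by positivity)]
    apply ENNReal.ofReal_le_ofReal
    linarith
  refine (mul_le_mul_right hun _).trans ?_
  rw [← ENNReal.ofReal_mul (by positivity)]
  apply ENNReal.ofReal_le_ofReal
  have ha0' : 0 ≤ a1 - a0 := by linarith
  have hx1 : Real.exp (-(δm / 2 * Λ)) = T ^ (-(δm / 2)) := by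
    rw [Real.rpow_def_of_pos hTpos]; congr 1; ring
  have hx2 : T ^ (-(δm / 4)) = T ^ (δm / 4) * T ^ (-(δm / 2)) := by
    rw [← Real.rpow_add hTpos]; congr 1; ring
  have hx3 : 0 < T ^ (-(δm / 2)) := Real.rpow_pos_of_pos hTpos _
  rw [hx1, hv01, hx2]
  calc k⁻¹ * (2 * (k * (a1 - a0) * T ^ (-(δm / 2)))) =
      2 * ((a1 - a0) * T ^ (-(δm / 2))) := by field_simp
    _ ≤ T ^ (δm / 4) * ((a1 - a0) * T ^ (-(δm / 2))) := by gcongr
    _ = _ := by ring

theorem smooth_main (hRH : RiemannHypothesis) (η c μ ε : ℝ) (hη : 0 < η) (hη1 : η ≤ 1)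
    (hc : 0 < c) (hc1 : c ≤ 1) (hμ : 0 < μ) (hμg : μ < η + c) (hε : 0 < ε)
    (ψ : ℝ → ℝ) (hψ : Continuous ψ) (hz : ∀ x, μ ≤ |x| → ψ x = 0) (C : ℝ)
    (hC : ∀ x, |RR ψ μ x| * x ^ 2 ≤ C) :
    ∃ δ : ℝ, 0 < δ ∧ ∃ T0 : ℝ, 10 ≤ T0 ∧ ∀ T : ℝ, T0 ≤ T → ∀ t1 t2 : ℝ, T ≤ t1 → t2 ≤ 2 * T →
      T ^ η ≤ t2 - t1 → ∀ u0 u1 : ℝ, 0 ≤ u0 → u1 ≤ 2 * T → T ^ c ≤ u1 - u0 →
      volume {u : ℝ | u ∈ Set.Icc u0 u1 ∧
        ¬ (|SF ψ μ (Real.log T) T t1 t2 u - ψ 0 * ((t2 - t1) * Real.log T / (2 * Real.pi))| ≤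
          ε * ((t2 - t1) * Real.log T / (2 * Real.pi)))} ≤
        ENNReal.ofReal ((u1 - u0) * T ^ (-δ)) := by
  have hC0 : 0 ≤ C := by
    have := hC 0
    simp at this
    exact this
  set θ : ℝ := (η + c - μ) / (2 * μ) with hθd
  have hθ : 0 < θ := div_pos (by linarith) (by positivity)
  have hμθ : μ * (1 + θ) = μ + (η + c - μ) / 2 := by rw [hθd]; field_simp
  obtain ⟨δ1, hδ1, T1, hT1, hU⟩ := zeta_core hRH η c μ θ (ε / 100) hη hη1 hc hμ
    (by rw [hμθ]; linarith) (by rw [hμθ]; linarith) (by positivity) ψ hψ hz C hC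
  obtain ⟨K, T2, hK, hT2, hSF⟩ := SF_SS
  obtain ⟨Cn, T3, hCn, hT3, hNN⟩ := NN_win good_zeta η hη hη1
  have hpi := Real.pi_pos
  have hpi3 := Real.pi_gt_three
  have hpi4 := Real.pi_lt_four
  have ev1 : ∀ᶠ T : ℝ in atTop, max (max 8 (2 / θ)) (max (2 * Cn) ((64 * (K * C) + 16 * |ψ 0|) / ε)) ≤
      Real.log T := Real.tendsto_log_atTop.eventually_ge_atTop _
  obtain ⟨T0, hT0⟩ := (ev1.and (eventually_ge_atTop
    (max 10 (max (2 * T1) (max T2 (2 * T3)))))).exists_forall_of_atTop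
  refine ⟨δ1 / 2, by positivity, max 10 T0, le_max_left _ _,
    fun T hT t1 t2 ht1 ht2 hH u0 u1 hu0 hu1 hu => ?_⟩
  obtain ⟨e1, e9⟩ := hT0 T ((le_max_right _ _).trans hT)
  have hT10 : 10 ≤ T := (le_max_left _ _).trans e9
  have hTT1 : 2 * T1 ≤ T := ((le_max_left _ _).trans (le_max_right _ _)).trans e9
  have hTT2 : T2 ≤ T :=
    (((le_max_left _ _).trans (le_max_right _ _)).trans (le_max_right _ _)).trans e9
  have hTT3 : 2 * T3 ≤ T :=
    (((le_max_right _ _).trans (le_max_right _ _)).trans (le_max_right _ _)).trans e9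
  have hTpos : 0 < T := by linarith
  set Λ := Real.log T with hΛd
  have hΛ8 : 8 ≤ Λ := ((le_max_left _ _).trans (le_max_left _ _)).trans e1
  have hΛθ : 2 / θ ≤ Λ := ((le_max_right _ _).trans (le_max_left _ _)).trans e1
  have hΛn : 2 * Cn ≤ Λ := ((le_max_left _ _).trans (le_max_right _ _)).trans e1
  have hΛε : (64 * (K * C) + 16 * |ψ 0|) / ε ≤ Λ :=
    ((le_max_right _ _).trans (le_max_right _ _)).trans e1
  have hΛ0 : 0 < Λ := by linarith
  have hlogh : Real.log (T / 2) = Λ - Real.log 2 := log_half hTpos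
  have hl20 : 0 < Real.log 2 := Real.log_pos (by norm_num)
  have hl21 : Real.log 2 ≤ 1 := by
    have := Real.log_two_lt_d9
    linarith
  set L := Real.log (T / 2) with hL
  have hLΛ : L ≤ Λ := by linarith
  have hL0 : 0 < L := by linarith
  have hL1 : Λ - 1 ≤ L := by linarith
  have hΛL : Λ ≤ (1 + θ) * L := by
    rw [div_le_iff₀ hθ] at hΛθ
    have h1 : θ * (Λ / 2) ≤ θ * L := by gcongr; linarith
    linarith
  have hulen : Real.exp (c * L) ≤ u1 - u0 := by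
    refine le_trans ?_ hu
    rw [Real.rpow_def_of_pos hTpos]
    apply Real.exp_le_exp.2
    rw [← hΛd]
    have : c * L ≤ c * Λ := by gcongr
    linarith
  have hHlen : Real.exp (η * L) ≤ t2 - t1 := by
    refine le_trans ?_ hH
    rw [Real.rpow_def_of_pos hTpos]
    apply Real.exp_le_exp.2
    rw [← hΛd]
    have : η * L ≤ η * Λ := by gcongr
    linarith
  have hNb := hNN (T / 2) (by linarith) t1 t2 (by linarith) (by linarith) (by rw [← hL]; exact hHlen)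
  rw [← hL] at hNb
  set H := t2 - t1 with hHd
  have hH0 : 0 < H := lt_of_lt_of_le (Real.exp_pos _) hHlen
  have h1 := hU (T / 2) (by linarith) Λ hLΛ hΛL t1 t2 (by linarith) (by linarith) hHlen u0 u1 hu0
    (by linarith) hulen
  rw [← hL, ← hHd] at h1
  have hNH : (NN riemannZeta t1 t2 : ℝ) ≤ H * Λ := by
    have h2 := (abs_le.1 hNb).2
    have h3 : H * L / (2 * Real.pi) ≤ H * Λ / 2 := by
      apply div_le_div₀ (by positivity) (by gcongr) (by norm_num) (by linarith)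
    have h4 : Cn * H ≤ H * Λ / 2 := by
      calc Cn * H = H * (2 * Cn) / 2 := by ring
        _ ≤ H * Λ / 2 := by gcongr
    linarith
  refine (measure_mono ?_).trans (h1.trans (ENNReal.ofReal_le_ofReal ?_))
  · rintro u ⟨hu2, hbad⟩
    refine ⟨hu2, fun hgood => hbad ?_⟩
    have g1 := hSF T hTT2 t1 t2 ht1 ht2 ψ μ C hC0 hC u (hu0.trans hu2.1) (hu2.2.trans hu1)
    rw [← hΛd] at g1
    have g2 : K * C * (NN riemannZeta t1 t2 : ℝ) / Λ ≤ K * C * H := by
      rw [div_le_iff₀ hΛ0]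
      calc K * C * (NN riemannZeta t1 t2 : ℝ) ≤ K * C * (H * Λ) := by gcongr
        _ = _ := by ring
    set M := H * Λ / (2 * Real.pi) with hMd
    have hM0 : 0 < M := by positivity
    have g3 : |H * L / (2 * Real.pi) * (L / Λ * ψ 0) - ψ 0 * M| ≤ 2 * |ψ 0| * (M / Λ) := by
      have e : H * L / (2 * Real.pi) * (L / Λ * ψ 0) - ψ 0 * M =
          -(ψ 0 * (H / (2 * Real.pi * Λ) * ((Λ - L) * (Λ + L)))) := by
        rw [hMd]; field_simp; ring
      rw [e, abs_neg, abs_mul, abs_of_nonneg (mul_nonneg (by positivity : 0 ≤ H / (2 * Real.pi * Λ))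
        (mul_nonneg (by linarith) (by linarith) : 0 ≤ (Λ - L) * (Λ + L)))]
      have h5 : (Λ - L) * (Λ + L) ≤ 1 * (2 * Λ) := by
        apply mul_le_mul <;> linarith
      calc |ψ 0| * (H / (2 * Real.pi * Λ) * ((Λ - L) * (Λ + L))) ≤
          |ψ 0| * (H / (2 * Real.pi * Λ) * (1 * (2 * Λ))) := by gcongr
        _ = _ := by rw [hMd]; field_simp
    have g4 : K * C * H + 2 * |ψ 0| * (M / Λ) ≤ ε / 8 * M := by
      have e : K * C * H = 2 * Real.pi * (K * C) * (M / Λ) := by rw [hMd]; field_simp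
      rw [e]
      rw [div_le_iff₀ hε] at hΛε
      have h5 : 2 * Real.pi * (K * C) ≤ 8 * (K * C) := by
        apply mul_le_mul_of_nonneg_right _ (by positivity)
        linarith
      have h6 : 2 * Real.pi * (K * C) * (M / Λ) + 2 * |ψ 0| * (M / Λ) ≤
          (8 * (K * C) + 2 * |ψ 0|) * (M / Λ) := by
        rw [add_mul]
        gcongr
      have h7 : (8 * (K * C) + 2 * |ψ 0|) * (M / Λ) = (64 * (K * C) + 16 * |ψ 0|) * (M / (8 * Λ)) := by
        field_simp; ring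
      have h8 : (64 * (K * C) + 16 * |ψ 0|) * (M / (8 * Λ)) ≤ (Λ * ε) * (M / (8 * Λ)) := by gcongr
      have h9 : (Λ * ε) * (M / (8 * Λ)) = ε / 8 * M := by field_simp
      linarith
    have g5 : ε / 100 * (H * L) ≤ ε / 8 * M := by
      have h5 : ε / 100 * (H * L) ≤ ε / 100 * (H * Λ) := by gcongr
      have h6 : ε / 100 * (H * Λ) = ε / 100 * (2 * Real.pi) * M := by rw [hMd]; field_simp
      have h7 : ε / 100 * (2 * Real.pi) * M ≤ ε / 8 * M := by
        apply mul_le_mul_of_nonneg_right _ hM0.le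
        have h8 : ε / 100 * (2 * Real.pi) ≤ ε / 100 * 8 := by gcongr; linarith
        linarith
      linarith
    have e : SF ψ μ Λ T t1 t2 u - ψ 0 * M =
        (SF ψ μ Λ T t1 t2 u - SS riemannZeta ψ μ Λ (T / 2) t1 t2 u) +
        ((SS riemannZeta ψ μ Λ (T / 2) t1 t2 u - H * L / (2 * Real.pi) * (L / Λ * ψ 0)) +
        (H * L / (2 * Real.pi) * (L / Λ * ψ 0) - ψ 0 * M)) := by ring
    rw [e]
    refine (abs_add_le _ _).trans ?_
    have h10 := abs_add_le (SS riemannZeta ψ μ Λ (T / 2) t1 t2 u -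
      H * L / (2 * Real.pi) * (L / Λ * ψ 0)) (H * L / (2 * Real.pi) * (L / Λ * ψ 0) - ψ 0 * M)
    have h11 : 0 ≤ ε * M := by positivity
    linarith
  · have hx1 : T ^ (-(δ1 / 2)) = Real.exp (-(δ1 / 2 * Λ)) := by
      rw [Real.rpow_def_of_pos hTpos]; congr 1; ring
    rw [hx1]
    have hv : 0 ≤ u1 - u0 := le_trans (Real.exp_pos _).le hulen
    apply mul_le_mul_of_nonneg_left _ hv
    apply Real.exp_le_exp.2
    have : δ1 * (Λ / 2) ≤ δ1 * L := by gcongr; linarith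
    linarith

end Pool.Agent.W2helper69.PS
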