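import Pool.Agent.W2helper69.PS.Corr

/-! The correlation sum is the main term minus the correlation with the prime sum. -/

set_option autoImplicit false

open Complex Filter Topology Set MeasureTheory
open scoped BigOperators ComplexConjugate

namespace Pool.Agent.W2helper69.PS

open H370 H370.A2

/-- correlation of the zeros in `(t1, t2]` with the prime sum at distance `u` -/
noncomputable def DD (F : ℂ → ℂ) (a : ℕ → ℂ) (t1 t2 v1 v2 x u : ℝ) : ℂ :=
  ∫ v in v1..v2, conj (AA F t1 t2 x v) * H370.PP a x (v + u)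

theorem formula {F : ℂ → ℂ} (hF : GoodL F) (hl : Line F) {a : ℕ → ℂ}
    (ha : ∀ n, ‖a n‖ ≤ ArithmeticFunction.vonMangoldt n)
    (hld : ∀ s : ℂ, 1 < s.re → 1 ≤ s.im → deriv F s / F s = - ∑' n : ℕ, a n * (n : ℂ) ^ (-s)) :
    ∃ C T0 : ℝ, 0 < C ∧ 10 ≤ T0 ∧ ∀ T : ℝ, T0 ≤ T → ∀ t1 t2 : ℝ, 2 * T ≤ t1 → t1 ≤ t2 →
      t2 ≤ 6 * T → ∀ x u : ℝ, 0 ≤ x → x ≤ 4 * Real.log T → 0 ≤ u → u ≤ 4 * T →
      ‖(Real.sqrt Real.pi : ℂ) * cexp (I * x * u) * cc F t1 t2 (T + 1) (16 * T - 1) x u -
        ((Real.log T * NN F t1 t2 * Real.exp (-x ^ 2) : ℝ) * cexp (I * x * u) -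
          (1 / Real.sqrt (2 * Real.pi) : ℝ) *
            DD F a t1 t2 (t1 - Real.log T) (t2 + Real.log T) x u)‖ ≤
        C * Real.exp (-x) * (∫ v in (t1 - Real.log T)..(t2 + Real.log T), ‖AA F t1 t2 x v‖) + 1 := by
  obtain ⟨C1, T1, hC1, hT1, hEF⟩ := ef_sub4 hF ha hld
  obtain ⟨C2, hC2, hsup⟩ := AA_sup hF hl
  obtain ⟨C3, hC3, hNN⟩ := NN_crude16 hF
  set K4 : ℝ := C3 * (4 * C2 + 4) with hK4
  have hK40 : 0 < K4 := by positivity
  obtain ⟨T2, hT2⟩ := (Real.tendsto_log_atTop.eventually_ge_atTop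
    (max 40 (Real.log (K4 + 1) + 1))).exists_forall_of_atTop
  refine ⟨C1, max T1 (max T2 10), hC1, (hT1.trans (le_max_left _ _)),
    fun T hT t1 t2 ht1 ht12 ht2 x u hx hxL hu huT => ?_⟩
  have hTT1 : T1 ≤ T := (le_max_left _ _).trans hT
  have hTT2 : T2 ≤ T := ((le_max_left _ _).trans (le_max_right _ _)).trans hT
  have hT10 : 10 ≤ T := ((le_max_right _ _).trans (le_max_right _ _)).trans hT
  have hTpos : 0 < T := by linarith
  have hLbig := hT2 T hTT2
  set L := Real.log T with hL
  have hL40 : 40 ≤ L := (le_max_left _ _).trans hLbig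
  have hLK : Real.log (K4 + 1) + 1 ≤ L := (le_max_right _ _).trans hLbig
  have hLT : L ≤ T / 10 := by
    have h1 : L / 2 < Real.exp (L / 2) := by
      have := Real.add_one_le_exp (L / 2)
      linarith
    have h2 : T = Real.exp (L / 2) * Real.exp (L / 2) := by
      rw [← Real.exp_add, add_halves, hL, Real.exp_log hTpos]
    have h3 : 20 ≤ Real.exp (L / 2) := by
      have := Real.add_one_le_exp (L / 2)
      linarith
    nlinarith
  have ht1' : 1 ≤ t1 := by linarith
  have hT1' : 1 ≤ T + 1 := by linarith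
  set v1 := t1 - L with hv1
  set v2 := t2 + L with hv2
  have hv12 : v1 ≤ v2 := by linarith
  set B : ℝ → ℂ := fun v => AA F t1 t2 x v with hB
  set A : ℝ → ℂ := fun v => AA F (T + 1) (16 * T - 1) x v with hA
  have hBc : Continuous B := AA_cont hF ht1' x
  have hAc : Continuous A := AA_cont hF hT1' x
  have hAsup : ∀ v, ‖A v‖ ≤ C2 * L := fun v => hsup T hT10 (T + 1) (16 * T - 1) (by linarith)
    (by linarith) x v
  set N : ℝ := (NN F t1 t2 : ℝ) with hN
  have hNeq : N = ∑ s ∈ Zf F t1 t2, (mult F s : ℝ) := by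
    rw [hN, NN_eq hF ht1']; push_cast; rfl
  have hN0 : 0 ≤ N := Nat.cast_nonneg _
  have hNle : N ≤ C3 * (T * L) := hNN T (by linarith) t1 t2 (by linarith) (by linarith)
  -- the term of a zero
  set B1 : ℂ → ℝ → ℂ := fun s v =>
    cexp (-(I * x * (s.im : ℂ))) * cexp (-((s.im : ℂ) - v) ^ 2 / 2) with hB1
  have hB1c : ∀ s, Continuous (B1 s) := by
    intro s
    simp only [hB1]
    fun_prop
  have hB1n : ∀ s v, ‖B1 s v‖ = Real.exp (-(v - s.im) ^ 2 / 2) := by
    intro s v
    simp only [hB1]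
    rw [norm_mul, show -(I * x * (s.im : ℂ)) = ((-(x * s.im) : ℝ) : ℂ) * I by push_cast; ring,
      Complex.norm_exp_ofReal_mul_I, one_mul,
      show -((s.im : ℂ) - v) ^ 2 / 2 = ((-(v - s.im) ^ 2 / 2 : ℝ) : ℂ) by push_cast; ring,
      ← Complex.ofReal_exp, Complex.norm_real, Real.norm_of_nonneg (Real.exp_pos _).le]
  have hconjB : ∀ v, conj (B v) = ∑ s ∈ Zf F t1 t2, (mult F s : ℂ) * B1 s v := fun v =>
    conj_AA hF hl ht1' x v
  have hmem : ∀ s ∈ Zf F t1 t2, v1 ≤ s.im - L ∧ s.im + L ≤ v2 := by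
    intro s hs
    rw [mem_Zf hF ht1'] at hs
    exact ⟨by linarith [hs.2.2.1], by linarith [hs.2.2.2.1]⟩
  have hL0 : 0 ≤ L := by linarith
  -- truncation of the integral against a bounded function
  have htrunc : ∀ (g : ℝ → ℂ) (K : ℝ), Continuous g → 0 ≤ K → (∀ v, ‖g v‖ ≤ K) →
      ‖(∫ v : ℝ, conj (B v) * g v) - ∫ v in v1..v2, conj (B v) * g v‖ ≤
        N * (K * (4 * Real.exp (-L ^ 2 / 4))) := by
    intro g K hg hK hgK
    have hb : ∀ s v, ‖B1 s v * g v‖ ≤ K * Real.exp (-(v - s.im) ^ 2 / 2) := by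
      intro s v
      rw [norm_mul, hB1n, mul_comm]
      exact mul_le_mul_of_nonneg_right (hgK v) (Real.exp_pos _).le
    have hint : ∀ s, Integrable (fun v => B1 s v * g v) := by
      intro s
      have hg2 : Integrable (fun v : ℝ => K * Real.exp (-(v - s.im) ^ 2 / 2)) := by
        have := (gauss_int s.im (1 / 2) (by norm_num)).const_mul K
        refine this.congr (Eventually.of_forall fun v => ?_)
        simp only; congr 2; ring
      exact hg2.mono' ((hB1c s).mul hg).aestronglyMeasurable (Eventually.of_forall (hb s))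
    have e1 : ∀ v, conj (B v) * g v = ∑ s ∈ Zf F t1 t2, (mult F s : ℂ) * (B1 s v * g v) := by
      intro v
      rw [hconjB, Finset.sum_mul]
      refine Finset.sum_congr rfl fun s _ => ?_
      ring
    simp_rw [e1]
    have hcs : ∀ s : ℂ, Continuous fun v : ℝ => (mult F s : ℂ) * (B1 s v * g v) := fun s =>
      continuous_const.mul ((hB1c s).mul hg)
    have e2 : ∫ v in v1..v2, ∑ s ∈ Zf F t1 t2, (mult F s : ℂ) * (B1 s v * g v) =
        ∑ s ∈ Zf F t1 t2, ∫ v in v1..v2, (mult F s : ℂ) * (B1 s v * g v) :=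
      intervalIntegral.integral_finsetSum fun s _ => (hcs s).intervalIntegrable _ _
    rw [integral_finsetSum _ fun s _ => (hint s).const_mul _, e2, ← Finset.sum_sub_distrib]
    refine (norm_sum_le _ _).trans ?_
    rw [hNeq, Finset.sum_mul]
    refine Finset.sum_le_sum fun s hs => ?_
    rw [integral_const_mul, intervalIntegral.integral_const_mul, ← mul_sub, norm_mul,
      Complex.norm_natCast]
    apply mul_le_mul_of_nonneg_left _ (Nat.cast_nonneg _)
    obtain ⟨m1, m2⟩ := hmem s hs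
    exact tail_bound ((hB1c s).mul hg).aestronglyMeasurable hK (hb s) hL0 m1 m2
  -- the full correlation
  have hid := corr_id hF hl ht1' hT1' (A := t1) (B := t2) (A' := T + 1) (B' := 16 * T - 1) x u
  have ht_a := htrunc (fun v => A (v + u)) (C2 * L)
    (hAc.comp (by fun_prop : Continuous fun v : ℝ => v + u)) (by positivity)
    (fun v => hAsup (v + u))
  -- the Gaussian integral
  have hchar : ∫ v : ℝ, conj (B v) * cexp (I * x * v) =
      (N : ℂ) * ((Real.sqrt (2 * Real.pi) : ℂ) * Real.exp (-x ^ 2 / 2)) := by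
    have e1 : ∀ v : ℝ, conj (B v) * cexp (I * x * v) =
        ∑ s ∈ Zf F t1 t2, (mult F s : ℂ) * (B1 s v * cexp (I * x * v)) := by
      intro v
      rw [hconjB, Finset.sum_mul]
      refine Finset.sum_congr rfl fun s _ => ?_
      ring
    have hint : ∀ s, Integrable (fun v : ℝ => B1 s v * cexp (I * x * v)) := by
      intro s
      have hg2 : Integrable (fun v : ℝ => Real.exp (-(v - s.im) ^ 2 / 2)) := by
        have := gauss_int s.im (1 / 2) (by norm_num)
        refine this.congr (Eventually.of_forall fun v => ?_)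
        simp only; congr 1; ring
      refine hg2.mono' ((hB1c s).mul (by fun_prop)).aestronglyMeasurable
        (Eventually.of_forall fun v => ?_)
      rw [norm_mul, hB1n, show I * x * (v : ℂ) = ((x * v : ℝ) : ℂ) * I by push_cast; ring,
        Complex.norm_exp_ofReal_mul_I, mul_one]
    simp_rw [e1]
    rw [integral_finsetSum _ fun s _ => (hint s).const_mul _, hNeq]
    push_cast
    rw [Finset.sum_mul]
    refine Finset.sum_congr rfl fun s _ => ?_
    rw [integral_const_mul]
    congr 1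
    have := gauss_char x s.im
    push_cast at this
    exact this
  have ht_b := htrunc (fun v => cexp (I * x * v)) 1 (by fun_prop) zero_le_one (by
    intro v
    rw [show I * x * (v : ℂ) = ((x * v : ℝ) : ℂ) * I by push_cast; ring,
      Complex.norm_exp_ofReal_mul_I])
  -- the explicit formula
  set w : ℝ := 1 / Real.sqrt (2 * Real.pi) with hw
  have hw0 : 0 < w := by positivity
  have hw1 : w ≤ 1 := by
    rw [hw, div_le_one (by positivity), Real.le_sqrt (by norm_num) (by positivity)]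
    have := Real.pi_gt_three
    linarith
  have hwm : w * Real.sqrt (2 * Real.pi) = 1 := by
    rw [hw, one_div, inv_mul_cancel₀ (by positivity)]
  have hE : ∀ v ∈ Set.Ioc v1 v2, ‖A (v + u) - (w : ℝ) * ((L : ℂ) * cexp (I * x * ((v + u : ℝ) : ℂ)) *
      Real.exp (-x ^ 2 / 2) - H370.PP a x (v + u))‖ ≤ C1 * Real.exp (-x) := by
    intro v hv
    exact hEF T hTT1 (T + 1) (16 * T - 1) le_rfl le_rfl x (v + u) hx hxL
      (by linarith [hv.1]) (by linarith [hv.2])
  have hPc : Continuous fun v : ℝ => H370.PP a x (v + u) :=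
    (PP_cont ha x).comp (by fun_prop : Continuous fun v : ℝ => v + u)
  have hAc' : Continuous fun v : ℝ => A (v + u) :=
    hAc.comp (by fun_prop : Continuous fun v : ℝ => v + u)
  have hcB : Continuous fun v : ℝ => conj (B v) := Complex.continuous_conj.comp hBc
  set Err : ℂ := ∫ v in v1..v2, conj (B v) * (A (v + u) - (w : ℝ) * ((L : ℂ) *
    cexp (I * x * ((v + u : ℝ) : ℂ)) * Real.exp (-x ^ 2 / 2) - H370.PP a x (v + u))) with hErr
  have hErrn : ‖Err‖ ≤ C1 * Real.exp (-x) * ∫ v in v1..v2, ‖B v‖ := by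
    rw [hErr, ← intervalIntegral.integral_const_mul]
    apply intervalIntegral.norm_integral_le_of_norm_le hv12
    · refine Filter.Eventually.of_forall fun v hv => ?_
      rw [norm_mul, RCLike.norm_conj, mul_comm]
      exact mul_le_mul_of_nonneg_right (hE v hv) (norm_nonneg _)
    · exact (continuous_const.mul hBc.norm).intervalIntegrable _ _
  have hsplit : ∫ v in v1..v2, conj (B v) * A (v + u) =
      (w : ℂ) * ((L : ℂ) * Real.exp (-x ^ 2 / 2) * cexp (I * x * u)) *
        (∫ v in v1..v2, conj (B v) * cexp (I * x * v)) - (w : ℂ) * DD F a t1 t2 v1 v2 x u + Err := by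
    have e1 : ∀ v : ℝ, conj (B v) * A (v + u) =
        (w : ℂ) * ((L : ℂ) * Real.exp (-x ^ 2 / 2) * cexp (I * x * u)) *
          (conj (B v) * cexp (I * x * v)) - (w : ℂ) * (conj (B v) * H370.PP a x (v + u)) +
        conj (B v) * (A (v + u) - (w : ℝ) * ((L : ℂ) *
    cexp (I * x * ((v + u : ℝ) : ℂ)) * Real.exp (-x ^ 2 / 2) - H370.PP a x (v + u))) := by
      intro v
      have e2 : cexp (I * x * ((v + u : ℝ) : ℂ)) = cexp (I * x * u) * cexp (I * x * v) := by
        rw [← Complex.exp_add]; congr 1; push_cast; ring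
      rw [e2]
      ring
    simp_rw [e1]
    rw [intervalIntegral.integral_add, intervalIntegral.integral_sub,
      intervalIntegral.integral_const_mul, intervalIntegral.integral_const_mul]
    · rfl
    · exact (continuous_const.mul (hcB.mul (by fun_prop))).intervalIntegrable _ _
    · exact (continuous_const.mul (hcB.mul hPc)).intervalIntegrable _ _
    · exact ((continuous_const.mul (hcB.mul (by fun_prop))).sub
        (continuous_const.mul (hcB.mul hPc))).intervalIntegrable _ _
    · exact (hcB.mul (hAc'.sub (continuous_const.mul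
        (((continuous_const.mul (by fun_prop)).mul continuous_const).sub hPc)))).intervalIntegrable _ _
  -- assembling
  set J1 : ℂ := ∫ v : ℝ, conj (B v) * A (v + u) with hJ1
  set J2 : ℂ := ∫ v in v1..v2, conj (B v) * A (v + u) with hJ2
  set G1 : ℂ := ∫ v : ℝ, conj (B v) * cexp (I * x * v) with hG1
  set G2 : ℂ := ∫ v in v1..v2, conj (B v) * cexp (I * x * v) with hG2
  have hid' : (Real.sqrt Real.pi : ℂ) * cexp (I * x * u) * cc F t1 t2 (T + 1) (16 * T - 1) x u =
      J1 := hid.symm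
  rw [hid']
  have hcoefn : ‖(w : ℂ) * ((L : ℂ) * Real.exp (-x ^ 2 / 2) * cexp (I * x * u))‖ ≤ L := by
    rw [norm_mul, norm_mul, norm_mul, Complex.norm_real, Complex.norm_real, Complex.norm_real,
      Real.norm_of_nonneg hw0.le, Real.norm_of_nonneg hL0, Real.norm_of_nonneg (Real.exp_pos _).le,
      show I * x * (u : ℂ) = ((x * u : ℝ) : ℂ) * I by push_cast; ring,
      Complex.norm_exp_ofReal_mul_I, mul_one]
    have h1 : Real.exp (-x ^ 2 / 2) ≤ 1 := Real.exp_le_one_iff.2 (by nlinarith [sq_nonneg x])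
    calc w * (L * Real.exp (-x ^ 2 / 2)) ≤ 1 * (L * 1) := by gcongr
      _ = L := by ring
  have hkey : J1 - (((L * N * Real.exp (-x ^ 2) : ℝ) : ℂ) * cexp (I * x * u) -
      (w : ℂ) * DD F a t1 t2 v1 v2 x u) =
      (J1 - J2) - (w : ℂ) * ((L : ℂ) * Real.exp (-x ^ 2 / 2) * cexp (I * x * u)) * (G1 - G2) +
        Err := by
    have e1 : ((L * N * Real.exp (-x ^ 2) : ℝ) : ℂ) * cexp (I * x * u) =
        (w : ℂ) * ((L : ℂ) * Real.exp (-x ^ 2 / 2) * cexp (I * x * u)) * G1 := by
      rw [hchar]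
      have e2 : Real.exp (-x ^ 2) = Real.exp (-x ^ 2 / 2) * Real.exp (-x ^ 2 / 2) := by
        rw [← Real.exp_add]; congr 1; ring
      have e3 : (w : ℂ) * (Real.sqrt (2 * Real.pi) : ℂ) = 1 := by exact_mod_cast hwm
      rw [e2]
      push_cast
      linear_combination (-(L : ℂ) * N * cexp (-(x : ℂ) ^ 2 / 2) * cexp (-(x : ℂ) ^ 2 / 2) *
        cexp (I * x * u)) * e3
    rw [e1, hsplit]
    ring
  have htiny : N * (C2 * L * (4 * Real.exp (-L ^ 2 / 4))) +
      L * (N * (1 * (4 * Real.exp (-L ^ 2 / 4)))) ≤ 1 := by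
    have hLe : L ≤ Real.exp L := by
      have := Real.add_one_le_exp L
      linarith
    have hTe : T = Real.exp L := by rw [hL, Real.exp_log hTpos]
    have h1 : N * (C2 * L * (4 * Real.exp (-L ^ 2 / 4))) +
      L * (N * (1 * (4 * Real.exp (-L ^ 2 / 4)))) = N * L * (4 * C2 + 4) * Real.exp (-L ^ 2 / 4) := by
      ring
    rw [h1]
    have hexpL : 0 < Real.exp L := Real.exp_pos _
    calc N * L * (4 * C2 + 4) * Real.exp (-L ^ 2 / 4)
        ≤ (C3 * (Real.exp L * Real.exp L)) * Real.exp L * (4 * C2 + 4) * Real.exp (-L ^ 2 / 4) := by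
          apply mul_le_mul_of_nonneg_right _ (Real.exp_pos _).le
          apply mul_le_mul_of_nonneg_right _ (by positivity)
          apply mul_le_mul _ hLe hL0 (by positivity)
          refine hNle.trans ?_
          rw [hTe] at *
          gcongr
      _ = K4 * Real.exp (L + L + L + -L ^ 2 / 4) := by
          rw [Real.exp_add, Real.exp_add, Real.exp_add, hK4]; ring
      _ ≤ K4 * Real.exp (-(Real.log (K4 + 1))) := by
          gcongr
          nlinarith
      _ ≤ 1 := by
          rw [Real.exp_neg, Real.exp_log (by linarith)]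
          rw [mul_inv_le_iff₀ (by linarith)]
          linarith
  have hfin : ‖(J1 - J2) - (w : ℂ) * ((L : ℂ) * Real.exp (-x ^ 2 / 2) * cexp (I * x * u)) *
      (G1 - G2) + Err‖ ≤ (N * (C2 * L * (4 * Real.exp (-L ^ 2 / 4))) +
      L * (N * (1 * (4 * Real.exp (-L ^ 2 / 4))))) + C1 * Real.exp (-x) * ∫ v in v1..v2, ‖B v‖ := by
    refine (norm_add_le _ _).trans (add_le_add ((norm_sub_le _ _).trans (add_le_add ht_a ?_)) hErrn)
    rw [norm_mul]
    exact mul_le_mul hcoefn ht_b (norm_nonneg _) hL0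
  have hfin2 : ‖J1 - (((L * N * Real.exp (-x ^ 2) : ℝ) : ℂ) * cexp (I * x * u) -
      (w : ℂ) * DD F a t1 t2 v1 v2 x u)‖ ≤ C1 * Real.exp (-x) * (∫ v in v1..v2, ‖B v‖) + 1 := by
    rw [hkey]
    linarith
  exact hfin2

end Pool.Agent.W2helper69.PS
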