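import Pool.Agent.W2helper69.PS.Main1

/-! Reduction of the pair sum at distance `u` to integrals of the correlation sums. -/

set_option autoImplicit false

open Complex Filter Topology Set MeasureTheory
open scoped BigOperators ComplexConjugate

namespace Pool.Agent.W2helper69.PS

open H370 H370.A2

lemma sqrt_pi_one : 1 ≤ Real.sqrt Real.pi := by
  rw [Real.le_sqrt (by norm_num) (by positivity)]
  have := Real.pi_gt_three
  linarith

lemma SG_main {F : ℂ → ℂ} {ψ : ℝ → ℝ} {K μ M e : ℝ} (hψ : Continuous ψ) (hK : 0 ≤ K)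
    (hlip : ∀ x, |evp ψ x - ψ 0| ≤ e + K * |x|) (hz : ∀ x, μ ≤ |x| → ψ x = 0) (hμ : 0 < μ)
    (hM : ∀ x, |ψ x| ≤ M) {Λ : ℝ} (hΛ : 0 < Λ) {T : ℝ} (hT : 1 ≤ T) (t1 t2 u : ℝ) :
    |SG F ψ μ Λ T t1 t2 u - Real.log T * NN F t1 t2 * (ψ 0 / Λ)| ≤
      2 * M / Λ * (∫ x in (0 : ℝ)..(μ * Λ), ‖Qf F T t1 t2 x u‖) +
        (e * (Real.log T * NN F t1 t2) / Λ + 4 * K * (Real.log T * NN F t1 t2) / Λ ^ 2) := by
  set L := Real.log T with hL
  have hL0 : 0 ≤ L := Real.log_nonneg hT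
  set N : ℝ := (NN F t1 t2 : ℝ) with hN
  have hN0 : 0 ≤ N := Nat.cast_nonneg _
  set p := Real.sqrt Real.pi with hp
  have hp1 : 1 ≤ p := sqrt_pi_one
  have hev := evp_cont hψ
  have hM0 : 0 ≤ M := (abs_nonneg _).trans (hM 0)
  set c : ℝ → ℂ := fun α => cc F t1 t2 (T + 1) (16 * T - 1) (α * Λ) u with hc
  have hcc : Continuous c := by
    have h1 : Continuous fun α : ℝ => ((α * Λ, u) : ℝ × ℝ) := by fun_prop
    have h3 : Continuous ((fun q : ℝ × ℝ => cc F t1 t2 (T + 1) (16 * T - 1) q.1 q.2) ∘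
      fun α : ℝ => ((α * Λ, u) : ℝ × ℝ)) := Continuous.comp (cc_cont _ _ _ _ _) h1
    simpa only [Function.comp_def] using h3
  have hre : Continuous fun α : ℝ => (c α).re := Complex.continuous_re.comp hcc
  have hQc : Continuous fun x : ℝ => ‖Qf F T t1 t2 x u‖ := by
    have h1 : Continuous fun x : ℝ => ((x, u) : ℝ × ℝ) := by fun_prop
    have h3 : Continuous ((fun q : ℝ × ℝ => Qf F T t1 t2 q.1 q.2) ∘
      fun x : ℝ => ((x, u) : ℝ × ℝ)) := Continuous.comp (Qf_cont _ _ _ _) h1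
    exact (by simpa only [Function.comp_def] using h3 : Continuous fun x : ℝ => Qf F T t1 t2 x u).norm
  have h1 : p * SG F ψ μ Λ T t1 t2 u - 2 * (L * N) *
      (∫ α in (0 : ℝ)..μ, evp ψ α * Real.exp (-(α * Λ) ^ 2)) =
      ∫ α in (0 : ℝ)..μ, 2 * evp ψ α * (p * (c α).re - L * N * Real.exp (-(α * Λ) ^ 2)) := by
    rw [SG_eq F hψ, ← intervalIntegral.integral_const_mul, ← intervalIntegral.integral_const_mul,
      ← intervalIntegral.integral_sub]
    · refine intervalIntegral.integral_congr fun α _ => ?_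
      simp only [hc]
      ring
    · exact (by fun_prop : Continuous fun α : ℝ => p * (2 * (evp ψ α * (c α).re))).intervalIntegrable
        _ _
    · exact (by fun_prop : Continuous fun α : ℝ => 2 * (L * N) * (evp ψ α *
        Real.exp (-(α * Λ) ^ 2))).intervalIntegrable _ _
  have h2 : |∫ α in (0 : ℝ)..μ, 2 * evp ψ α * (p * (c α).re - L * N * Real.exp (-(α * Λ) ^ 2))| ≤
      2 * M / Λ * (∫ x in (0 : ℝ)..(μ * Λ), ‖Qf F T t1 t2 x u‖) := by
    have h3 : ∀ α : ℝ, ‖2 * evp ψ α * (p * (c α).re - L * N * Real.exp (-(α * Λ) ^ 2))‖ ≤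
        2 * M * ‖Qf F T t1 t2 (α * Λ) u‖ := by
      intro α
      have h4 := cc_Qf F T t1 t2 (α * Λ) u
      have h5 := evp_abs_le hM α
      rw [norm_mul, norm_mul, Real.norm_eq_abs, Real.norm_eq_abs, Real.norm_eq_abs, abs_two]
      gcongr
    have h6 : ∫ α in (0 : ℝ)..μ, 2 * M * ‖Qf F T t1 t2 (α * Λ) u‖ =
        2 * M / Λ * (∫ x in (0 : ℝ)..(μ * Λ), ‖Qf F T t1 t2 x u‖) := by
      rw [intervalIntegral.integral_const_mul]
      have h7 := intervalIntegral.integral_comp_mul_right (a := 0) (b := μ)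
        (fun x : ℝ => ‖Qf F T t1 t2 x u‖) hΛ.ne'
      rw [h7, zero_mul, smul_eq_mul]
      ring
    rw [← h6, ← Real.norm_eq_abs]
    apply intervalIntegral.norm_integral_le_of_norm_le hμ.le
    · exact Filter.Eventually.of_forall fun α _ => h3 α
    · exact (continuous_const.mul (hQc.comp (continuous_mul_const Λ))).intervalIntegrable _ _
  have h8 := gauss_main hψ hK hlip hz hμ hΛ
  have h9 : p * (SG F ψ μ Λ T t1 t2 u - L * N * (ψ 0 / Λ)) =
      (p * SG F ψ μ Λ T t1 t2 u - 2 * (L * N) *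
      (∫ α in (0 : ℝ)..μ, evp ψ α * Real.exp (-(α * Λ) ^ 2))) +
      2 * (L * N) * ((∫ α in (0 : ℝ)..μ, evp ψ α * Real.exp (-(α * Λ) ^ 2)) -
        ψ 0 * (p / (2 * Λ))) := by
    field_simp
    ring
  have h10 : |p * (SG F ψ μ Λ T t1 t2 u - L * N * (ψ 0 / Λ))| ≤
      2 * M / Λ * (∫ x in (0 : ℝ)..(μ * Λ), ‖Qf F T t1 t2 x u‖) +
        (p * (e * (L * N) / Λ) + 4 * K * (L * N) / Λ ^ 2) := by
    rw [h9, h1]
    refine (abs_add_le _ _).trans (add_le_add h2 ?_)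
    rw [abs_mul, abs_of_nonneg (by positivity : 0 ≤ 2 * (L * N))]
    calc 2 * (L * N) * _ ≤ 2 * (L * N) * (e * (p / (2 * Λ)) + 2 * K / Λ ^ 2) := by gcongr
      _ = _ := by field_simp; ring
  rw [abs_mul, abs_of_nonneg (by linarith : 0 ≤ p)] at h10
  set D := |SG F ψ μ Λ T t1 t2 u - L * N * (ψ 0 / Λ)| with hD
  set I1 := 2 * M / Λ * (∫ x in (0 : ℝ)..(μ * Λ), ‖Qf F T t1 t2 x u‖) with hI1
  set I2 := 4 * K * (L * N) / Λ ^ 2 with hI2
  have hI10 : 0 ≤ I1 := by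
    apply mul_nonneg (by positivity)
    exact intervalIntegral.integral_nonneg (by positivity) fun x _ => norm_nonneg _
  have hI20 : 0 ≤ I2 := by positivity
  have hp0 : 0 < p := by linarith
  have h11 : p * D ≤ p * (I1 + (e * (L * N) / Λ + I2)) := by
    have h12 : I1 ≤ p * I1 := le_mul_of_one_le_left hI10 hp1
    have h13 : I2 ≤ p * I2 := le_mul_of_one_le_left hI20 hp1
    calc p * D ≤ I1 + (p * (e * (L * N) / Λ) + I2) := h10
      _ ≤ p * I1 + (p * (e * (L * N) / Λ) + p * I2) := by linarith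
      _ = _ := by ring
  exact le_of_mul_le_mul_left h11 hp0

/-- the square integral over `x` -/
noncomputable def GG (F : ℂ → ℂ) (T t1 t2 a b u : ℝ) : ℝ :=
  ∫ x in a..b, ‖Qf F T t1 t2 x u‖ ^ 2

lemma Qsq_cont (F : ℂ → ℂ) (T t1 t2 : ℝ) :
    Continuous fun q : ℝ × ℝ => ‖Qf F T t1 t2 q.1 q.2‖ ^ 2 := (Qf_cont F T t1 t2).norm.pow 2

lemma Qsq_cont_x (F : ℂ → ℂ) (T t1 t2 u : ℝ) :
    Continuous fun x : ℝ => ‖Qf F T t1 t2 x u‖ ^ 2 := by
  have h1 : Continuous fun x : ℝ => ((x, u) : ℝ × ℝ) := by fun_prop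
  have h3 := Continuous.comp (Qsq_cont F T t1 t2) h1
  simpa only [Function.comp_def] using h3

lemma Q_cont_x (F : ℂ → ℂ) (T t1 t2 u : ℝ) :
    Continuous fun x : ℝ => Qf F T t1 t2 x u := by
  have h1 : Continuous fun x : ℝ => ((x, u) : ℝ × ℝ) := by fun_prop
  have h3 := Continuous.comp (Qf_cont F T t1 t2) h1
  simpa only [Function.comp_def] using h3

lemma GG_cont (F : ℂ → ℂ) (T t1 t2 a b : ℝ) : Continuous fun u => GG F T t1 t2 a b u := by
  unfold GG
  apply intervalIntegral.continuous_parametric_intervalIntegral_of_continuous'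
  have h1 : Continuous fun q : ℝ × ℝ => ((q.2, q.1) : ℝ × ℝ) := by fun_prop
  have h3 := Continuous.comp (Qsq_cont F T t1 t2) h1
  have h4 : Continuous fun q : ℝ × ℝ => ‖Qf F T t1 t2 q.2 q.1‖ ^ 2 := by
    simpa only [Function.comp_def] using h3
  exact h4

lemma GG_nonneg (F : ℂ → ℂ) (T t1 t2 : ℝ) {a b : ℝ} (hab : a ≤ b) (u : ℝ) :
    0 ≤ GG F T t1 t2 a b u :=
  intervalIntegral.integral_nonneg hab fun x _ => by positivity

lemma GG_int (F : ℂ → ℂ) (T t1 t2 : ℝ) {a b u0 u1 S : ℝ} (hab : a ≤ b)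
    (hS : ∀ x ∈ Set.Icc a b, ∫ u in u0..u1, ‖Qf F T t1 t2 x u‖ ^ 2 ≤ S) :
    ∫ u in u0..u1, GG F T t1 t2 a b u ≤ (b - a) * S := by
  unfold GG
  have hQ := Qsq_cont F T t1 t2
  have h1 : Continuous fun q : ℝ × ℝ => ((q.2, q.1) : ℝ × ℝ) := by fun_prop
  have h4 : Continuous (Function.uncurry fun u x : ℝ => ‖Qf F T t1 t2 x u‖ ^ 2) := by
    have h3 := Continuous.comp (Qsq_cont F T t1 t2) h1
    have h5 : Continuous fun q : ℝ × ℝ => ‖Qf F T t1 t2 q.2 q.1‖ ^ 2 := by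
      simpa only [Function.comp_def] using h3
    exact h5
  rw [MeasureTheory.intervalIntegral_intervalIntegral_swap]
  · have hc : Continuous fun x => ∫ u in u0..u1, ‖Qf F T t1 t2 x u‖ ^ 2 := by
      apply intervalIntegral.continuous_parametric_intervalIntegral_of_continuous'
      exact hQ
    calc ∫ x in a..b, ∫ u in u0..u1, ‖Qf F T t1 t2 x u‖ ^ 2 ≤ ∫ _ in a..b, S :=
          intervalIntegral.integral_mono_on hab (hc.intervalIntegrable _ _)
            (continuous_const.intervalIntegrable _ _) hS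
      _ = _ := by rw [intervalIntegral.integral_const, smul_eq_mul]
  · exact (h4.continuousOn.integrableOn_compact (isCompact_uIcc.prod isCompact_uIcc)).mono_set
      (Set.prod_mono Set.uIoc_subset_uIcc Set.uIoc_subset_uIcc)

lemma markov_Icc {f : ℝ → ℝ} (hf : Continuous f) (hf0 : ∀ x, 0 ≤ f x) {u0 u1 y : ℝ}
    (hu : u0 ≤ u1) (hy : 0 < y) :
    volume {u : ℝ | u ∈ Set.Icc u0 u1 ∧ y ≤ f u} ≤ ENNReal.ofReal ((∫ u in u0..u1, f u) / y) := by
  have hmk := mul_meas_ge_le_integral_of_nonneg (μ := volume.restrict (Set.Icc u0 u1))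
    (f := f) (Eventually.of_forall hf0) hf.integrableOn_Icc y
  have hmeas : MeasurableSet {t : ℝ | y ≤ f t} := measurableSet_le measurable_const hf.measurable
  have hset : {t : ℝ | t ∈ Set.Icc u0 u1 ∧ y ≤ f t} =
      {t : ℝ | y ≤ f t} ∩ Set.Icc u0 u1 := by
    ext t
    simp only [Set.mem_ofPred_eq, Set.mem_inter_iff]
    tauto
  have hfin : volume ({t : ℝ | y ≤ f t} ∩ Set.Icc u0 u1) ≠ ⊤ :=
    measure_ne_top_of_subset Set.inter_subset_right (by simp)
  have h6 : (volume.restrict (Set.Icc u0 u1)).real {t : ℝ | y ≤ f t} =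
      (volume ({t : ℝ | y ≤ f t} ∩ Set.Icc u0 u1)).toReal := by
    rw [measureReal_def, Measure.restrict_apply hmeas]
  rw [h6, integral_Icc_eq_integral_Ioc, ← intervalIntegral.integral_of_le hu] at hmk
  rw [hset, ← ENNReal.ofReal_toReal hfin]
  apply ENNReal.ofReal_le_ofReal
  rw [le_div_iff₀ hy]
  linarith

/-- splitting the integral over `x` -/
lemma Q_split (F : ℂ → ℂ) (T t1 t2 u : ℝ) {a b : ℝ} (hab : a ≤ b) :
    ∫ x in (0 : ℝ)..b, ‖Qf F T t1 t2 x u‖ ≤ (∫ x in (0 : ℝ)..a, ‖Qf F T t1 t2 x u‖) +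
      Real.sqrt ((b - a) * GG F T t1 t2 a b u) := by
  have hc := (Q_cont_x F T t1 t2 u).norm
  rw [← intervalIntegral.integral_add_adjacent_intervals (hc.intervalIntegrable 0 a)
    (hc.intervalIntegrable a b)]
  have h1 := int_sq_le (Q_cont_x F T t1 t2 u) a b hab
  have h2 := Real.le_sqrt_of_sq_le h1
  unfold GG
  linarith

/-- the integral over small `x` -/
lemma Q_small_int {F : ℂ → ℂ} (hF : GoodL F) (hl : Line F) {a : ℕ → ℂ}
    (ha : ∀ n, ‖a n‖ ≤ ArithmeticFunction.vonMangoldt n)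
    (hld : ∀ s : ℂ, 1 < s.re → 1 ≤ s.im → deriv F s / F s = - ∑' n : ℕ, a n * (n : ℂ) ^ (-s))
    (η : ℝ) (hη : 0 < η) (hη1 : η ≤ 1) :
    ∃ C : ℝ, 0 < C ∧ ∀ α0 : ℝ, 0 < α0 → α0 ≤ η / 2 → ∃ T0 : ℝ, 10 ≤ T0 ∧ ∀ T : ℝ, T0 ≤ T →
      ∀ t1 t2 : ℝ, 2 * T ≤ t1 →
      t2 ≤ 6 * T → Real.exp (η * Real.log T) ≤ t2 - t1 →
      ∀ u : ℝ, 0 ≤ u → u ≤ 4 * T →
      ∫ x in (0 : ℝ)..(α0 * Real.log T), ‖Qf F T t1 t2 x u‖ ≤
        C * ((t2 - t1) * (Real.log T + α0 ^ 2 * Real.log T ^ 2)) := by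
  obtain ⟨C, T1, hC, hT1, hQ⟩ := Q_small hF hl ha hld η (η / 2) (η / 4) hη hη1 (by positivity)
    (by positivity) (by linarith)
  obtain ⟨C3, hC3, hV⟩ := VV_int
  refine ⟨C * (9 + C3), by positivity, fun α0 hα0 hα1 => ?_⟩
  obtain ⟨T3, hT3⟩ := (Real.tendsto_log_atTop.eventually_ge_atTop
    (1 + 1 / α0)).exists_forall_of_atTop
  refine ⟨max T1 T3, hT1.trans (le_max_left _ _), fun T hT t1 t2 ht1 ht2 hH u hu huT => ?_⟩
  have hTT1 : T1 ≤ T := (le_max_left _ _).trans hT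
  have hTT3 : T3 ≤ T := (le_max_right _ _).trans hT
  have hLbig := hT3 T hTT3
  set L := Real.log T with hL
  have h1a : 0 < 1 / α0 := by positivity
  have hL1 : 1 ≤ L := by linarith
  have hαL : 1 ≤ α0 * L := by
    have : 1 / α0 ≤ L := by linarith
    rw [div_le_iff₀ hα0] at this
    linarith
  have hH0 : 0 < t2 - t1 := lt_of_lt_of_le (Real.exp_pos _) hH
  set H := t2 - t1 with hHd
  set B := α0 * L with hB
  have hB0 : 0 ≤ B := by linarith
  have hc := (Q_cont_x F T t1 t2 u).norm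
  have hVc : IntervalIntegrable VV volume 0 B := by
    apply ContinuousOn.intervalIntegrable
    apply (VV_cont B).mono
    rw [Set.uIcc_of_le hB0]
    exact fun x hx => hx.2
  have hec : IntervalIntegrable (fun x : ℝ => L * Real.exp (x - x ^ 2 / 2)) volume 0 B :=
    (by fun_prop : Continuous fun x : ℝ => L * Real.exp (x - x ^ 2 / 2)).intervalIntegrable _ _
  have hone : IntervalIntegrable (fun _ : ℝ => (1 : ℝ)) volume 0 B :=
    continuous_const.intervalIntegrable _ _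
  have h1 : ∫ x in (0 : ℝ)..B, ‖Qf F T t1 t2 x u‖ ≤
      ∫ x in (0 : ℝ)..B, (C * H) * (L * Real.exp (x - x ^ 2 / 2) + VV x + 1) := by
    refine intervalIntegral.integral_mono_on hB0 (hc.intervalIntegrable _ _)
      (((hec.add hVc).add hone).const_mul _) fun x hx => ?_
    refine (hQ T hTT1 t1 t2 ht1 ht2 hH x hx.1 ?_ u hu huT).trans (le_of_eq (by ring))
    calc x ≤ B := hx.2
      _ ≤ η / 2 * L := by rw [hB]; gcongr
  refine h1.trans ?_
  rw [intervalIntegral.integral_const_mul, intervalIntegral.integral_add (hec.add hVc) hone,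
    intervalIntegral.integral_add hec hVc, intervalIntegral.integral_const_mul,
    intervalIntegral.integral_const, smul_eq_mul, mul_one, sub_zero]
  have h2 := e_int B hB0
  have h3 := hV B (by linarith)
  have hα1' : α0 ≤ 1 := by linarith
  have hBL : B ≤ L := by rw [hB]; nlinarith
  have h4 : L * (∫ x in (0 : ℝ)..B, Real.exp (x - x ^ 2 / 2)) + (∫ x in (0 : ℝ)..B, VV x) + B ≤
      (9 + C3) * (L + α0 ^ 2 * L ^ 2) := by
    have h5 : L * (∫ x in (0 : ℝ)..B, Real.exp (x - x ^ 2 / 2)) ≤ L * 8 := by gcongr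
    have h6 : B ^ 2 = α0 ^ 2 * L ^ 2 := by rw [hB]; ring
    rw [h6] at h3
    have h7 : 0 ≤ α0 ^ 2 * L ^ 2 := by positivity
    have h8 : 0 ≤ C3 * L := by positivity
    nlinarith
  calc C * H * _ ≤ C * H * ((9 + C3) * (L + α0 ^ 2 * L ^ 2)) := by gcongr
    _ = _ := by ring

end Pool.Agent.W2helper69.PS
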