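import Pool.Agent.W2helper69.PS.Quad

/-! Bounds for the correlation sum minus its main term. -/

set_option autoImplicit false

open Complex Filter Topology Set MeasureTheory
open scoped BigOperators ComplexConjugate

namespace Pool.Agent.W2helper69.PS

open H370 H370.A2

/-- the correlation sum minus its main term (times `√π exp (i x u)`) -/
noncomputable def Qf (F : ℂ → ℂ) (T t1 t2 x u : ℝ) : ℂ :=
  (Real.sqrt Real.pi : ℂ) * cexp (I * x * u) * cc F t1 t2 (T + 1) (16 * T - 1) x u -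
    ((Real.log T * NN F t1 t2 * Real.exp (-x ^ 2) : ℝ) : ℂ) * cexp (I * x * u)

lemma cc_cont (F : ℂ → ℂ) (A B A' B' : ℝ) :
    Continuous fun p : ℝ × ℝ => cc F A B A' B' p.1 p.2 := by
  unfold cc
  fun_prop

lemma Qf_cont (F : ℂ → ℂ) (T t1 t2 : ℝ) : Continuous fun p : ℝ × ℝ => Qf F T t1 t2 p.1 p.2 := by
  unfold Qf
  have := cc_cont F t1 t2 (T + 1) (16 * T - 1)
  fun_prop

lemma norm_le_of_formula {P R D : ℂ} {w E : ℝ} (hw0 : 0 ≤ w) (hw : w ≤ 1)
    (h : ‖P - (R - (w : ℂ) * D)‖ ≤ E) : ‖P - R‖ ≤ ‖D‖ + E := by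
  have h1 : P - R = (P - (R - (w : ℂ) * D)) - (w : ℂ) * D := by ring
  rw [h1]
  refine (norm_sub_le _ _).trans ?_
  rw [norm_mul, Complex.norm_real, Real.norm_of_nonneg hw0]
  have : w * ‖D‖ ≤ 1 * ‖D‖ := by gcongr
  linarith

lemma two_sq (a b : ℝ) : (a + b) ^ 2 ≤ 2 * a ^ 2 + 2 * b ^ 2 := by
  nlinarith [sq_nonneg (a - b)]

lemma cube_le_k {L k : ℝ} (hL : 1 ≤ L) (hk : 36 * L ^ 2 ≤ k) : L * L ^ 2 ≤ k ^ 2 ∧ 2 ≤ k := by
  have h1 : 1 ≤ L ^ 2 := one_le_pow₀ hL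
  refine ⟨?_, by linarith⟩
  calc L * L ^ 2 ≤ L ^ 2 * L ^ 2 := by
        apply mul_le_mul_of_nonneg_right _ (by positivity)
        nlinarith
    _ ≤ k * k := by
        apply mul_le_mul <;> linarith
    _ = k ^ 2 := by ring

lemma w_le_one : 1 / Real.sqrt (2 * Real.pi) ≤ 1 := by
  rw [div_le_one (by positivity), Real.le_sqrt (by norm_num) (by positivity)]
  have := Real.pi_gt_three
  linarith

theorem Q_small {F : ℂ → ℂ} (hF : GoodL F) (hl : Line F) {a : ℕ → ℂ}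
    (ha : ∀ n, ‖a n‖ ≤ ArithmeticFunction.vonMangoldt n)
    (hld : ∀ s : ℂ, 1 < s.re → 1 ≤ s.im → deriv F s / F s = - ∑' n : ℕ, a n * (n : ℂ) ^ (-s))
    (η α0 κ : ℝ) (hη : 0 < η) (hη1 : η ≤ 1) (hα0 : 0 < α0) (hκ : 0 < κ) (hs : α0 + 2 * κ ≤ η) :
    ∃ C T0 : ℝ, 0 < C ∧ 10 ≤ T0 ∧ ∀ T : ℝ, T0 ≤ T → ∀ t1 t2 : ℝ, 2 * T ≤ t1 →
      t2 ≤ 6 * T → Real.exp (η * Real.log T) ≤ t2 - t1 →
      ∀ x : ℝ, 0 ≤ x → x ≤ α0 * Real.log T → ∀ u : ℝ, 0 ≤ u → u ≤ 4 * T →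
      ‖Qf F T t1 t2 x u‖ ≤
        C * ((t2 - t1) * (Real.log T * Real.exp (x - x ^ 2 / 2) + VV x + 1)) := by
  obtain ⟨C1, T1, hC1, hT1, hform⟩ := formula hF hl ha hld
  obtain ⟨C2, T2, hC2, hT2, hB2⟩ := B2_small hF hl ha hld η α0 κ hη hη1 hα0 hκ hs
  obtain ⟨T3, hT3⟩ := (Real.tendsto_log_atTop.eventually_ge_atTop
    (max 40 (24 / η ^ 4))).exists_forall_of_atTop
  set CV : ℝ := 4 * Real.exp 1 * S2 + 1 with hCV
  have hS := S2_one
  have hCV0 : 0 < CV := by positivity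
  refine ⟨C2 * (1 + CV) + C1 * (C2 + 2) + 1, max T1 (max T2 T3), by positivity,
    hT1.trans (le_max_left _ _), fun T hT t1 t2 ht1 ht2 hH x hx hxα u hu huT => ?_⟩
  have hTT1 : T1 ≤ T := (le_max_left _ _).trans hT
  have hTT2 : T2 ≤ T := ((le_max_left _ _).trans (le_max_right _ _)).trans hT
  have hTT3 : T3 ≤ T := ((le_max_right _ _).trans (le_max_right _ _)).trans hT
  have hT10 : 10 ≤ T := hT1.trans hTT1
  have hTpos : 0 < T := by linarith
  have hLbig := hT3 T hTT3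
  set L := Real.log T with hL
  have hL40 : 40 ≤ L := (le_max_left _ _).trans hLbig
  obtain ⟨hcube, -⟩ := cube_le_exp hη hη1 ((le_max_right _ _).trans hLbig)
  obtain ⟨hB, hP⟩ := hB2 T hTT2 t1 t2 ht1 ht2 hH x hx hxα
  set H := t2 - t1 with hHdef
  have hL3 : L ^ 3 ≤ H := hcube.trans hH
  have h2L : 2 * L ≤ H := by nlinarith [sq_nonneg L]
  have hH0 : 0 < H := by nlinarith
  have hH1 : 1 ≤ H := by linarith
  have hx4 : x ≤ 4 * L := by
    have : α0 ≤ 1 := by linarith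
    nlinarith
  have hVV := VV_nonneg x
  have hf := hform T hTT1 t1 t2 ht1 (by linarith) ht2 x u hx hx4 hu huT
  have hQ := norm_le_of_formula (by positivity) w_le_one hf
  set v1 := t1 - L with hv1
  set v2 := t2 + L with hv2
  have hv12 : v1 ≤ v2 := by linarith
  have hV : v2 - v1 ≤ 2 * H := by linarith
  set Bf : ℝ → ℂ := fun v => AA F t1 t2 x v with hBf
  have hBc : Continuous Bf := AA_cont hF (by linarith) x
  have hPc : Continuous fun v : ℝ => H370.PP a x (v + u) :=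
    (PP_cont ha x).comp (by fun_prop : Continuous fun v : ℝ => v + u)
  set e := Real.exp (x - x ^ 2 / 2) with he
  have he0 : 0 < e := Real.exp_pos _
  set lam : ℝ := L * Real.exp (-x ^ 2 / 2 - x) + 1 with hlam
  have hLe0 : 0 ≤ L * Real.exp (-x ^ 2 / 2 - x) := by positivity
  have hlam1 : 1 ≤ lam := by linarith
  have hlam0 : 0 < lam := by linarith
  set b := L ^ 2 * Real.exp (-x ^ 2) + VV x + 1 with hb
  have hL0 : 0 < L := by linarith
  -- the two products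
  have hb1 : b / lam ≤ L * e + (VV x + 1) := by
    rw [div_le_iff₀ hlam0]
    have h1 : L ^ 2 * Real.exp (-x ^ 2) = (L * e) * (L * Real.exp (-x ^ 2 / 2 - x)) := by
      have h2 : Real.exp (-x ^ 2) = e * Real.exp (-x ^ 2 / 2 - x) := by
        rw [he, ← Real.exp_add]; congr 1; ring
      rw [h2]; ring
    have h3 : 0 ≤ (VV x + 1) * (L * Real.exp (-x ^ 2 / 2 - x)) := by positivity
    have h4 : 0 ≤ L * e := by positivity
    rw [hb, hlam, h1]
    nlinarith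
  have hVe : VV x + 1 ≤ CV * Real.exp (2 * x) := by
    have h1 := VV_exp x
    have h2 : 1 ≤ Real.exp (2 * x) := Real.one_le_exp (by linarith)
    rw [hCV, add_mul, one_mul]
    linarith
  have hb2 : lam * (VV x + 1) ≤ CV * (L * e) + (VV x + 1) := by
    have h1 : L * Real.exp (-x ^ 2 / 2 - x) * (VV x + 1) ≤
        L * Real.exp (-x ^ 2 / 2 - x) * (CV * Real.exp (2 * x)) := by gcongr
    have h2 : L * Real.exp (-x ^ 2 / 2 - x) * (CV * Real.exp (2 * x)) = CV * (L * e) := by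
      have h3 : Real.exp (-x ^ 2 / 2 - x) * Real.exp (2 * x) = e := by
        rw [he, ← Real.exp_add]; congr 1; ring
      calc _ = CV * (L * (Real.exp (-x ^ 2 / 2 - x) * Real.exp (2 * x))) := by ring
        _ = _ := by rw [h3]
    rw [hlam, add_mul, one_mul]
    linarith
  have hlame : lam ≤ L * e + 1 := by
    have : Real.exp (-x ^ 2 / 2 - x) ≤ e := by
      rw [he]; apply Real.exp_le_exp.2; linarith
    rw [hlam]
    have := mul_le_mul_of_nonneg_left this hL0.le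
    linarith
  -- the correlation
  have hD : ‖DD F a t1 t2 v1 v2 x u‖ ≤
      1 / (2 * lam) * (∫ v in v1..v2, ‖Bf v‖ ^ 2) +
        lam / 2 * ∫ v in v1..v2, ‖H370.PP a x (v + u)‖ ^ 2 := by
    have h1 : ‖DD F a t1 t2 v1 v2 x u‖ ≤ ∫ v in v1..v2,
        (1 / (2 * lam) * ‖Bf v‖ ^ 2 + lam / 2 * ‖H370.PP a x (v + u)‖ ^ 2) := by
      unfold DD
      apply intervalIntegral.norm_integral_le_of_norm_le hv12
      · refine Filter.Eventually.of_forall fun v _ => ?_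
        rw [norm_mul, RCLike.norm_conj]
        have h4 : 1 / (2 * lam) * ‖Bf v‖ ^ 2 + lam / 2 * ‖H370.PP a x (v + u)‖ ^ 2 -
            ‖Bf v‖ * ‖H370.PP a x (v + u)‖ =
            1 / (2 * lam) * (‖Bf v‖ - lam * ‖H370.PP a x (v + u)‖) ^ 2 := by
          field_simp; ring
        have h5 : 0 ≤ 1 / (2 * lam) * (‖Bf v‖ - lam * ‖H370.PP a x (v + u)‖) ^ 2 := by positivity
        linarith
      · exact ((continuous_const.mul (hBc.norm.pow 2)).add
          (continuous_const.mul (hPc.norm.pow 2))).intervalIntegrable _ _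
    refine h1.trans (le_of_eq ?_)
    rw [intervalIntegral.integral_add, intervalIntegral.integral_const_mul,
      intervalIntegral.integral_const_mul]
    · exact (continuous_const.mul (hBc.norm.pow 2)).intervalIntegrable _ _
    · exact (continuous_const.mul (hPc.norm.pow 2)).intervalIntegrable _ _
  have hI1 : ∫ v in v1..v2, ‖Bf v‖ ≤
      1 / (2 * lam) * (∫ v in v1..v2, ‖Bf v‖ ^ 2) + lam / 2 * (v2 - v1) := by
    have h1 : ∫ v in v1..v2, ‖Bf v‖ ≤ ∫ v in v1..v2, (1 / (2 * lam) * ‖Bf v‖ ^ 2 + lam / 2) := by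
      refine intervalIntegral.integral_mono_on hv12 (hBc.norm.intervalIntegrable _ _)
        (((continuous_const.mul (hBc.norm.pow 2)).add continuous_const).intervalIntegrable _ _)
        fun v _ => ?_
      have h4 : 1 / (2 * lam) * ‖Bf v‖ ^ 2 + lam / 2 - ‖Bf v‖ =
          1 / (2 * lam) * (‖Bf v‖ - lam) ^ 2 := by
        field_simp; ring
      have h5 : 0 ≤ 1 / (2 * lam) * (‖Bf v‖ - lam) ^ 2 := by positivity
      linarith
    refine h1.trans (le_of_eq ?_)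
    rw [intervalIntegral.integral_add, intervalIntegral.integral_const_mul,
      intervalIntegral.integral_const, smul_eq_mul]
    · ring
    · exact (continuous_const.mul (hBc.norm.pow 2)).intervalIntegrable _ _
    · exact continuous_const.intervalIntegrable _ _
  set IB := ∫ v in v1..v2, ‖Bf v‖ ^ 2 with hIB
  set IP := ∫ v in v1..v2, ‖H370.PP a x (v + u)‖ ^ 2 with hIP
  have hIB' : IB ≤ C2 * (H * b) := hB
  have hIP' : IP ≤ C2 * (H * (VV x + 1)) := hP u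
  have hq1 : 1 / (2 * lam) * IB ≤ C2 / 2 * (H * (L * e + (VV x + 1))) := by
    calc 1 / (2 * lam) * IB ≤ 1 / (2 * lam) * (C2 * (H * b)) := by gcongr
      _ = C2 / 2 * (H * (b / lam)) := by field_simp
      _ ≤ _ := by gcongr
  have hq2 : lam / 2 * IP ≤ C2 / 2 * (H * (CV * (L * e) + (VV x + 1))) := by
    calc lam / 2 * IP ≤ lam / 2 * (C2 * (H * (VV x + 1))) := by gcongr
      _ = C2 / 2 * (H * (lam * (VV x + 1))) := by ring
      _ ≤ _ := by gcongr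
  have hq3 : lam / 2 * (v2 - v1) ≤ H * (L * e + 1) := by
    calc lam / 2 * (v2 - v1) ≤ (L * e + 1) / 2 * (2 * H) := by gcongr
      _ = _ := by ring
  have hex : Real.exp (-x) ≤ 1 := Real.exp_le_one_iff.2 (by linarith)
  have hI0 : 0 ≤ ∫ v in v1..v2, ‖Bf v‖ :=
    intervalIntegral.integral_nonneg hv12 fun v _ => norm_nonneg _
  have hq4 : C1 * Real.exp (-x) * (∫ v in v1..v2, ‖Bf v‖) ≤
      C1 * (C2 / 2 * (H * (L * e + (VV x + 1))) + H * (L * e + 1)) := by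
    calc C1 * Real.exp (-x) * (∫ v in v1..v2, ‖Bf v‖) ≤ C1 * 1 * (∫ v in v1..v2, ‖Bf v‖) := by
          gcongr
      _ ≤ _ := by
          rw [mul_one]
          apply mul_le_mul_of_nonneg_left _ hC1.le
          linarith
  have hLe : 0 ≤ L * e := by positivity
  have hfin : ‖Qf F T t1 t2 x u‖ ≤ (C2 / 2 * (H * (L * e + (VV x + 1))) +
      C2 / 2 * (H * (CV * (L * e) + (VV x + 1)))) +
      (C1 * (C2 / 2 * (H * (L * e + (VV x + 1))) + H * (L * e + 1)) + 1) := by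
    refine hQ.trans ?_
    have := hD
    linarith
  refine hfin.trans ?_
  have z1 : 0 ≤ H * (L * e) := by positivity
  have z2 : 0 ≤ H * VV x := by positivity
  have z3 : 0 ≤ C2 * (H * (L * e)) := by positivity
  have z4 : 0 ≤ C2 * (H * VV x) := by positivity
  have z5 : 0 ≤ C2 * H := by positivity
  have z6 : 0 ≤ C2 * CV * (H * VV x) := by positivity
  have z7 : 0 ≤ C2 * CV * H := by positivity
  have z8 : 0 ≤ C2 * CV * (H * (L * e)) := by positivity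
  have z9 : 0 ≤ C1 * (H * (L * e)) := by positivity
  have z10 : 0 ≤ C1 * (H * VV x) := by positivity
  have z11 : 0 ≤ C1 * H := by positivity
  have z12 : 0 ≤ C1 * C2 * (H * (L * e)) := by positivity
  have z13 : 0 ≤ C1 * C2 * (H * VV x) := by positivity
  have z14 : 0 ≤ C1 * C2 * H := by positivity
  have expand : (C2 * (1 + CV) + C1 * (C2 + 2) + 1) * (H * (L * e + VV x + 1)) =
      C2 * (H * (L * e)) + C2 * (H * VV x) + C2 * H + C2 * CV * (H * (L * e)) +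
      C2 * CV * (H * VV x) + C2 * CV * H + C1 * C2 * (H * (L * e)) + C1 * C2 * (H * VV x) +
      C1 * C2 * H + 2 * (C1 * (H * (L * e))) + 2 * (C1 * (H * VV x)) + 2 * (C1 * H) +
      H * (L * e) + H * VV x + H := by ring
  rw [expand]
  have expand2 : (C2 / 2 * (H * (L * e + (VV x + 1))) +
      C2 / 2 * (H * (CV * (L * e) + (VV x + 1)))) +
      (C1 * (C2 / 2 * (H * (L * e + (VV x + 1))) + H * (L * e + 1)) + 1) =
      1 / 2 * (C2 * (H * (L * e))) + C2 * (H * VV x) + C2 * H + 1 / 2 * (C2 * CV * (H * (L * e))) +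
      1 / 2 * (C1 * C2 * (H * (L * e))) + 1 / 2 * (C1 * C2 * (H * VV x)) +
      1 / 2 * (C1 * C2 * H) + C1 * (H * (L * e)) + C1 * H + 1 := by ring
  rw [expand2]
  linarith

lemma large_alg {U X Y H L k C1 C2 I1 G Vd : ℝ} (hU0 : 0 ≤ U) (hX0 : 0 < X) (hY0 : 0 < Y)
    (hY1 : Y ≤ 1) (hH0 : 0 < H) (hk1 : 1 ≤ k) (hk2 : 2 ≤ k) (hLk3 : L * L ^ 2 ≤ k ^ 2)
    (hV : Vd ≤ 2 * H) (hGle : G ≤ 2 * C2 ^ 2 * (L ^ 2 * H)) (hI1 : I1 ^ 2 ≤ Vd * G)
    (hI10 : 0 ≤ I1) (hG0 : 0 ≤ G) (hVd : 0 ≤ Vd)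
    (hLK : 8 * C2 ^ 2 + 16 * C1 ^ 2 * C2 ^ 2 ≤ L) :
    2 * (k ^ 7 * ((U + X) * Y * (Vd + X) * G)) + U * (2 * (C1 * Y * I1 + 1) ^ 2) ≤
      k ^ 10 * ((U + X) * Y * (H + X) * H) + 4 * U := by
  obtain ⟨W, hW⟩ : ∃ W, W = (U + X) * Y * (H + X) * H := ⟨_, rfl⟩
  have hW0 : 0 ≤ W := by rw [hW]; positivity
  have hKL : 8 * C2 ^ 2 ≤ L := by
    have : 0 ≤ 16 * C1 ^ 2 * C2 ^ 2 := by positivity
    linarith
  have f1 : 2 * (k ^ 7 * ((U + X) * Y * (Vd + X) * G)) ≤ k ^ 9 * W := by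
    have h1 : (U + X) * Y * (Vd + X) * G ≤
        (U + X) * Y * (2 * (H + X)) * (2 * C2 ^ 2 * (L ^ 2 * H)) := by
      gcongr
      linarith
    have h2 : (U + X) * Y * (2 * (H + X)) * (2 * C2 ^ 2 * (L ^ 2 * H)) = 4 * C2 ^ 2 * L ^ 2 * W := by
      rw [hW]; ring
    have h3 : 2 * (4 * C2 ^ 2 * L ^ 2) ≤ k ^ 2 := by
      have h4 : 8 * C2 ^ 2 * L ^ 2 ≤ L * L ^ 2 := by gcongr
      linarith
    rw [h2] at h1
    calc 2 * (k ^ 7 * ((U + X) * Y * (Vd + X) * G)) ≤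
          2 * (k ^ 7 * (4 * C2 ^ 2 * L ^ 2 * W)) := by gcongr
      _ = k ^ 7 * (2 * (4 * C2 ^ 2 * L ^ 2)) * W := by ring
      _ ≤ k ^ 7 * k ^ 2 * W := by gcongr
      _ = k ^ 9 * W := by ring
  have f2 : U * (2 * (C1 * Y * I1 + 1) ^ 2) ≤ k ^ 2 * W + 4 * U := by
    have h1 : (C1 * Y * I1 + 1) ^ 2 ≤ 2 * (C1 * Y * I1) ^ 2 + 2 := by
      have := two_sq (C1 * Y * I1) 1
      linarith
    have h2 : (C1 * Y * I1) ^ 2 ≤ C1 ^ 2 * (Y * Y) * (2 * H * (2 * C2 ^ 2 * (L ^ 2 * H))) := by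
      have h3 : I1 ^ 2 ≤ 2 * H * (2 * C2 ^ 2 * (L ^ 2 * H)) := by
        refine hI1.trans ?_
        gcongr
      calc (C1 * Y * I1) ^ 2 = C1 ^ 2 * (Y * Y) * I1 ^ 2 := by ring
        _ ≤ _ := by gcongr
    have h4 : Y * Y ≤ Y := mul_le_of_le_one_right hY0.le hY1
    have h5 : U * (Y * (H * H)) ≤ W := by
      rw [hW]
      calc U * (Y * (H * H)) = U * Y * H * H := by ring
        _ ≤ (U + X) * Y * (H + X) * H := by
            gcongr <;> linarith
    have h6 : 16 * C1 ^ 2 * C2 ^ 2 * L ^ 2 ≤ k ^ 2 := by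
      have h7 : 16 * C1 ^ 2 * C2 ^ 2 ≤ L := by
        have : 0 ≤ 8 * C2 ^ 2 := by positivity
        linarith
      have h8 : 16 * C1 ^ 2 * C2 ^ 2 * L ^ 2 ≤ L * L ^ 2 := by gcongr
      linarith
    calc U * (2 * (C1 * Y * I1 + 1) ^ 2)
        ≤ U * (2 * (2 * (C1 ^ 2 * (Y * Y) * (2 * H * (2 * C2 ^ 2 * (L ^ 2 * H)))) + 2)) := by
          gcongr
          linarith
      _ = 16 * C1 ^ 2 * C2 ^ 2 * L ^ 2 * (U * (Y * Y * (H * H))) + 4 * U := by ring
      _ ≤ k ^ 2 * (U * (Y * (H * H))) + 4 * U := by gcongr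
      _ ≤ k ^ 2 * W + 4 * U := by gcongr
  have hk9 : k ^ 9 * W + k ^ 2 * W ≤ k ^ 10 * W := by
    have h1 : k ^ 2 ≤ k ^ 9 := pow_le_pow_right₀ hk1 (by norm_num)
    have h3 : k ^ 9 + k ^ 2 ≤ k ^ 10 := by
      have h4 : 0 < k ^ 9 := by positivity
      calc k ^ 9 + k ^ 2 ≤ k ^ 9 * 2 := by linarith
        _ ≤ k ^ 9 * k := mul_le_mul_of_nonneg_left hk2 h4.le
        _ = k ^ 10 := by ring
    calc _ = (k ^ 9 + k ^ 2) * W := by ring
      _ ≤ _ := by gcongr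
  rw [← hW]
  linarith

end Pool.Agent.W2helper69.PS
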