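import Pool.Agent.W2helper69.PS.Qb

/-! Mean square of the correlation sum minus its main term. -/

set_option autoImplicit false

open Complex Filter Topology Set MeasureTheory
open scoped BigOperators ComplexConjugate

namespace Pool.Agent.W2helper69.PS

open H370 H370.A2

lemma Qf_cont1 (F : ℂ → ℂ) (T t1 t2 x : ℝ) : Continuous fun u : ℝ => Qf F T t1 t2 x u := by
  have h1 : Continuous fun u : ℝ => ((x, u) : ℝ × ℝ) := by fun_prop
  have h3 : Continuous ((fun p : ℝ × ℝ => Qf F T t1 t2 p.1 p.2) ∘ fun u : ℝ => ((x, u) : ℝ × ℝ)) :=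
    Continuous.comp (Qf_cont F T t1 t2) h1
  simpa only [Function.comp_def] using h3

lemma shift_int_cont {f g : ℝ → ℂ} (hf : Continuous f) (hg : Continuous g) (v1 v2 : ℝ) :
    Continuous fun u : ℝ => ∫ v in v1..v2, f v * g (v + u) := by
  apply intervalIntegral.continuous_parametric_intervalIntegral_of_continuous'
  have h2 : Continuous fun p : ℝ × ℝ => f p.2 * g (p.2 + p.1) :=
    (hf.comp continuous_snd).mul (hg.comp (continuous_snd.add continuous_fst))
  exact h2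

theorem Q_large {F : ℂ → ℂ} (hF : GoodL F) (hl : Line F) {a : ℕ → ℂ}
    (ha : ∀ n, ‖a n‖ ≤ ArithmeticFunction.vonMangoldt n)
    (hld : ∀ s : ℂ, 1 < s.re → 1 ≤ s.im → deriv F s / F s = - ∑' n : ℕ, a n * (n : ℂ) ^ (-s))
    (η κ : ℝ) (hη : 0 < η) (hη1 : η ≤ 1) (hκ : 0 < κ) (hκ1 : κ ≤ 1) :
    ∃ T0 : ℝ, 10 ≤ T0 ∧ ∀ T : ℝ, T0 ≤ T → ∀ t1 t2 : ℝ, 2 * T ≤ t1 →
      t2 ≤ 6 * T → Real.exp (η * Real.log T) ≤ t2 - t1 →
      ∀ x : ℝ, 0 ≤ x → x ≤ 4 * Real.log T → ∀ u0 u1 : ℝ, 0 ≤ u0 → u0 ≤ u1 → u1 ≤ 4 * T →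
      ∫ u in u0..u1, ‖Qf F T t1 t2 x u‖ ^ 2 ≤
        Real.exp (10 * (κ * Real.log T)) *
          ((u1 - u0 + Real.exp x) * Real.exp (-x) * ((t2 - t1) + Real.exp x) * (t2 - t1)) +
        4 * (u1 - u0) := by
  obtain ⟨C1, T1, hC1, hT1, hform⟩ := formula hF hl ha hld
  obtain ⟨C2, hC2, hsup⟩ := AA_sup hF hl
  obtain ⟨L0, hL0, hms⟩ := DD_ms ha κ hκ hκ1
  obtain ⟨L1, hL1, htr⟩ := trunc_par κ hκ hκ1
  set K : ℝ := 8 * C2 ^ 2 + 16 * C1 ^ 2 * C2 ^ 2 with hK
  have hK0 : 0 < K := by positivity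
  obtain ⟨T3, hT3⟩ := (Real.tendsto_log_atTop.eventually_ge_atTop
    (max (max L0 L1) (max (24 / η ^ 4) K))).exists_forall_of_atTop
  refine ⟨max T1 T3, hT1.trans (le_max_left _ _),
    fun T hT t1 t2 ht1 ht2 hH x hx hx4 u0 u1 hu0 hu01 hu1 => ?_⟩
  have hTT1 : T1 ≤ T := (le_max_left _ _).trans hT
  have hTT3 : T3 ≤ T := (le_max_right _ _).trans hT
  have hT10 : 10 ≤ T := hT1.trans hTT1
  have hTpos : 0 < T := by linarith
  have hLbig := hT3 T hTT3
  set L := Real.log T with hL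
  have hLL0 : L0 ≤ L := ((le_max_left _ _).trans (le_max_left _ _)).trans hLbig
  have hLL1 : L1 ≤ L := ((le_max_right _ _).trans (le_max_left _ _)).trans hLbig
  have hLη : 24 / η ^ 4 ≤ L := ((le_max_left _ _).trans (le_max_right _ _)).trans hLbig
  have hLK : K ≤ L := ((le_max_right _ _).trans (le_max_right _ _)).trans hLbig
  have hL40 : 40 ≤ L := hL0.trans hLL0
  obtain ⟨hcube, -⟩ := cube_le_exp hη hη1 hLη
  obtain ⟨hk36, -, -⟩ := htr L hLL1
  set H := t2 - t1 with hHdef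
  have hL3 : L ^ 3 ≤ H := hcube.trans hH
  have h2L : 2 * L ≤ H := by nlinarith [sq_nonneg L]
  have hH0 : 0 < H := by nlinarith
  set v1 := t1 - L with hv1
  set v2 := t2 + L with hv2
  have hv12 : v1 ≤ v2 := by linarith
  have hV : v2 - v1 ≤ 2 * H := by linarith
  set Bf : ℝ → ℂ := fun v => AA F t1 t2 x v with hBf
  have hBc : Continuous Bf := AA_cont hF (by linarith) x
  have hcB : Continuous fun v : ℝ => conj (Bf v) := Complex.continuous_conj.comp hBc
  set G := ∫ v in v1..v2, ‖Bf v‖ ^ 2 with hG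
  have hG0 : 0 ≤ G := intervalIntegral.integral_nonneg hv12 fun v _ => by positivity
  have hGle : G ≤ 2 * C2 ^ 2 * (L ^ 2 * H) := by
    have h1 : G ≤ ∫ _ in v1..v2, (C2 * L) ^ 2 := by
      refine intervalIntegral.integral_mono_on hv12 ((hBc.norm.pow 2).intervalIntegrable _ _)
        (continuous_const.intervalIntegrable _ _) fun v _ => ?_
      exact pow_le_pow_left₀ (norm_nonneg _) (hsup T hT10 t1 t2 (by linarith) (by linarith) x v) 2
    rw [intervalIntegral.integral_const, smul_eq_mul] at h1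
    calc G ≤ (v2 - v1) * (C2 * L) ^ 2 := h1
      _ ≤ (2 * H) * (C2 * L) ^ 2 := by gcongr
      _ = _ := by ring
  have hI1 : (∫ v in v1..v2, ‖Bf v‖) ^ 2 ≤ (v2 - v1) * G := int_sq_le hBc v1 v2 hv12
  set I1 := ∫ v in v1..v2, ‖Bf v‖ with hI1d
  have hI10 : 0 ≤ I1 := intervalIntegral.integral_nonneg hv12 fun v _ => norm_nonneg _
  -- pointwise
  have hpt : ∀ u ∈ Set.Icc u0 u1, ‖Qf F T t1 t2 x u‖ ^ 2 ≤
      2 * ‖∫ v in v1..v2, conj (Bf v) * H370.PP a x (v + u)‖ ^ 2 +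
        2 * (C1 * Real.exp (-x) * I1 + 1) ^ 2 := by
    intro u hu
    have hf := hform T hTT1 t1 t2 ht1 (by linarith) ht2 x u hx hx4 (by linarith [hu.1])
      (by linarith [hu.2])
    have hQ := norm_le_of_formula (by positivity) w_le_one hf
    have h1 : ‖Qf F T t1 t2 x u‖ ^ 2 ≤ (‖∫ v in v1..v2, conj (Bf v) * H370.PP a x (v + u)‖ +
        (C1 * Real.exp (-x) * I1 + 1)) ^ 2 := pow_le_pow_left₀ (norm_nonneg _) hQ 2
    exact h1.trans (two_sq _ _)
  have hQc : Continuous fun u : ℝ => Qf F T t1 t2 x u := Qf_cont1 F T t1 t2 x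
  have hPPc := PP_cont ha x
  have hDc : Continuous fun u : ℝ => ∫ v in v1..v2, conj (Bf v) * H370.PP a x (v + u) :=
    shift_int_cont hcB hPPc v1 v2
  have hmsx := hms L hLL0 x hx hx4 (fun v => conj (Bf v)) hcB v1 v2 u0 u1 hv12 hu01
  simp only [RCLike.norm_conj] at hmsx
  have hint : ∫ u in u0..u1, ‖Qf F T t1 t2 x u‖ ^ 2 ≤
      2 * (∫ u in u0..u1, ‖∫ v in v1..v2, conj (Bf v) * H370.PP a x (v + u)‖ ^ 2) +
        (u1 - u0) * (2 * (C1 * Real.exp (-x) * I1 + 1) ^ 2) := by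
    calc _ ≤ ∫ u in u0..u1, (2 * ‖∫ v in v1..v2, conj (Bf v) * H370.PP a x (v + u)‖ ^ 2 +
        2 * (C1 * Real.exp (-x) * I1 + 1) ^ 2) := by
          refine intervalIntegral.integral_mono_on hu01 ?_ ?_ hpt
          · exact (hQc.norm.pow 2).intervalIntegrable _ _
          · exact ((continuous_const.mul (hDc.norm.pow 2)).add
              continuous_const).intervalIntegrable _ _
      _ = _ := by
          rw [intervalIntegral.integral_add, intervalIntegral.integral_const_mul,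
            intervalIntegral.integral_const, smul_eq_mul]
          · exact (continuous_const.mul (hDc.norm.pow 2)).intervalIntegrable _ _
          · exact continuous_const.intervalIntegrable _ _
  set U := u1 - u0 with hU
  have hU0 : 0 ≤ U := by linarith
  set X := Real.exp x with hX
  set Y := Real.exp (-x) with hY
  have hX0 : 0 < X := Real.exp_pos _
  have hY0 : 0 < Y := Real.exp_pos _
  have hXY : Y * X = 1 := by rw [hX, hY, ← Real.exp_add]; simp
  have hY1 : Y ≤ 1 := Real.exp_le_one_iff.2 (by linarith)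
  set k := Real.exp (κ * L) with hk
  have hk0 : 0 < k := Real.exp_pos _
  have hk1 : 1 ≤ k := Real.one_le_exp (by positivity)
  have hkL : 36 * L ^ 2 ≤ k := hk36
  obtain ⟨hLk3, hk2⟩ := cube_le_k (by linarith : (1 : ℝ) ≤ L) hkL
  have ek7 : Real.exp (7 * (κ * L)) = k ^ 7 := by
    rw [hk, ← Real.exp_nat_mul]; norm_num
  have ek10 : Real.exp (10 * (κ * L)) = k ^ 10 := by
    rw [hk, ← Real.exp_nat_mul]; norm_num
  rw [ek7] at hmsx
  rw [ek10]
  have halg := large_alg hU0 hX0 hY0 hY1 hH0 hk1 hk2 hLk3 hV hGle hI1 hI10 hG0 (by linarith) hLK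
  refine hint.trans ?_
  have : 2 * (∫ u in u0..u1, ‖∫ v in v1..v2, conj (Bf v) * H370.PP a x (v + u)‖ ^ 2) ≤
      2 * (k ^ 7 * ((U + X) * Y * (v2 - v1 + X) * G)) := by
    apply mul_le_mul_of_nonneg_left hmsx (by norm_num)
  exact (add_le_add this le_rfl).trans halg

end Pool.Agent.W2helper69.PS
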