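import Pool.Agent.W2helper69.PS.Form
import Pool.Agent.W2helper69.PS.Est

/-! Bounds for the correlation sum: pointwise for small `x`, in mean square for large `x`. -/

set_option autoImplicit false

open Complex Filter Topology Set MeasureTheory
open scoped BigOperators ComplexConjugate

namespace Pool.Agent.W2helper69.PS

open H370 H370.A2

lemma cube_le_exp {η L : ℝ} (hη : 0 < η) (hη1 : η ≤ 1) (hL : 24 / η ^ 4 ≤ L) :
    L ^ 3 ≤ Real.exp (η * L) ∧ 24 ≤ L := by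
  have h0 : 0 < L := lt_of_lt_of_le (by positivity) hL
  have h24 : 24 ≤ L := by
    refine le_trans ?_ hL
    rw [le_div_iff₀ (by positivity)]
    have : η ^ 4 ≤ 1 := pow_le_one₀ hη.le hη1
    linarith
  refine ⟨?_, h24⟩
  rw [div_le_iff₀ (by positivity)] at hL
  have h := Real.pow_div_factorial_le_exp (η * L) (by positivity) 4
  have h2 : (η * L) ^ 4 / (Nat.factorial 4 : ℝ) = L ^ 3 * (L * η ^ 4) / 24 := by
    norm_num [Nat.factorial]
    ring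
  rw [h2] at h
  have h3 : 0 ≤ L ^ 3 := by positivity
  nlinarith

lemma w_sq : 3 * (1 / Real.sqrt (2 * Real.pi)) ^ 2 ≤ 1 := by
  rw [div_pow, one_pow, Real.sq_sqrt (by positivity), mul_one_div, div_le_one (by positivity)]
  have := Real.pi_gt_three
  linarith

lemma VV_exp (u : ℝ) : VV u ≤ 4 * Real.exp 1 * S2 * Real.exp (2 * u) := by
  unfold VV
  calc _ ≤ ∑' n : ℕ, 4 * Real.exp (1 + 2 * u) * (1 / (n : ℝ) ^ 2) :=
        (VV_summable u).tsum_le_tsum (VV_term_le u) (sum_inv_sq.mul_left _)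
    _ = _ := by
        rw [tsum_mul_left, Real.exp_add]
        unfold S2
        ring

/-- mean square of the prime sum over an interval -/
lemma PP_ms2 {a : ℕ → ℂ} (ha : ∀ n, ‖a n‖ ≤ ArithmeticFunction.vonMangoldt n)
    (κ : ℝ) (hκ : 0 < κ) (hκ1 : κ ≤ 1) : ∃ L0 : ℝ, 40 ≤ L0 ∧ ∀ L : ℝ, L0 ≤ L →
    ∀ x : ℝ, 0 ≤ x → x ≤ 4 * L → ∀ w1 w2 : ℝ, w1 ≤ w2 →
    ∫ t in w1..w2, ‖H370.PP a x t‖ ^ 2 ≤
      2 * ((w2 - w1 + Real.exp (x + 2 * (κ * L))) * VV x) + 2 * (w2 - w1) := by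
  obtain ⟨L0, hL0, h⟩ := trunc_par κ hκ hκ1
  refine ⟨L0, hL0, fun L hL x hx hxL w1 w2 hw => ?_⟩
  obtain ⟨e1, e2, h3⟩ := h L hL
  obtain ⟨X, hX1, hXx, hX8, hXl, hXE⟩ := h3 x hx hxL
  have hL40 : 40 ≤ L := hL0.trans hL
  have hκL : 0 ≤ κ * L := by positivity
  have h4 := PP_ms ha x (κ * L) w1 w2 1 X one_pos hw hκL hXx
  refine h4.trans ?_
  have hVV := VV_nonneg x
  have hE0 : 0 ≤ 2 * (∑' n : ℕ, 1 / (n : ℝ) ^ 2) *
        (Real.exp (4 + 2 * x) * Real.exp (-(κ * L) ^ 2 / 4)) := by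
    have : 0 ≤ ∑' n : ℕ, 1 / (n : ℝ) ^ 2 := tsum_nonneg fun n => by positivity
    positivity
  have hE1 : (2 * (∑' n : ℕ, 1 / (n : ℝ) ^ 2) *
        (Real.exp (4 + 2 * x) * Real.exp (-(κ * L) ^ 2 / 4))) ^ 2 ≤ 1 := by
    apply pow_le_one₀ hE0
    refine hXE.trans ?_
    apply Real.exp_le_one_iff.2
    linarith
  have hw0 : 0 ≤ w2 - w1 := by linarith
  have h5 : (w2 - w1) * (2 * (∑' n : ℕ, 1 / (n : ℝ) ^ 2) *
        (Real.exp (4 + 2 * x) * Real.exp (-(κ * L) ^ 2 / 4))) ^ 2 ≤ (w2 - w1) * 1 := by gcongr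
  have h6 : (w2 - w1 + 8 * X * (1 + Real.log X)) * VV x ≤
      (w2 - w1 + Real.exp (x + 2 * (κ * L))) * VV x := by gcongr
  linarith

/-- the mean square of the sum over the zeros of an interval, for small `x` -/
theorem B2_small {F : ℂ → ℂ} (hF : GoodL F) (hl : Line F) {a : ℕ → ℂ}
    (ha : ∀ n, ‖a n‖ ≤ ArithmeticFunction.vonMangoldt n)
    (hld : ∀ s : ℂ, 1 < s.re → 1 ≤ s.im → deriv F s / F s = - ∑' n : ℕ, a n * (n : ℂ) ^ (-s))
    (η α0 κ : ℝ) (hη : 0 < η) (hη1 : η ≤ 1) (hα0 : 0 < α0) (hκ : 0 < κ) (hs : α0 + 2 * κ ≤ η) :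
    ∃ C T0 : ℝ, 0 < C ∧ 10 ≤ T0 ∧ ∀ T : ℝ, T0 ≤ T → ∀ t1 t2 : ℝ, 2 * T ≤ t1 →
      t2 ≤ 6 * T → Real.exp (η * Real.log T) ≤ t2 - t1 →
      ∀ x : ℝ, 0 ≤ x → x ≤ α0 * Real.log T →
      (∫ v in (t1 - Real.log T)..(t2 + Real.log T), ‖AA F t1 t2 x v‖ ^ 2 ≤
        C * ((t2 - t1) * ((Real.log T) ^ 2 * Real.exp (-x ^ 2) + VV x + 1))) ∧
      ∀ u : ℝ, ∫ v in (t1 - Real.log T)..(t2 + Real.log T), ‖H370.PP a x (v + u)‖ ^ 2 ≤
        C * ((t2 - t1) * (VV x + 1)) := by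
  obtain ⟨C1, T1, hC1, hT1, hEF⟩ := ef_sub4 hF ha hld
  obtain ⟨C2, hC2, hsup⟩ := AA_sup hF hl
  have hκ1 : κ ≤ 1 := by linarith
  obtain ⟨L0, hL0, hPP⟩ := PP_ms2 ha κ hκ hκ1
  obtain ⟨T2, hT2⟩ := (Real.tendsto_log_atTop.eventually_ge_atTop
    (max L0 (24 / η ^ 4))).exists_forall_of_atTop
  refine ⟨10 + 3 * C1 ^ 2 + 4 * C2 ^ 2, max T1 (max T2 10), by positivity, hT1.trans (le_max_left _ _),
    fun T hT t1 t2 ht1 ht2 hH x hx hxα => ?_⟩
  have hTT1 : T1 ≤ T := (le_max_left _ _).trans hT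
  have hTT2 : T2 ≤ T := ((le_max_left _ _).trans (le_max_right _ _)).trans hT
  have hT10 : 10 ≤ T := ((le_max_right _ _).trans (le_max_right _ _)).trans hT
  have hTpos : 0 < T := by linarith
  have hLbig := hT2 T hTT2
  set L := Real.log T with hL
  have hLL0 : L0 ≤ L := (le_max_left _ _).trans hLbig
  obtain ⟨hcube, -⟩ := cube_le_exp hη hη1 ((le_max_right _ _).trans hLbig)
  have hL40 : 40 ≤ L := hL0.trans hLL0
  set H := t2 - t1 with hHdef
  have hL3 : L ^ 3 ≤ H := hcube.trans hH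
  have h2L : 2 * L ≤ H := by nlinarith [sq_nonneg L]
  have hH0 : 0 < H := by nlinarith
  have hx4 : x ≤ 4 * L := by
    have : α0 ≤ 1 := by linarith
    nlinarith
  have hVV := VV_nonneg x
  have hexpx : Real.exp (x + 2 * (κ * L)) ≤ H := by
    refine le_trans ?_ hH
    apply Real.exp_le_exp.2
    nlinarith
  have hex2 : 0 < Real.exp (-x ^ 2) := Real.exp_pos _
  have hPPsh : ∀ u : ℝ, ∫ v in (t1 - L)..(t2 + L), ‖H370.PP a x (v + u)‖ ^ 2 ≤
      H * (6 * VV x + 4) := by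
    intro u
    rw [intervalIntegral.integral_comp_add_right (fun v => ‖H370.PP a x v‖ ^ 2)]
    refine (hPP L hLL0 x hx hx4 (t1 - L + u) (t2 + L + u) (by linarith)).trans ?_
    have e1 : t2 + L + u - (t1 - L + u) = H + 2 * L := by rw [hHdef]; ring
    rw [e1]
    have : (H + 2 * L + Real.exp (x + 2 * (κ * L))) * VV x ≤ (H + H + H) * VV x := by gcongr
    nlinarith
  refine ⟨?_, fun u => (hPPsh u).trans ?_⟩
  swap
  · have : 0 ≤ H * (VV x + 1) := by positivity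
    nlinarith [sq_nonneg C1, sq_nonneg C2]
  set B : ℝ → ℂ := fun v => AA F t1 t2 x v with hB
  have hBc : Continuous B := AA_cont hF (by linarith) x
  have hBi : ∀ p q : ℝ, IntervalIntegrable (fun v => ‖B v‖ ^ 2) volume p q := fun p q =>
    (hBc.norm.pow 2).intervalIntegrable _ _
  have hBsup : ∀ v, ‖B v‖ ^ 2 ≤ (C2 * L) ^ 2 := fun v =>
    pow_le_pow_left₀ (norm_nonneg _) (hsup T hT10 t1 t2 (by linarith) (by linarith) x v) 2
  have hout : ∀ p q : ℝ, p ≤ q → ∫ v in p..q, ‖B v‖ ^ 2 ≤ (q - p) * (C2 * L) ^ 2 := by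
    intro p q hpq
    calc ∫ v in p..q, ‖B v‖ ^ 2 ≤ ∫ _ in p..q, (C2 * L) ^ 2 :=
          intervalIntegral.integral_mono_on hpq (hBi _ _)
            (continuous_const.intervalIntegrable _ _) fun v _ => hBsup v
      _ = _ := by rw [intervalIntegral.integral_const, smul_eq_mul]
  have hPc := PP_cont ha x
  set w : ℝ := 1 / Real.sqrt (2 * Real.pi) with hw
  have hw0 : 0 < w := by positivity
  have hw3 : 3 * w ^ 2 ≤ 1 := w_sq
  have hin : ∀ v ∈ Set.Icc (t1 + L) (t2 - L), ‖B v‖ ^ 2 ≤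
      L ^ 2 * Real.exp (-x ^ 2) + 3 * C1 ^ 2 + ‖H370.PP a x v‖ ^ 2 := by
    intro v hv
    have h1 := hEF T hTT1 t1 t2 (by linarith) (by linarith) x v hx hx4 hv.1 hv.2
    have h2 : C1 * Real.exp (-x) ≤ C1 := by
      have : Real.exp (-x) ≤ 1 := Real.exp_le_one_iff.2 (by linarith)
      nlinarith
    set M : ℂ := (w : ℂ) * ((L : ℂ) * cexp (I * x * v) * Real.exp (-x ^ 2 / 2) - H370.PP a x v)
      with hM
    have h3 : ‖M‖ ≤ w * (L * Real.exp (-x ^ 2 / 2)) + w * ‖H370.PP a x v‖ := by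
      rw [hM, norm_mul, Complex.norm_real, Real.norm_of_nonneg hw0.le, ← mul_add]
      apply mul_le_mul_of_nonneg_left _ hw0.le
      refine (norm_sub_le _ _).trans (le_of_eq ?_)
      congr 1
      rw [norm_mul, norm_mul, Complex.norm_real, Complex.norm_real,
        Real.norm_of_nonneg (by linarith : (0 : ℝ) ≤ L), Real.norm_of_nonneg (Real.exp_pos _).le,
        show I * x * (v : ℂ) = ((x * v : ℝ) : ℂ) * I by push_cast; ring,
        Complex.norm_exp_ofReal_mul_I, mul_one]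
    have h4 : ‖B v‖ ≤ w * (L * Real.exp (-x ^ 2 / 2)) + w * ‖H370.PP a x v‖ + C1 := by
      have := norm_add_le M (B v - M)
      rw [add_sub_cancel] at this
      have h5 : ‖B v - M‖ ≤ C1 := h1.trans h2
      linarith
    have h5 : ‖B v‖ ^ 2 ≤ (w * (L * Real.exp (-x ^ 2 / 2)) + w * ‖H370.PP a x v‖ + C1) ^ 2 :=
      pow_le_pow_left₀ (norm_nonneg _) h4 2
    have h6 : (w * (L * Real.exp (-x ^ 2 / 2)) + w * ‖H370.PP a x v‖ + C1) ^ 2 ≤
        3 * w ^ 2 * (L * Real.exp (-x ^ 2 / 2)) ^ 2 + 3 * w ^ 2 * ‖H370.PP a x v‖ ^ 2 +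
          3 * C1 ^ 2 := by
      nlinarith [sq_nonneg (w * (L * Real.exp (-x ^ 2 / 2)) - w * ‖H370.PP a x v‖),
        sq_nonneg (w * (L * Real.exp (-x ^ 2 / 2)) - C1), sq_nonneg (w * ‖H370.PP a x v‖ - C1)]
    have h7 : (L * Real.exp (-x ^ 2 / 2)) ^ 2 = L ^ 2 * Real.exp (-x ^ 2) := by
      rw [mul_pow, ← Real.exp_nat_mul]
      congr 2
      push_cast; ring
    rw [h7] at h6
    have h8 : 3 * w ^ 2 * (L ^ 2 * Real.exp (-x ^ 2)) ≤ 1 * (L ^ 2 * Real.exp (-x ^ 2)) := by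
      gcongr
    have h9 : 3 * w ^ 2 * ‖H370.PP a x v‖ ^ 2 ≤ 1 * ‖H370.PP a x v‖ ^ 2 := by gcongr
    linarith
  have hmid : ∫ v in (t1 + L)..(t2 - L), ‖B v‖ ^ 2 ≤
      (t2 - L - (t1 + L)) * (L ^ 2 * Real.exp (-x ^ 2) + 3 * C1 ^ 2) +
        ∫ v in (t1 + L)..(t2 - L), ‖H370.PP a x v‖ ^ 2 := by
    calc ∫ v in (t1 + L)..(t2 - L), ‖B v‖ ^ 2 ≤ ∫ v in (t1 + L)..(t2 - L),
          (L ^ 2 * Real.exp (-x ^ 2) + 3 * C1 ^ 2 + ‖H370.PP a x v‖ ^ 2) :=
          intervalIntegral.integral_mono_on (by linarith) (hBi _ _)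
            ((continuous_const.add (hPc.norm.pow 2)).intervalIntegrable _ _) hin
      _ = _ := by
          rw [intervalIntegral.integral_add, intervalIntegral.integral_const, smul_eq_mul]
          · exact continuous_const.intervalIntegrable _ _
          · exact (hPc.norm.pow 2).intervalIntegrable _ _
  have hPmid : ∫ v in (t1 + L)..(t2 - L), ‖H370.PP a x v‖ ^ 2 ≤ H * (4 * VV x + 2) := by
    refine (hPP L hLL0 x hx hx4 (t1 + L) (t2 - L) (by linarith)).trans ?_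
    have e1 : t2 - L - (t1 + L) ≤ H := by linarith
    have : (t2 - L - (t1 + L) + Real.exp (x + 2 * (κ * L))) * VV x ≤ (H + H) * VV x := by gcongr
    nlinarith
  have hsplit : ∫ v in (t1 - L)..(t2 + L), ‖B v‖ ^ 2 =
      (∫ v in (t1 - L)..(t1 + L), ‖B v‖ ^ 2) + (∫ v in (t1 + L)..(t2 - L), ‖B v‖ ^ 2) +
        ∫ v in (t2 - L)..(t2 + L), ‖B v‖ ^ 2 := by
    rw [intervalIntegral.integral_add_adjacent_intervals (hBi _ _) (hBi _ _),
      intervalIntegral.integral_add_adjacent_intervals (hBi _ _) (hBi _ _)]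
  rw [hsplit]
  have o1 := hout (t1 - L) (t1 + L) (by linarith)
  have o2 := hout (t2 - L) (t2 + L) (by linarith)
  have e1 : t1 + L - (t1 - L) = 2 * L := by ring
  have e2 : t2 + L - (t2 - L) = 2 * L := by ring
  rw [e1] at o1
  rw [e2] at o2
  have e3 : 2 * L * (C2 * L) ^ 2 = 2 * C2 ^ 2 * L ^ 3 := by ring
  rw [e3] at o1 o2
  have e4 : 2 * C2 ^ 2 * L ^ 3 ≤ 2 * C2 ^ 2 * H := by gcongr
  have e5 : (t2 - L - (t1 + L)) * (L ^ 2 * Real.exp (-x ^ 2) + 3 * C1 ^ 2) ≤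
      H * (L ^ 2 * Real.exp (-x ^ 2) + 3 * C1 ^ 2) := by
    apply mul_le_mul_of_nonneg_right _ (by positivity)
    linarith
  set b := L ^ 2 * Real.exp (-x ^ 2) with hb
  have hb0 : 0 ≤ b := by positivity
  calc _ ≤ 2 * C2 ^ 2 * H + (H * (b + 3 * C1 ^ 2) + H * (4 * VV x + 2)) + 2 * C2 ^ 2 * H := by
        linarith
    _ ≤ (10 + 3 * C1 ^ 2 + 4 * C2 ^ 2) * (H * (b + VV x + 1)) := by
        have h1 : 0 ≤ H * b := by positivity
        have h2 : 0 ≤ H * VV x := by positivity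
        have h3 : 0 ≤ C1 ^ 2 * (H * b) := by positivity
        have h4 : 0 ≤ C1 ^ 2 * (H * VV x) := by positivity
        have h5 : 0 ≤ C2 ^ 2 * (H * b) := by positivity
        have h6 : 0 ≤ C2 ^ 2 * (H * VV x) := by positivity
        have h7 : 0 ≤ C2 ^ 2 * H := by positivity
        have h8 : 0 ≤ C1 ^ 2 * H := by positivity
        nlinarith

end Pool.Agent.W2helper69.PS
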