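import Pool.Agent.W2helper69.PS.Core
import Pool.Agent.W2helper69.PS.BS2
import Pool.Agent.H370R2.Dyadic
import Pool.Agent.H370R2.DirGood

/-! Counts of pairs of zeros of zeta in a window, compared with the smooth pair sums. -/

set_option autoImplicit false

open Complex Filter Topology Set MeasureTheory
open scoped BigOperators ComplexConjugate

namespace Pool.Agent.W2helper69.PS

open H370 H370.A2 Pool.Agent.W2helper69.BS

/-- the zeros of zeta with ordinates in `(0, T]` -/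
noncomputable def Z0 (T : ℝ) : Finset ℂ := (zeta_zeros_finite T).toFinset

/-- the multiplicity -/
noncomputable def mz (s : ℂ) : ℝ := (mult riemannZeta s : ℝ)

lemma mz_nonneg (s : ℂ) : 0 ≤ mz s := Nat.cast_nonneg _

lemma mem_Z0 {T : ℝ} {s : ℂ} : s ∈ Z0 T ↔
    0 < s.re ∧ s.re < 1 ∧ 0 < s.im ∧ s.im ≤ T ∧ riemannZeta s = 0 := by
  unfold Z0
  rw [Set.Finite.mem_toFinset]
  rfl

lemma mem_Zz {A B : ℝ} (hA : 1 ≤ A) {s : ℂ} : s ∈ Zf riemannZeta A B ↔
    0 < s.re ∧ s.re < 1 ∧ A < s.im ∧ s.im ≤ B ∧ riemannZeta s = 0 := by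
  rw [mem_Zf good_zeta hA]
  rfl

lemma Z0_split {A B : ℝ} (hA : 1 ≤ A) (hAB : A ≤ B) (f : ℂ → ℝ) :
    ∑ s ∈ Z0 B, f s = ∑ s ∈ Z0 A, f s + ∑ s ∈ Zf riemannZeta A B, f s := by
  classical
  rw [← Finset.sum_union]
  · congr 1
    ext s
    rw [Finset.mem_union, mem_Z0, mem_Z0, mem_Zz hA]
    constructor
    · rintro ⟨h1, h2, h3, h4, h5⟩
      rcases le_or_gt s.im A with h | h
      · exact Or.inl ⟨h1, h2, h3, h, h5⟩
      · exact Or.inr ⟨h1, h2, h, h4, h5⟩
    · rintro (⟨h1, h2, h3, h4, h5⟩ | ⟨h1, h2, h3, h4, h5⟩)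
      · exact ⟨h1, h2, h3, h4.trans hAB, h5⟩
      · exact ⟨h1, h2, by linarith, h4, h5⟩
  · rw [Finset.disjoint_left]
    intro s hs hs'
    rw [mem_Z0] at hs
    rw [mem_Zz hA] at hs'
    linarith [hs.2.2.2.1, hs'.2.2.1]

lemma NNz {A B : ℝ} (hA : 1 ≤ A) : (NN riemannZeta A B : ℝ) = ∑ s ∈ Zf riemannZeta A B, mz s := by
  rw [NN_eq good_zeta hA]
  push_cast
  rfl

lemma Z0_crude : ∃ C X0 : ℝ, 0 < C ∧ 10 ≤ X0 ∧ ∀ X : ℝ, X0 ≤ X →
    ∑ s ∈ Z0 X, mz s ≤ C * (X * Real.log X) := by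
  obtain ⟨C1, T0, hC1, hT0, h⟩ := nn_asymp good_zeta
  set c : ℝ := ∑ s ∈ Z0 (2 * T0), mz s with hc
  have hc0 : 0 ≤ c := Finset.sum_nonneg fun _ _ => mz_nonneg _
  set C : ℝ := C1 + c + 1 with hC
  have hC0 : 0 < C := by positivity
  have key : ∀ k : ℕ, ∀ X : ℝ, T0 ≤ X → X ≤ 2 ^ (k + 1) * T0 →
      ∑ s ∈ Z0 X, mz s ≤ 2 * C * (X * Real.log X) := by
    intro k
    induction k with
    | zero =>
      intro X hX1 hX2
      rw [zero_add, pow_one] at hX2
      have h1 : ∑ s ∈ Z0 X, mz s ≤ c := by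
        refine Finset.sum_le_sum_of_subset_of_nonneg ?_ fun _ _ _ => mz_nonneg _
        intro s hs
        rw [mem_Z0] at hs ⊢
        exact ⟨hs.1, hs.2.1, hs.2.2.1, hs.2.2.2.1.trans hX2, hs.2.2.2.2⟩
      have hl : 1 ≤ Real.log X := by
        rw [Real.le_log_iff_exp_le (by linarith)]
        linarith [Real.exp_one_lt_d9]
      have h2 : (1 : ℝ) ≤ X * Real.log X := by nlinarith
      calc _ ≤ c := h1
        _ ≤ (2 * C) * 1 := by linarith
        _ ≤ _ := by gcongr
    | succ k ih =>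
      intro X hX1 hX2
      rcases le_or_gt X (2 ^ (k + 1) * T0) with h1 | h1
      · exact ih X hX1 h1
      · have hX2' : T0 ≤ X / 2 := by
          have : (2 : ℝ) ≤ 2 ^ (k + 1) := by
            calc (2 : ℝ) = 2 ^ 1 := by norm_num
              _ ≤ _ := pow_le_pow_right₀ (by norm_num) (by omega)
          nlinarith
        have h2 := ih (X / 2) hX2' (by rw [pow_succ] at hX2; linarith)
        rw [Z0_split (A := X / 2) (B := X) (by linarith) (by linarith)]
        have h3 := (abs_le.1 (h (X / 2) hX2' (X / 2) X le_rfl (by linarith) (by linarith)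
          (by linarith))).2
        rw [NNz (by linarith)] at h3
        have hlog : Real.log (X / 2) ≤ Real.log X := Real.log_le_log (by linarith) (by linarith)
        have hl : 1 ≤ Real.log X := by
          rw [Real.le_log_iff_exp_le (by linarith)]
          linarith [Real.exp_one_lt_d9]
        have hl0 : 0 ≤ Real.log (X / 2) := Real.log_nonneg (by linarith)
        have hX0 : 0 < X := by linarith
        have h4 : 2 * C * (X / 2 * Real.log (X / 2)) ≤ C * (X * Real.log X) := by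
          calc 2 * C * (X / 2 * Real.log (X / 2)) = C * (X * Real.log (X / 2)) := by ring
            _ ≤ _ := by gcongr
        have h5 : ∑ s ∈ Zf riemannZeta (X / 2) X, mz s ≤ C * (X * Real.log X) := by
          have hpi : 1 ≤ 2 * Real.pi := by linarith [Real.pi_gt_three]
          have a1 : X / 2 * Real.log (X / 2) / (2 * Real.pi) ≤ X / 2 * Real.log (X / 2) :=
            div_le_self (by positivity) hpi
          have a2 : X / 2 * Real.log (X / 2) ≤ X * Real.log X := by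
            gcongr
            linarith
          have a3 : C1 * (X / 2) ≤ C1 * (X * Real.log X) := by
            gcongr
            nlinarith
          have a4 : C * (X * Real.log X) = C1 * (X * Real.log X) + c * (X * Real.log X) +
            X * Real.log X := by rw [hC]; ring
          have a5 : 0 ≤ c * (X * Real.log X) := by positivity
          linarith
        linarith
  refine ⟨2 * C, T0, by positivity, hT0, fun X hX => ?_⟩
  obtain ⟨k, hk⟩ := pow_unbounded_of_one_lt (X / T0) (by norm_num : (1 : ℝ) < 2)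
  apply key k X hX
  rw [div_lt_iff₀ (by linarith)] at hk
  have : (2 : ℝ) ^ k ≤ 2 ^ (k + 1) := pow_le_pow_right₀ (by norm_num) (by omega)
  nlinarith

lemma near_Z0 : ∃ C T0 : ℝ, 0 < C ∧ 10 ≤ T0 ∧ ∀ T : ℝ, T0 ≤ T → ∀ y : ℝ, 0 ≤ y →
    ∑ s ∈ (Z0 T).filter (fun s => y ≤ s.im ∧ s.im ≤ y + 1), mz s ≤ C * Real.log T := by
  classical
  obtain ⟨C, hC, hz⟩ := zcount good_zeta
  set c : ℝ := ∑ s ∈ Z0 4, mz s with hc
  have hc0 : 0 ≤ c := Finset.sum_nonneg fun _ _ => mz_nonneg _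
  refine ⟨2 * C + c, 10, by positivity, le_rfl, fun T hT y hy => ?_⟩
  have hl : 1 ≤ Real.log T := by
    rw [Real.le_log_iff_exp_le (by linarith)]
    linarith [Real.exp_one_lt_d9]
  rcases lt_or_ge y 3 with h3 | h3
  · calc _ ≤ c := by
          refine Finset.sum_le_sum_of_subset_of_nonneg ?_ fun _ _ _ => mz_nonneg _
          intro s hs
          rw [Finset.mem_filter, mem_Z0] at hs
          rw [mem_Z0]
          exact ⟨hs.1.1, hs.1.2.1, hs.1.2.2.1, by linarith [hs.2.2], hs.1.2.2.2.2⟩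
      _ ≤ (2 * C + c) * 1 := by linarith
      _ ≤ _ := by gcongr
  · rcases ((Z0 T).filter (fun s => y ≤ s.im ∧ s.im ≤ y + 1)).eq_empty_or_nonempty with he | ⟨s0, hs0⟩
    · rw [he, Finset.sum_empty]; positivity
    · rw [Finset.mem_filter, mem_Z0] at hs0
      have hyT : y ≤ T := hs0.2.1.trans hs0.1.2.2.2.1
      have h4 := hz (y + 1 / 2) (by linarith)
      rw [NNz (by linarith)] at h4
      have h5 : Real.log (y + 1 / 2) ≤ 2 * Real.log T := by
        have e : 2 * Real.log T = Real.log (T ^ 2) := by rw [Real.log_pow]; push_cast; ring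
        rw [e]
        apply Real.log_le_log (by linarith)
        nlinarith
      calc _ ≤ ∑ s ∈ Zf riemannZeta (y + 1 / 2 - 1) (y + 1 / 2 + 1), mz s := by
            refine Finset.sum_le_sum_of_subset_of_nonneg ?_ fun _ _ _ => mz_nonneg _
            intro s hs
            rw [Finset.mem_filter, mem_Z0] at hs
            rw [mem_Zz (by linarith)]
            exact ⟨hs.1.1, hs.1.2.1, by linarith [hs.2.1], by linarith [hs.2.2], hs.1.2.2.2.2⟩
        _ ≤ C * Real.log (y + 1 / 2) := h4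
        _ ≤ C * (2 * Real.log T) := by gcongr
        _ ≤ (2 * C + c) * Real.log T := by nlinarith

/-- the number of zeros with ordinates in `(0, T]` at distance between `lo` and `hi` above `g` -/
noncomputable def KK (T lo hi g : ℝ) : ℝ :=
  ∑ s' ∈ (Z0 T).filter (fun s' => lo ≤ s'.im - g ∧ s'.im - g ≤ hi), mz s'

lemma KK_nonneg (T lo hi g : ℝ) : 0 ≤ KK T lo hi g := Finset.sum_nonneg fun _ _ => mz_nonneg _

lemma KK_le {C T lo hi g : ℝ} (h1 : hi - lo ≤ 1) (h0 : 0 ≤ g + lo)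
    (h : ∀ y : ℝ, 0 ≤ y →
      ∑ s ∈ (Z0 T).filter (fun s => y ≤ s.im ∧ s.im ≤ y + 1), mz s ≤ C * Real.log T) :
    KK T lo hi g ≤ C * Real.log T := by
  refine le_trans ?_ (h (g + lo) h0)
  unfold KK
  refine Finset.sum_le_sum_of_subset_of_nonneg ?_ fun _ _ _ => mz_nonneg _
  intro s hs
  rw [Finset.mem_filter] at hs ⊢
  exact ⟨hs.1, by linarith [hs.2.1], by linarith [hs.2.2]⟩

lemma dist_iff {lo hi d Λ B : ℝ} (hΛ : 0 < Λ) (hB : hi - lo = 2 * Real.pi * B / Λ) :
    |(d - (lo + hi) / 2) * Λ / (2 * Real.pi)| ≤ B / 2 ↔ lo ≤ d ∧ d ≤ hi := by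
  have hpi := Real.pi_pos
  have e : |(d - (lo + hi) / 2) * Λ / (2 * Real.pi)| = |d - (lo + hi) / 2| * (Λ / (2 * Real.pi)) := by
    rw [mul_div_assoc, abs_mul, abs_of_pos (by positivity : 0 < Λ / (2 * Real.pi))]
  have e2 : B / 2 = (hi - lo) / 2 * (Λ / (2 * Real.pi)) := by
    rw [hB]; field_simp
  rw [e, e2]
  have hp : 0 < Λ / (2 * Real.pi) := by positivity
  rw [mul_le_mul_iff_left₀ hp, abs_le]
  constructor
  · rintro ⟨h1, h2⟩; constructor <;> linarith
  · rintro ⟨h1, h2⟩; constructor <;> linarith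

theorem win_upper {T T' t1 t2 lo hi Λ μ B : ℝ} (hT' : 1 < T') (ht1 : 2 * T' ≤ t1)
    (ht2 : t2 ≤ 4 * T') (hlo : 0 ≤ lo) (hhi : hi ≤ 10 * T') (hΛ : 0 < Λ) (hμ : 0 < μ) (hB0 : 0 < B)
    (hB : hi - lo = 2 * Real.pi * B / Λ) :
    ∑ s ∈ Zf riemannZeta t1 t2, mz s * KK T lo hi s.im ≤
      SS riemannZeta (psiB μ B 1) μ Λ T' t1 t2 ((lo + hi) / 2) := by
  classical
  unfold SS
  refine Finset.sum_le_sum fun s hs => ?_
  rw [mem_Zz (by linarith)] at hs
  unfold KK
  rw [Finset.mul_sum]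
  calc _ ≤ ∑ s' ∈ (Z0 T).filter (fun s' => lo ≤ s'.im - s.im ∧ s'.im - s.im ≤ hi),
        mz s * mz s' * RR (psiB μ B 1) μ ((s'.im - s.im - (lo + hi) / 2) * Λ / (2 * Real.pi)) := by
        refine Finset.sum_le_sum fun s' hs' => ?_
        rw [Finset.mem_filter] at hs'
        have h1 := maj_one (l := B) hμ ((dist_iff hΛ hB).2 hs'.2)
        have h2 : 0 ≤ mz s * mz s' := mul_nonneg (mz_nonneg _) (mz_nonneg _)
        exact le_mul_of_one_le_right h2 h1
    _ ≤ _ := by
        refine Finset.sum_le_sum_of_subset_of_nonneg ?_ fun s' _ _ => ?_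
        · intro s' hs'
          rw [Finset.mem_filter, mem_Z0] at hs'
          rw [mem_Zz (by linarith)]
          obtain ⟨⟨a1, a2, a3, a4, a5⟩, b1, b2⟩ := hs'
          exact ⟨a1, a2, by linarith [hs.2.2.1], by linarith [hs.2.2.2.1], a5⟩
        · exact mul_nonneg (mul_nonneg (mz_nonneg _) (mz_nonneg _)) (maj_nonneg hμ hB0 _)

theorem win_lower {T T' t1 t2 lo hi Λ μ B : ℝ} (hT' : 1 < T') (ht1 : 2 * T' ≤ t1)
    (ht2 : t2 + hi ≤ T) (hΛ : 0 < Λ) (hμ : 0 < μ)
    (hB : hi - lo = 2 * Real.pi * B / Λ) :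
    SS riemannZeta (psiB μ B (-1)) μ Λ T' t1 t2 ((lo + hi) / 2) ≤
      ∑ s ∈ Zf riemannZeta t1 t2, mz s * KK T lo hi s.im := by
  classical
  unfold SS
  refine Finset.sum_le_sum fun s hs => ?_
  rw [mem_Zz (by linarith)] at hs
  unfold KK
  rw [Finset.mul_sum]
  calc _ ≤ ∑ s' ∈ (Zf riemannZeta (T' + 1) (16 * T' - 1)).filter
        (fun s' => lo ≤ s'.im - s.im ∧ s'.im - s.im ≤ hi), mz s * mz s' := by
        rw [Finset.sum_filter]
        refine Finset.sum_le_sum fun s' hs' => ?_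
        have h2 : 0 ≤ mz s * mz s' := mul_nonneg (mz_nonneg _) (mz_nonneg _)
        split_ifs with h
        · exact mul_le_of_le_one_right h2 (min_one hμ _)
        · have h3 : B / 2 < |(s'.im - s.im - (lo + hi) / 2) * Λ / (2 * Real.pi)| := by
            rw [← not_le, dist_iff hΛ hB]
            exact h
          exact mul_nonpos_of_nonneg_of_nonpos h2 (min_zero hμ h3)
    _ ≤ _ := by
        refine Finset.sum_le_sum_of_subset_of_nonneg ?_ fun s' _ _ =>
          mul_nonneg (mz_nonneg _) (mz_nonneg _)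
        intro s' hs'
        rw [Finset.mem_filter, mem_Zz (by linarith)] at hs'
        rw [Finset.mem_filter, mem_Z0]
        obtain ⟨⟨a1, a2, a3, a4, a5⟩, b1, b2⟩ := hs'
        exact ⟨⟨a1, a2, by linarith, by linarith [hs.2.2.2.1], a5⟩, b1, b2⟩

end Pool.Agent.W2helper69.PS
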